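import Pool.Agent.TH977.Cyc.Basic

open Finset

set_option linter.unusedSectionVars false

namespace Pool.Agent.TH977.Cyc

noncomputable section

variable {n : ℕ} [NeZero n]

/-- real part of the standard character: `cos (2 π x / n)` -/
def cc (x : ZMod n) : ℝ := (ZMod.stdAddChar x : ℂ).re

theorem abs_cc_le (x : ZMod n) : |cc x| ≤ 1 := by
  have h := Complex.abs_re_le_norm (ZMod.stdAddChar x : ℂ)
  rw [norm_char] at h
  exact h

theorem sum_cc (j : ZMod n) (hj : j ≠ 0) : ∑ x, cc (j * x) = 0 := by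
  have h := sum_char j
  rw [if_neg hj] at h
  have h2 := congrArg Complex.re h
  rw [Complex.re_sum] at h2
  simpa [cc] using h2

theorem exp_le_cosh {θ u : ℝ} (hu : |u| ≤ 1) :
    Real.exp (θ * u) ≤ Real.cosh θ + u * Real.sinh θ := by
  obtain ⟨h1, h2⟩ := abs_le.mp hu
  have h := convexOn_exp.2 (Set.mem_univ θ) (Set.mem_univ (-θ))
    (show 0 ≤ (1 + u) / 2 by linarith) (show 0 ≤ (1 - u) / 2 by linarith) (by ring)
  simp only [smul_eq_mul] at h
  have e1 : (1 + u) / 2 * θ + (1 - u) / 2 * -θ = θ * u := by ring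
  rw [e1] at h
  refine h.trans (le_of_eq ?_)
  rw [Real.cosh_eq, Real.sinh_eq]
  ring

theorem mgf_le (j : ZMod n) (hj : j ≠ 0) (θ : ℝ) :
    ∑ x, Real.exp (θ * cc (j * x)) ≤ n * Real.exp (θ ^ 2 / 2) := by
  calc ∑ x, Real.exp (θ * cc (j * x)) ≤ ∑ x, (Real.cosh θ + cc (j * x) * Real.sinh θ) :=
        Finset.sum_le_sum fun x _ => exp_le_cosh (abs_cc_le _)
    _ = n * Real.cosh θ := by
        rw [Finset.sum_add_distrib, ← Finset.sum_mul, sum_cc j hj, zero_mul, add_zero,
          Finset.sum_const, card_univ, ZMod.card, nsmul_eq_mul]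
    _ ≤ n * Real.exp (θ ^ 2 / 2) :=
        mul_le_mul_of_nonneg_left (Real.cosh_le_exp_half_sq θ) npos.le

theorem mgf_prod_le (k : ℕ) (j : ZMod n) (hj : j ≠ 0) (θ : ℝ) :
    ∑ a : Fin k → ZMod n, Real.exp (θ * ∑ i, cc (j * a i)) ≤
      (n : ℝ) ^ k * Real.exp (k * (θ ^ 2 / 2)) := by
  have h1 : ∀ a : Fin k → ZMod n, Real.exp (θ * ∑ i, cc (j * a i)) =
      ∏ i, Real.exp (θ * cc (j * a i)) := by
    intro a
    rw [← Real.exp_sum, Finset.mul_sum]
  simp only [h1]
  rw [← Fintype.sum_pow (fun x : ZMod n => Real.exp (θ * cc (j * x))) k]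
  rw [Real.exp_nat_mul, ← mul_pow]
  exact pow_le_pow_left₀ (Finset.sum_nonneg fun _ _ => (Real.exp_pos _).le) (mgf_le j hj θ) k

/-- random generators -/
theorem exists_good (k : ℕ) {lam : ℝ} (hlam : 0 < lam) (hk : Real.log (2 * n) ≤ k * (lam ^ 2 / 2)) :
    ∃ a : Fin k → ZMod n, ∀ j, j ≠ 0 → |∑ i, cc (j * a i)| ≤ k * lam := by
  by_contra hcon
  push Not at hcon
  have hn := npos (n := n)
  have h1 : ∀ a : Fin k → ZMod n, Real.exp (k * lam ^ 2) ≤
      ∑ j ∈ univ.erase (0 : ZMod n), (Real.exp (lam * ∑ i, cc (j * a i)) +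
        Real.exp (-lam * ∑ i, cc (j * a i))) := by
    intro a
    obtain ⟨j, hj, hj2⟩ := hcon a
    have h2 : Real.exp (k * lam ^ 2) ≤ Real.exp (lam * ∑ i, cc (j * a i)) +
        Real.exp (-lam * ∑ i, cc (j * a i)) := by
      rcases le_total 0 (∑ i, cc (j * a i)) with h | h
      · rw [abs_of_nonneg h] at hj2
        have : Real.exp (k * lam ^ 2) ≤ Real.exp (lam * ∑ i, cc (j * a i)) :=
          Real.exp_le_exp.mpr (by nlinarith)
        linarith [Real.exp_pos (-lam * ∑ i, cc (j * a i))]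
      · rw [abs_of_nonpos h] at hj2
        have : Real.exp (k * lam ^ 2) ≤ Real.exp (-lam * ∑ i, cc (j * a i)) :=
          Real.exp_le_exp.mpr (by nlinarith)
        linarith [Real.exp_pos (lam * ∑ i, cc (j * a i))]
    refine h2.trans ?_
    exact Finset.single_le_sum (f := fun j => Real.exp (lam * ∑ i, cc (j * a i)) +
        Real.exp (-lam * ∑ i, cc (j * a i)))
      (fun j _ => (add_pos (Real.exp_pos _) (Real.exp_pos _)).le)
      (Finset.mem_erase.mpr ⟨hj, Finset.mem_univ j⟩)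
  have h2 := Finset.sum_le_sum fun (a : Fin k → ZMod n) (_ : a ∈ univ) => h1 a
  rw [Finset.sum_const, card_univ, Fintype.card_fun, Fintype.card_fin, ZMod.card, nsmul_eq_mul,
    Finset.sum_comm] at h2
  have h3 : ∑ j ∈ univ.erase (0 : ZMod n), ∑ a : Fin k → ZMod n,
      (Real.exp (lam * ∑ i, cc (j * a i)) + Real.exp (-lam * ∑ i, cc (j * a i))) ≤
      ∑ j ∈ univ.erase (0 : ZMod n), 2 * ((n : ℝ) ^ k * Real.exp (k * (lam ^ 2 / 2))) := by
    refine Finset.sum_le_sum fun j hj => ?_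
    rw [Finset.sum_add_distrib]
    have hj0 := (Finset.mem_erase.mp hj).1
    have h4 := mgf_prod_le k j hj0 lam
    have h5 := mgf_prod_le k j hj0 (-lam)
    rw [neg_sq] at h5
    linarith
  have h4 := h2.trans h3
  rw [Finset.sum_const, Finset.card_erase_of_mem (Finset.mem_univ _), card_univ, ZMod.card,
    nsmul_eq_mul] at h4
  have hn1 : ((n - 1 : ℕ) : ℝ) = n - 1 := by
    have : 1 ≤ n := Nat.pos_of_ne_zero (NeZero.ne n)
    push_cast [Nat.cast_sub this]; ring
  rw [hn1] at h4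
  push_cast at h4
  have h5 : (2 * n : ℝ) * Real.exp (k * (lam ^ 2 / 2)) ≤ Real.exp (k * lam ^ 2) := by
    calc (2 * n : ℝ) * Real.exp (k * (lam ^ 2 / 2))
        = Real.exp (Real.log (2 * n)) * Real.exp (k * (lam ^ 2 / 2)) := by
          rw [Real.exp_log (by linarith)]
      _ ≤ Real.exp (k * (lam ^ 2 / 2)) * Real.exp (k * (lam ^ 2 / 2)) := by
          gcongr
      _ = Real.exp (k * lam ^ 2) := by rw [← Real.exp_add]; congr 1; ring
  have h6 : (n : ℝ) ^ k * Real.exp (k * lam ^ 2) ≤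
      (n - 1) * (2 * ((n : ℝ) ^ k * Real.exp (k * (lam ^ 2 / 2)))) := h4
  have h7 : (n : ℝ) ^ k * ((2 * n : ℝ) * Real.exp (k * (lam ^ 2 / 2))) ≤
      (n : ℝ) ^ k * Real.exp (k * lam ^ 2) := mul_le_mul_of_nonneg_left h5 (by positivity)
  have h8 : 0 < (n : ℝ) ^ k * Real.exp (k * (lam ^ 2 / 2)) := by positivity
  nlinarith

/-- uniform law on `± a i` -/
def nu {k : ℕ} (a : Fin k → ZMod n) : ZMod n → ℝ := fun x =>
  (1 / (2 * k)) * ∑ i, ((if x = a i then (1 : ℝ) else 0) + (if x = -a i then (1 : ℝ) else 0))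

theorem nu_nonneg {k : ℕ} (a : Fin k → ZMod n) (x : ZMod n) : 0 ≤ nu a x := by
  unfold nu
  refine mul_nonneg (by positivity) (Finset.sum_nonneg fun i _ => ?_)
  split_ifs <;> norm_num

theorem nu_neg {k : ℕ} (a : Fin k → ZMod n) (x : ZMod n) : nu a (-x) = nu a x := by
  unfold nu
  congr 1
  refine Finset.sum_congr rfl fun i _ => ?_
  have h1 : (-x = a i) ↔ (x = -a i) := neg_eq_iff_eq_neg
  have h2 : (-x = -a i) ↔ (x = a i) := neg_inj
  simp only [h1, h2]
  ring

theorem nu_sum {k : ℕ} (hk : 0 < k) (a : Fin k → ZMod n) : ∑ x, nu a x = 1 := by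
  have hk' : (0 : ℝ) < k := by exact_mod_cast hk
  unfold nu
  rw [← Finset.mul_sum, Finset.sum_comm]
  simp only [Finset.sum_add_distrib, Finset.sum_ite_eq', Finset.mem_univ, if_true,
    Finset.sum_const, Finset.card_univ, Fintype.card_fin, nsmul_eq_mul, mul_one]
  field_simp
  norm_num

theorem F_nu {k : ℕ} (a : Fin k → ZMod n) (j : ZMod n) :
    F (nu a) j = (((1 / k) * ∑ i, cc (j * a i) : ℝ) : ℂ) := by
  unfold F nu
  have h1 : ∀ x : ZMod n, (((1 / (2 * k)) * ∑ i, ((if x = a i then (1 : ℝ) else 0) +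
      (if x = -a i then (1 : ℝ) else 0)) : ℝ) : ℂ) * ZMod.stdAddChar (j * x) =
      (1 / (2 * k)) * ∑ i, ((if x = a i then (ZMod.stdAddChar (j * x) : ℂ) else 0) +
      (if x = -a i then (ZMod.stdAddChar (j * x) : ℂ) else 0)) := by
    intro x
    push_cast
    rw [mul_assoc, Finset.sum_mul]
    congr 1
    refine Finset.sum_congr rfl fun i _ => ?_
    split_ifs <;> simp [add_mul]
  simp only [h1]
  rw [← Finset.mul_sum, Finset.sum_comm]
  have h2 : ∀ i, ∑ x : ZMod n, ((if x = a i then (ZMod.stdAddChar (j * x) : ℂ) else 0) +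
      (if x = -a i then (ZMod.stdAddChar (j * x) : ℂ) else 0)) = 2 * (cc (j * a i) : ℂ) := by
    intro i
    rw [Finset.sum_add_distrib]
    simp only [Finset.sum_ite_eq', Finset.mem_univ, if_true]
    rw [mul_neg, ← conj_char, Complex.add_conj]
    unfold cc
    push_cast
    ring
  simp only [h2]
  rw [← Finset.mul_sum]
  push_cast
  have : (1 : ℂ) / (2 * k) * (2 * ∑ i, (cc (j * a i) : ℂ)) = 1 / k * ∑ i, (cc (j * a i) : ℂ) := by
    field_simp
  exact this

theorem norm_F_nu {k : ℕ} (hk : 0 < k) {lam : ℝ} {a : Fin k → ZMod n} {j : ZMod n}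
    (h : |∑ i, cc (j * a i)| ≤ k * lam) : ‖F (nu a) j‖ ≤ lam := by
  have hk' : (0 : ℝ) < k := by exact_mod_cast hk
  rw [F_nu, Complex.norm_real, Real.norm_eq_abs, abs_mul, abs_of_pos (by positivity)]
  rw [one_div, inv_mul_le_iff₀ hk']
  exact h

/-- the support of `nu` -/
def supp {k : ℕ} (a : Fin k → ZMod n) : Finset (ZMod n) :=
  univ.image a ∪ univ.image (fun i => -a i)

theorem card_supp {k : ℕ} (a : Fin k → ZMod n) : (supp a).card ≤ 2 * k := by
  unfold supp
  refine (Finset.card_union_le _ _).trans ?_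
  have h1 : (univ.image a).card ≤ k := by simpa using Finset.card_image_le (s := univ) (f := a)
  have h2 : (univ.image (fun i => -a i)).card ≤ k := by
    simpa using Finset.card_image_le (s := univ) (f := fun i => -a i)
  omega

theorem nu_eq_zero {k : ℕ} (a : Fin k → ZMod n) {x : ZMod n} (hx : x ∉ supp a) : nu a x = 0 := by
  unfold nu
  have : ∀ i, ((if x = a i then (1 : ℝ) else 0) + (if x = -a i then (1 : ℝ) else 0)) = 0 := by
    intro i
    have h1 : x ≠ a i := by
      rintro rfl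
      exact hx (Finset.mem_union_left _ (Finset.mem_image_of_mem a (Finset.mem_univ i)))
    have h2 : x ≠ -a i := by
      rintro rfl
      exact hx (Finset.mem_union_right _
        (Finset.mem_image_of_mem (fun i => -a i) (Finset.mem_univ i)))
    rw [if_neg h1, if_neg h2, add_zero]
  simp [this]

open scoped Pointwise in
/-- the support of the law after `t` steps -/
theorem exists_supp {μ : ZMod n → ℝ} (S : Finset (ZMod n)) (hS : ∀ x, x ∉ S → μ x = 0) (t : ℕ) :
    ∃ R : Finset (ZMod n), R.card ≤ S.card ^ t ∧ ∀ x, x ∉ R → cpow μ t x = 0 := by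
  induction t with
  | zero =>
    refine ⟨{0}, by simp, fun x hx => ?_⟩
    rw [Finset.mem_singleton] at hx
    simp [cpow, hx]
  | succ t ih =>
    obtain ⟨R, hR, hR2⟩ := ih
    refine ⟨R + S, ?_, fun x hx => ?_⟩
    · calc (R + S).card ≤ R.card * S.card := Finset.card_add_le
        _ ≤ S.card ^ t * S.card := Nat.mul_le_mul_right _ hR
        _ = S.card ^ (t + 1) := by rw [pow_succ]
    · rw [cpow, conv]
      refine Finset.sum_eq_zero fun y _ => ?_
      by_cases hy : y ∈ R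
      · by_cases hxy : x - y ∈ S
        · exfalso
          apply hx
          rw [Finset.mem_add]
          exact ⟨y, hy, x - y, hxy, by abel⟩
        · rw [hS _ hxy, mul_zero]
      · rw [hR2 y hy, zero_mul]

/-- lower bound for the distance from the size of the support -/
theorem tv_ge_supp {μ : ZMod n → ℝ} (h1 : ∑ x, μ x = 1)
    (S : Finset (ZMod n)) (hS : ∀ x, x ∉ S → μ x = 0) (t : ℕ) :
    1 - (S.card : ℝ) ^ t / n ≤ tv (cpow μ t) := by
  obtain ⟨R, hR, hR2⟩ := exists_supp S hS t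
  have h2 := tv_ge (sum_cpow h1 t) R
  have h3 : ∑ x ∈ R, cpow μ t x = 1 := by
    rw [← sum_cpow h1 t]
    exact Finset.sum_subset (Finset.subset_univ R) fun x _ hx => hR2 x hx
  have h4 : (R.card : ℝ) / n ≤ (S.card : ℝ) ^ t / n := by
    have : (R.card : ℝ) ≤ (S.card : ℝ) ^ t := by exact_mod_cast hR
    exact div_le_div_of_nonneg_right this npos.le
  linarith

end

end Pool.Agent.TH977.Cyc
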