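import Mathlib

open Finset

set_option linter.unusedSectionVars false

namespace Pool.Agent.TH977.Cyc

noncomputable section

variable {n : ℕ} [NeZero n]

/-- convolution on the cyclic group -/
def conv (f g : ZMod n → ℝ) : ZMod n → ℝ := fun x => ∑ y, f y * g (x - y)

/-- convolution powers -/
def cpow (μ : ZMod n → ℝ) : ℕ → ZMod n → ℝ
  | 0 => fun x => if x = 0 then 1 else 0
  | t + 1 => conv (cpow μ t) μ

/-- total variation distance to the uniform law -/
def tv (f : ZMod n → ℝ) : ℝ := (1 / 2) * ∑ x, |f x - 1 / (n : ℝ)|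

/-- Fourier coefficients -/
def F (f : ZMod n → ℝ) (j : ZMod n) : ℂ := ∑ x, (f x : ℂ) * ZMod.stdAddChar (j * x)

theorem conv_comm (f g : ZMod n → ℝ) : conv f g = conv g f := by
  funext x
  unfold conv
  refine Fintype.sum_equiv (Equiv.subLeft x) _ _ fun y => ?_
  simp [Equiv.subLeft, mul_comm]

theorem conv_assoc (f g h : ZMod n → ℝ) : conv (conv f g) h = conv f (conv g h) := by
  funext x
  simp only [conv, Finset.sum_mul, Finset.mul_sum]
  rw [Finset.sum_comm]
  refine Finset.sum_congr rfl fun y _ => ?_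
  refine Fintype.sum_equiv (Equiv.subRight y) _ _ fun z => ?_
  simp only [Equiv.subRight_apply]
  rw [mul_assoc]
  congr 3
  abel

theorem conv_add (f g h : ZMod n → ℝ) : conv f (g + h) = conv f g + conv f h := by
  funext x
  simp [conv, mul_add, Finset.sum_add_distrib]

theorem add_conv (f g h : ZMod n → ℝ) : conv (f + g) h = conv f h + conv g h := by
  funext x
  simp [conv, add_mul, Finset.sum_add_distrib]

theorem conv_sub (f g h : ZMod n → ℝ) : conv f (g - h) = conv f g - conv f h := by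
  funext x
  simp [conv, mul_sub, Finset.sum_sub_distrib]

theorem sub_conv (f g h : ZMod n → ℝ) : conv (f - g) h = conv f h - conv g h := by
  funext x
  simp [conv, sub_mul, Finset.sum_sub_distrib]

theorem conv_smul (c : ℝ) (f g : ZMod n → ℝ) : conv f (c • g) = c • conv f g := by
  funext x
  simp only [conv, Pi.smul_apply, smul_eq_mul, Finset.mul_sum]
  exact Finset.sum_congr rfl fun y _ => by ring

theorem smul_conv (c : ℝ) (f g : ZMod n → ℝ) : conv (c • f) g = c • conv f g := by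
  funext x
  simp only [conv, Pi.smul_apply, smul_eq_mul, Finset.mul_sum]
  exact Finset.sum_congr rfl fun y _ => by ring

/-- the uniform law -/
def unif (n : ℕ) : ZMod n → ℝ := fun _ => 1 / (n : ℝ)

theorem npos : (0 : ℝ) < n := by
  have : 0 < n := Nat.pos_of_ne_zero (NeZero.ne n)
  exact_mod_cast this

theorem sum_unif : ∑ x, unif n x = 1 := by
  have := npos (n := n)
  simp [unif, ZMod.card]

theorem conv_unif (f : ZMod n → ℝ) : conv f (unif n) = (∑ x, f x) • unif n := by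
  funext x
  simp [conv, unif, Finset.sum_mul]

theorem unif_conv (f : ZMod n → ℝ) : conv (unif n) f = (∑ x, f x) • unif n := by
  rw [conv_comm, conv_unif]

theorem delta_conv (f : ZMod n → ℝ) : conv (fun x => if x = 0 then 1 else 0) f = f := by
  funext x
  simp [conv]

theorem conv_delta (f : ZMod n → ℝ) : conv f (fun x => if x = 0 then 1 else 0) = f := by
  rw [conv_comm, delta_conv]

theorem sum_conv (f g : ZMod n → ℝ) : ∑ x, conv f g x = (∑ x, f x) * ∑ x, g x := by
  unfold conv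
  rw [Finset.sum_comm, Finset.sum_mul]
  refine Finset.sum_congr rfl fun y _ => ?_
  rw [← Finset.mul_sum]
  congr 1
  exact Fintype.sum_equiv (Equiv.subRight y) _ _ fun z => by simp

theorem conv_nonneg {f g : ZMod n → ℝ} (hf : ∀ x, 0 ≤ f x) (hg : ∀ x, 0 ≤ g x) (x : ZMod n) :
    0 ≤ conv f g x := Finset.sum_nonneg fun y _ => mul_nonneg (hf y) (hg _)

theorem cpow_add (μ : ZMod n → ℝ) (s t : ℕ) : cpow μ (s + t) = conv (cpow μ s) (cpow μ t) := by
  induction t with
  | zero => rw [Nat.add_zero, cpow, conv_delta]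
  | succ t ih => rw [← Nat.add_assoc, cpow, ih, conv_assoc, cpow]

theorem cpow_one (μ : ZMod n → ℝ) : cpow μ 1 = μ := by
  rw [cpow, cpow, delta_conv]

theorem cpow_succ' (μ : ZMod n → ℝ) (t : ℕ) : cpow μ (t + 1) = conv μ (cpow μ t) := by
  rw [Nat.add_comm, cpow_add, cpow_one]

theorem cpow_nonneg {μ : ZMod n → ℝ} (h : ∀ x, 0 ≤ μ x) (t : ℕ) (x : ZMod n) :
    0 ≤ cpow μ t x := by
  induction t generalizing x with
  | zero => unfold cpow; split_ifs <;> norm_num
  | succ t ih => exact conv_nonneg ih h x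

theorem sum_cpow {μ : ZMod n → ℝ} (h : ∑ x, μ x = 1) (t : ℕ) : ∑ x, cpow μ t x = 1 := by
  induction t with
  | zero => simp [cpow]
  | succ t ih => rw [cpow, sum_conv, ih, h, one_mul]

theorem tv_nonneg (f : ZMod n → ℝ) : 0 ≤ tv f := by unfold tv; positivity

theorem tv_eq (f : ZMod n → ℝ) : tv f = (1 / 2) * ∑ x, |(f - unif n) x| := by
  unfold tv unif; simp

/-- mixing with the uniform law -/
theorem cpow_mix {ν : ZMod n → ℝ} (h : ∑ x, ν x = 1) (q : ℝ) (t : ℕ) :
    cpow ((1 - q) • ν + q • unif n) t =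
      (1 - q) ^ t • cpow ν t + (1 - (1 - q) ^ t) • unif n := by
  induction t with
  | zero => simp [cpow]
  | succ t ih =>
    have hs : ∑ x, ((1 - q) ^ t • cpow ν t + (1 - (1 - q) ^ t) • unif n) x = 1 := by
      simp only [Pi.add_apply, Pi.smul_apply, smul_eq_mul, Finset.sum_add_distrib,
        ← Finset.mul_sum, sum_cpow h, sum_unif]
      ring
    rw [cpow, ih, conv_add, conv_smul, conv_smul, conv_unif, hs, add_conv, smul_conv, smul_conv,
      unif_conv, h, ← cpow]
    funext x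
    simp only [Pi.add_apply, Pi.smul_apply, smul_eq_mul]
    ring

theorem tv_smul_mix (f : ZMod n → ℝ) {c : ℝ} (hc : 0 ≤ c) :
    tv (c • f + (1 - c) • unif n) = c * tv f := by
  unfold tv
  have : ∀ x, |(c • f + (1 - c) • unif n) x - 1 / (n : ℝ)| = c * |f x - 1 / (n : ℝ)| := by
    intro x
    rw [← abs_of_nonneg hc, ← abs_mul, abs_of_nonneg hc]
    congr 1
    simp only [Pi.add_apply, Pi.smul_apply, smul_eq_mul, unif]
    ring
  simp only [this, ← Finset.mul_sum]
  ring

theorem tv_cpow_mix {ν : ZMod n → ℝ} (h : ∑ x, ν x = 1) {q : ℝ} (hq : q ≤ 1) (t : ℕ) :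
    tv (cpow ((1 - q) • ν + q • unif n) t) = (1 - q) ^ t * tv (cpow ν t) := by
  rw [cpow_mix h, tv_smul_mix]
  exact pow_nonneg (by linarith) t

/-- `L¹` norm of a convolution -/
theorem l1_conv (f g : ZMod n → ℝ) : ∑ x, |conv f g x| ≤ (∑ x, |f x|) * ∑ x, |g x| := by
  have h : ∀ x, |conv f g x| ≤ conv (fun y => |f y|) (fun y => |g y|) x := by
    intro x
    refine (Finset.abs_sum_le_sum_abs _ _).trans (le_of_eq ?_)
    exact Finset.sum_congr rfl fun y _ => abs_mul _ _
  exact (Finset.sum_le_sum fun x _ => h x).trans (le_of_eq (sum_conv _ _))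

/-- the total variation distance does not increase -/
theorem tv_conv_le {f ν : ZMod n → ℝ} (hν : ∀ x, 0 ≤ ν x) (h1 : ∑ x, ν x = 1) :
    tv (conv f ν) ≤ tv f := by
  rw [tv_eq, tv_eq]
  have e : conv f ν - unif n = conv (f - unif n) ν := by
    rw [sub_conv, unif_conv, h1, one_smul]
  rw [e]
  have h := l1_conv (f - unif n) ν
  have h2 : ∑ x, |ν x| = 1 := by
    rw [← h1]; exact Finset.sum_congr rfl fun x _ => abs_of_nonneg (hν x)
  rw [h2, mul_one] at h
  linarith

theorem tv_cpow_anti {ν : ZMod n → ℝ} (hν : ∀ x, 0 ≤ ν x) (h1 : ∑ x, ν x = 1) :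
    Antitone fun t => tv (cpow ν t) :=
  antitone_nat_of_succ_le fun t => tv_conv_le hν h1

theorem tv_le_one {f : ZMod n → ℝ} (hf : ∀ x, 0 ≤ f x) (h1 : ∑ x, f x = 1) : tv f ≤ 1 := by
  have hn := npos (n := n)
  unfold tv
  have h : ∑ x, |f x - 1 / (n : ℝ)| ≤ ∑ x, (f x + 1 / (n : ℝ)) := by
    refine Finset.sum_le_sum fun x _ => ?_
    refine (abs_sub _ _).trans ?_
    rw [abs_of_nonneg (hf x), abs_of_nonneg (by positivity)]
  rw [Finset.sum_add_distrib, h1] at h
  have h2 : ∑ _x : ZMod n, 1 / (n : ℝ) = 1 := sum_unif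
  linarith

/-- lower bound by a small set -/
theorem tv_ge {f : ZMod n → ℝ} (h1 : ∑ x, f x = 1) (S : Finset (ZMod n)) :
    ∑ x ∈ S, f x - (S.card : ℝ) / n ≤ tv f := by
  have hn := npos (n := n)
  have h0 : ∑ x, (f x - 1 / (n : ℝ)) = 0 := by
    rw [Finset.sum_sub_distrib, h1]
    have : ∑ _x : ZMod n, 1 / (n : ℝ) = 1 := sum_unif
    linarith
  have h2 := Finset.sum_add_sum_compl S fun x => (f x - 1 / (n : ℝ))
  have h3 := Finset.sum_add_sum_compl S fun x => |f x - 1 / (n : ℝ)|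
  have h4 : ∑ x ∈ S, (f x - 1 / (n : ℝ)) ≤ ∑ x ∈ S, |f x - 1 / (n : ℝ)| :=
    Finset.sum_le_sum fun x _ => le_abs_self _
  have h5 : -∑ x ∈ Sᶜ, (f x - 1 / (n : ℝ)) ≤ ∑ x ∈ Sᶜ, |f x - 1 / (n : ℝ)| := by
    rw [← Finset.sum_neg_distrib]
    exact Finset.sum_le_sum fun x _ => neg_le_abs _
  have h6 : ∑ x ∈ S, (f x - 1 / (n : ℝ)) = ∑ x ∈ S, f x - (S.card : ℝ) / n := by
    rw [Finset.sum_sub_distrib, Finset.sum_const, nsmul_eq_mul, mul_one_div]
  unfold tv
  rw [← h3]
  linarith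

/-! ### Fourier analysis -/

theorem F_conv (f g : ZMod n → ℝ) (j : ZMod n) : F (conv f g) j = F f j * F g j := by
  unfold F conv
  push_cast
  rw [Finset.sum_mul_sum]
  simp only [Finset.sum_mul]
  rw [Finset.sum_comm]
  refine Finset.sum_congr rfl fun y _ => ?_
  refine Fintype.sum_equiv (Equiv.subRight y) _ _ fun z => ?_
  simp only [Equiv.subRight_apply]
  have : j * z = j * y + j * (z - y) := by ring
  rw [this, AddChar.map_add_eq_mul]
  ring

theorem F_zero (f : ZMod n → ℝ) : F f 0 = ((∑ x, f x : ℝ) : ℂ) := by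
  unfold F; simp

theorem F_delta (j : ZMod n) : F (fun x : ZMod n => if x = 0 then (1 : ℝ) else 0) j = 1 := by
  unfold F
  rw [Finset.sum_eq_single 0]
  · simp
  · intro b _ hb
    simp [hb]
  · simp

theorem F_cpow (μ : ZMod n → ℝ) (t : ℕ) (j : ZMod n) : F (cpow μ t) j = F μ j ^ t := by
  induction t with
  | zero => rw [cpow, F_delta, pow_zero]
  | succ t ih => rw [cpow, F_conv, ih, pow_succ]

theorem F_add (f g : ZMod n → ℝ) (j : ZMod n) : F (f + g) j = F f j + F g j := by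
  unfold F
  rw [← Finset.sum_add_distrib]
  refine Finset.sum_congr rfl fun x _ => ?_
  rw [Pi.add_apply]; push_cast; ring

theorem F_sub (f g : ZMod n → ℝ) (j : ZMod n) : F (f - g) j = F f j - F g j := by
  unfold F
  rw [← Finset.sum_sub_distrib]
  refine Finset.sum_congr rfl fun x _ => ?_
  rw [Pi.sub_apply]; push_cast; ring

theorem F_smul (c : ℝ) (f : ZMod n → ℝ) (j : ZMod n) : F (c • f) j = c * F f j := by
  unfold F
  rw [Finset.mul_sum]
  refine Finset.sum_congr rfl fun x _ => ?_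
  rw [Pi.smul_apply, smul_eq_mul]; push_cast; ring

theorem sum_char (j : ZMod n) :
    ∑ x : ZMod n, (ZMod.stdAddChar (j * x) : ℂ) = if j = 0 then (n : ℂ) else 0 := by
  have h := AddChar.sum_mulShift (ψ := (ZMod.stdAddChar (N := n))) j (ZMod.isPrimitive_stdAddChar n)
  rw [ZMod.card] at h
  simp only [mul_comm j]
  rw [h]
  split_ifs <;> simp

theorem F_unif (j : ZMod n) (hj : j ≠ 0) : F (unif n) j = 0 := by
  unfold F unif
  rw [← Finset.mul_sum, sum_char, if_neg hj, mul_zero]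

theorem norm_char (x : ZMod n) : ‖(ZMod.stdAddChar x : ℂ)‖ = 1 := by
  rw [ZMod.stdAddChar_apply]
  exact Circle.norm_coe _

theorem norm_F_le (f : ZMod n → ℝ) (j : ZMod n) : ‖F f j‖ ≤ ∑ x, |f x| := by
  unfold F
  refine (norm_sum_le _ _).trans (le_of_eq ?_)
  refine Finset.sum_congr rfl fun x _ => ?_
  rw [norm_mul, norm_char, mul_one, Complex.norm_real, Real.norm_eq_abs]

theorem conj_char (x : ZMod n) : (starRingEnd ℂ) (ZMod.stdAddChar x) = ZMod.stdAddChar (-x) := by
  have h1 : (ZMod.stdAddChar x : ℂ) * ZMod.stdAddChar (-x) = 1 := by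
    rw [← AddChar.map_add_eq_mul, add_neg_cancel, AddChar.map_zero_eq_one]
  have h2 := norm_char x
  have h3 : (ZMod.stdAddChar x : ℂ) ≠ 0 := by
    intro h; rw [h] at h2; simp at h2
  have h4 : (ZMod.stdAddChar x : ℂ) * (starRingEnd ℂ) (ZMod.stdAddChar x) = 1 := by
    rw [Complex.mul_conj, Complex.normSq_eq_norm_sq, h2]; simp
  exact mul_left_cancel₀ h3 (h4.trans h1.symm)

/-- Parseval -/
theorem parseval (f : ZMod n → ℝ) : ∑ j, ‖F f j‖ ^ 2 = n * ∑ x, f x ^ 2 := by
  have key : ((∑ j, ‖F f j‖ ^ 2 : ℝ) : ℂ) = ((n * ∑ x, f x ^ 2 : ℝ) : ℂ) := by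
    push_cast
    have h1 : ∀ j, ((‖F f j‖ : ℂ)) ^ 2 = ∑ x, ∑ y, (f x : ℂ) * (f y : ℂ) *
        ZMod.stdAddChar ((x - y) * j) := by
      intro j
      rw [← Complex.ofReal_pow, ← Complex.normSq_eq_norm_sq, ← Complex.mul_conj]
      unfold F
      rw [map_sum, Finset.sum_mul_sum]
      refine Finset.sum_congr rfl fun x _ => Finset.sum_congr rfl fun y _ => ?_
      rw [(starRingEnd ℂ).map_mul, conj_char, Complex.conj_ofReal]
      have : (x - y) * j = j * x + -(j * y) := by ring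
      rw [this, AddChar.map_add_eq_mul]
      ring
    simp only [h1]
    rw [Finset.sum_comm]
    rw [Finset.mul_sum]
    refine Finset.sum_congr rfl fun x _ => ?_
    rw [Finset.sum_comm]
    have h2 : ∀ y, ∑ j, (f x : ℂ) * (f y : ℂ) * (ZMod.stdAddChar ((x - y) * j) : ℂ) =
        if y = x then (n : ℂ) * (f x : ℂ) ^ 2 else 0 := by
      intro y
      rw [← Finset.mul_sum, sum_char]
      by_cases h : y = x
      · subst h; simp; ring
      · rw [if_neg h, if_neg (sub_ne_zero.mpr (Ne.symm h)), mul_zero]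
    simp only [h2]
    simp
  exact_mod_cast key

/-- contraction in `L²` -/
theorem l2_conv {f g : ZMod n → ℝ} (hf : ∑ x, f x = 0) {lam : ℝ} (h0 : 0 ≤ lam)
    (hg : ∀ j, j ≠ 0 → ‖F g j‖ ≤ lam) :
    ∑ x, conv f g x ^ 2 ≤ lam ^ 2 * ∑ x, f x ^ 2 := by
  have hn := npos (n := n)
  have h1 := parseval (conv f g)
  have h2 := parseval f
  have h3 : ∑ j, ‖F (conv f g) j‖ ^ 2 ≤ ∑ j, lam ^ 2 * ‖F f j‖ ^ 2 := by
    refine Finset.sum_le_sum fun j _ => ?_
    rw [F_conv, norm_mul, mul_pow, mul_comm]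
    by_cases hj : j = 0
    · subst hj
      rw [F_zero f, hf]
      simp
    · exact mul_le_mul_of_nonneg_right (pow_le_pow_left₀ (norm_nonneg _) (hg j hj) 2)
        (by positivity)
  rw [← Finset.mul_sum, h1, h2] at h3
  have h4 : (n : ℝ) * ∑ x, conv f g x ^ 2 ≤ n * (lam ^ 2 * ∑ x, f x ^ 2) := by linarith
  exact le_of_mul_le_mul_left h4 hn

theorem l1_le_l2 (f : ZMod n → ℝ) : (∑ x, |f x|) ^ 2 ≤ n * ∑ x, f x ^ 2 := by
  have h := sq_sum_le_card_mul_sum_sq (s := (univ : Finset (ZMod n))) (f := fun x => |f x|)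
  simp only [sq_abs, card_univ, ZMod.card] at h
  exact h

theorem sum_sq_of_F {f : ZMod n → ℝ} {B : ℝ} (h0 : ∑ x, f x = 0)
    (hB : ∀ j, j ≠ 0 → ‖F f j‖ ≤ B) (hB0 : 0 ≤ B) : ∑ x, f x ^ 2 ≤ B ^ 2 := by
  have hn := npos (n := n)
  have h1 := parseval f
  have h2 : ∑ j, ‖F f j‖ ^ 2 ≤ ∑ _j : ZMod n, B ^ 2 := by
    refine Finset.sum_le_sum fun j _ => ?_
    by_cases hj : j = 0
    · subst hj
      rw [F_zero f, h0]
      simp
      positivity
    · exact pow_le_pow_left₀ (norm_nonneg _) (hB j hj) 2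
  rw [Finset.sum_const, card_univ, ZMod.card, nsmul_eq_mul, h1] at h2
  exact le_of_mul_le_mul_left h2 hn

end

end Pool.Agent.TH977.Cyc
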