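import Pool.Agent.TH977.Cyc.Jump

open Finset Filter Topology

set_option linter.unusedSectionVars false

namespace Pool.Agent.TH977.Cyc

noncomputable section

/-- `√(log n)` -/
def xx (n : ℕ) : ℝ := √(Real.log n)

/-- number of scales -/
def LL (n : ℕ) : ℕ := ⌊xx n⌋₊

/-- `log (2 log (2 n))` -/
def ww (n : ℕ) : ℝ := Real.log (2 * Real.log (2 * n))

def t1 (γ : ℝ) (n : ℕ) : ℕ := ⌈(1 - γ / 2) * LL n⌉₊ + 1

def t2 (γ : ℝ) (n : ℕ) : ℕ := ⌊(1 - γ / 4) * LL n⌋₊

theorem xx_tendsto : Tendsto xx atTop atTop :=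
  Real.tendsto_sqrt_atTop.comp (Real.tendsto_log_atTop.comp tendsto_natCast_atTop_atTop)

theorem LL_tendsto : Tendsto LL atTop atTop := tendsto_nat_floor_atTop.comp xx_tendsto

theorem xx_sq {n : ℕ} (hn : 1 ≤ n) : xx n ^ 2 = Real.log n :=
  Real.sq_sqrt (Real.log_nonneg (by exact_mod_cast hn))

theorem ww_le (c : ℝ) (hc : 0 < c) : ∀ᶠ n : ℕ in atTop, ww n ≤ c * xx n := by
  have h1 : Tendsto (fun x : ℝ => x / 2) atTop atTop := tendsto_id.atTop_div_const (by norm_num)
  have h2 := Real.isLittleO_log_id_atTop.bound (c := c / 8) (by positivity)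
  have h3 : Tendsto (fun n : ℕ => 4 * xx n) atTop atTop :=
    xx_tendsto.const_mul_atTop (by norm_num)
  filter_upwards [h3.eventually h2, xx_tendsto.eventually_ge_atTop 2,
    xx_tendsto.eventually_ge_atTop (8 / c * 0 + 1), eventually_ge_atTop 2] with n h4 h5 _ h7
  have hn : (2 : ℝ) ≤ n := by exact_mod_cast h7
  have hsq := xx_sq (n := n) (by omega)
  have hlog2 : Real.log 2 ≤ 1 := by
    have := Real.log_two_lt_d9; linarith
  have e1 : Real.log (2 * n) = Real.log 2 + xx n ^ 2 := by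
    rw [Real.log_mul (by norm_num) (by positivity), hsq]
  have hpos : 0 < Real.log (2 * n) := Real.log_pos (by linarith)
  have h6 : 2 * Real.log (2 * n) ≤ (4 * xx n) ^ 2 := by
    rw [e1]; nlinarith
  have h8 : ww n ≤ 2 * Real.log (4 * xx n) := by
    unfold ww
    calc Real.log (2 * Real.log (2 * n)) ≤ Real.log ((4 * xx n) ^ 2) :=
          Real.log_le_log (by positivity) h6
      _ = 2 * Real.log (4 * xx n) := by rw [Real.log_pow]; norm_num
  rw [Real.norm_eq_abs, Real.norm_eq_abs, id, abs_of_nonneg (show 0 ≤ 4 * xx n by linarith)] at h4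
  have h9 := (le_abs_self _).trans h4
  nlinarith

theorem num_up {γ x ℓ L w s : ℝ} (hγ0 : 0 < γ) (hsq : x ^ 2 = ℓ) (hx : 4 ≤ x) (hL : 0 < L)
    (hw : w ≤ γ / 8 * x) (hw0 : 0 ≤ w) (hs1 : (1 - γ / 2) * L ≤ s) (hs2 : s ≤ x + 1) :
    ℓ / 2 + s * ((w - ℓ / L) / 2) + (w - γ * ℓ) / 2 ≤ -(γ / 8 * x ^ 2) := by
  have hℓ : 0 ≤ ℓ := by rw [← hsq]; positivity
  have h5 : (1 - γ / 2) * ℓ ≤ s * (ℓ / L) := by
    rw [mul_div_assoc', le_div_iff₀ hL]
    have := mul_le_mul_of_nonneg_right hs1 hℓ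
    linarith
  have h6 : s * w ≤ (x + 1) * w := mul_le_mul_of_nonneg_right hs2 hw0
  have h7 : (x + 2) * w ≤ (x + 2) * (γ / 8 * x) :=
    mul_le_mul_of_nonneg_left hw (by linarith)
  have h8 : 0 ≤ γ * x * (x - 2) := by
    have : 0 ≤ x - 2 := by linarith
    have : 0 ≤ x := by linarith
    positivity
  rw [hsq]
  rw [← hsq] at h5 ⊢
  linarith

theorem num_inv {L : ℝ} (hL : 1 < L) : 1 - 1 / L = (1 + 1 / (L - 1))⁻¹ := by
  have h6 : L - 1 ≠ 0 := by linarith
  have h7 : L ≠ 0 := by linarith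
  have e : 1 + 1 / (L - 1) = L / (L - 1) := by
    rw [eq_div_iff h6, add_mul, one_div_mul_cancel h6]; ring
  rw [e, inv_div, sub_div, div_self h7]

theorem num_low {γ x ℓ L s : ℝ} (hsq : x ^ 2 = ℓ) (hx : 0 < x) (hL : 0 < L)
    (hγx : 32 ≤ γ * x) (hs1 : s ≤ (1 - γ / 4) * L) (hLx : (1 - γ / 4) * L ≤ x) :
    s * (2 + ℓ / L) ≤ -(γ / 8 * x ^ 2) + ℓ := by
  have hℓ : 0 ≤ ℓ := by rw [← hsq]; positivity
  have h5 : s * (ℓ / L) ≤ (1 - γ / 4) * ℓ := by
    rw [mul_div_assoc', div_le_iff₀ hL]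
    have := mul_le_mul_of_nonneg_right hs1 hℓ
    linarith
  have h7 : 0 ≤ (γ * x - 32) * x := mul_nonneg (by linarith) hx.le
  rw [← hsq] at h5 ⊢
  nlinarith

/-- The data for one modulus. -/
theorem one (γ : ℝ) (hγ0 : 0 < γ) (hγ1 : γ ≤ 1) : ∀ᶠ n : ℕ in atTop, ∀ [NeZero n],
    ∃ μ : ZMod n → ℝ, (∀ x, 0 ≤ μ x) ∧ (∑ x, μ x = 1) ∧ (∀ x, μ (-x) = μ x) ∧
      (∃ S : Finset (ZMod n), (S.card : ℝ) ≤ (n : ℝ) ^ (2 * γ) ∧ ∀ x, x ∉ S → μ x = 0) ∧
      (∀ j, j ≠ 0 → ‖F μ j‖ ≤ 1 / 2) ∧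
      tv (cpow μ (t1 γ n)) ≤ 0.65 ∧ 0.35 < tv (cpow μ (t2 γ n)) := by
  have hE1 : Tendsto (fun n => Real.exp (-(γ / 8 * xx n ^ 2))) atTop (𝓝 0) := by
    apply Real.tendsto_exp_neg_atTop_nhds_zero.comp
    apply Tendsto.const_mul_atTop (by positivity)
    exact (tendsto_pow_atTop two_ne_zero).comp xx_tendsto
  filter_upwards [ww_le (γ / 8) (by positivity), xx_tendsto.eventually_ge_atTop 4,
    xx_tendsto.eventually_ge_atTop (32 / γ), eventually_ge_atTop 2,
    hE1.eventually (gt_mem_nhds (show (0 : ℝ) < 0.01 by norm_num))] with n hw hx4 hxγ hn2 he1 _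
  have hn : (2 : ℝ) ≤ n := by exact_mod_cast hn2
  have hnp : (0 : ℝ) < n := by linarith
  have hsq := xx_sq (n := n) (by omega)
  set x := xx n with hx
  set ℓ := Real.log n with hℓ
  have hx0 : 0 < x := by linarith
  have hxγ' : 32 ≤ γ * x := by
    rw [div_le_iff₀ hγ0] at hxγ; linarith
  have hn_exp : (n : ℝ) = Real.exp ℓ := (Real.exp_log hnp).symm
  -- the number of scales
  set L := LL n with hL
  have hL1 : (L : ℝ) ≤ x := Nat.floor_le hx0.le
  have hL2 : x - 1 ≤ (L : ℝ) := by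
    have := (Nat.lt_floor_add_one x).le
    rw [hL, LL, ← hx]; linarith
  have hLpos : (0 : ℝ) < L := by linarith
  have hLγ : 4 ≤ γ / 4 * L := by
    have h1 := mul_le_mul_of_nonneg_left hL2 hγ0.le
    linarith
  -- w ≥ 0
  set w := ww n with hwdef
  have hlog2n : 1 ≤ Real.log (2 * n) := by
    rw [Real.le_log_iff_exp_le (by linarith)]
    have := Real.exp_one_lt_d9
    linarith
  have hexpw : Real.exp w = 2 * Real.log (2 * n) := by
    rw [hwdef, ww, Real.exp_log (by linarith)]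
  have hw0 : 0 ≤ w := Real.log_nonneg (by linarith)
  -- generators
  set k := ⌈Real.exp (ℓ / L)⌉₊ with hk
  set m := ⌈Real.exp (γ * ℓ)⌉₊ with hm
  have hk1 : Real.exp (ℓ / L) ≤ k := Nat.le_ceil _
  have hm1 : Real.exp (γ * ℓ) ≤ m := Nat.le_ceil _
  have hℓ0 : 0 < ℓ := by rw [← hsq]; positivity
  have hxL : x ≤ ℓ / L := by
    rw [le_div_iff₀ hLpos, ← hsq, sq]
    exact mul_le_mul_of_nonneg_left hL1 hx0.le
  have hk2 : (k : ℝ) ≤ 2 * Real.exp (ℓ / L) := by
    have h1 := (Nat.ceil_lt_add_one (Real.exp_pos (ℓ / L)).le).le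
    have h2 : 1 ≤ Real.exp (ℓ / L) := Real.one_le_exp (by positivity)
    rw [hk]; linarith
  have hm2 : (m : ℝ) ≤ 2 * Real.exp (γ * ℓ) := by
    have h1 := (Nat.ceil_lt_add_one (Real.exp_pos (γ * ℓ)).le).le
    have h2 : 1 ≤ Real.exp (γ * ℓ) := Real.one_le_exp (by positivity)
    rw [hm]; linarith
  have hk0 : 0 < k := Nat.ceil_pos.mpr (Real.exp_pos _)
  have hm0 : 0 < m := Nat.ceil_pos.mpr (Real.exp_pos _)
  have hk0' : (0 : ℝ) < k := by exact_mod_cast hk0
  have hm0' : (0 : ℝ) < m := by exact_mod_cast hm0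
  -- bounds for the Fourier coefficients
  set a := √(2 * Real.log (2 * n) / k) with ha
  set b := √(2 * Real.log (2 * n) / m) with hb
  have ha0 : 0 < a := Real.sqrt_pos.mpr (by positivity)
  have hb0 : 0 < b := Real.sqrt_pos.mpr (by positivity)
  have ha2 : a ≤ Real.exp ((w - ℓ / L) / 2) := by
    rw [ha, Real.sqrt_le_left (Real.exp_pos _).le, ← Real.exp_nat_mul, div_le_iff₀ hk0']
    calc 2 * Real.log (2 * n) = Real.exp (w - ℓ / L) * Real.exp (ℓ / L) := by
          rw [← Real.exp_add, sub_add_cancel, hexpw]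
      _ = Real.exp (((2 : ℕ) : ℝ) * ((w - ℓ / L) / 2)) * Real.exp (ℓ / L) := by
          congr 2; push_cast; ring
      _ ≤ _ := mul_le_mul_of_nonneg_left hk1 (Real.exp_pos _).le
  have hb2 : b ≤ Real.exp ((w - γ * ℓ) / 2) := by
    rw [hb, Real.sqrt_le_left (Real.exp_pos _).le, ← Real.exp_nat_mul, div_le_iff₀ hm0']
    calc 2 * Real.log (2 * n) = Real.exp (w - γ * ℓ) * Real.exp (γ * ℓ) := by
          rw [← Real.exp_add, sub_add_cancel, hexpw]
      _ = Real.exp (((2 : ℕ) : ℝ) * ((w - γ * ℓ) / 2)) * Real.exp (γ * ℓ) := by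
          congr 2; push_cast; ring
      _ ≤ _ := mul_le_mul_of_nonneg_left hm1 (Real.exp_pos _).le
  have hLinv : ℓ / L ≤ γ * ℓ := by
    rw [div_le_iff₀ hLpos]
    have h1 : 1 ≤ γ * L := by linarith
    have h2 := mul_le_mul_of_nonneg_left h1 hℓ0.le
    linarith
  have hba : b ≤ a := by
    apply Real.sqrt_le_sqrt
    have hkm : (k : ℝ) ≤ m := by
      have : k ≤ m := Nat.ceil_le_ceil (Real.exp_le_exp.mpr hLinv)
      exact_mod_cast this
    exact div_le_div_of_nonneg_left (by positivity) hk0' hkm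
  have ha_half : a ≤ 1 / 2 := by
    refine ha2.trans ?_
    have h1 : (w - ℓ / L) / 2 ≤ -1 := by
      have h2 : γ / 8 * x ≤ 1 / 8 * x := mul_le_mul_of_nonneg_right (by linarith) hx0.le
      linarith
    calc Real.exp ((w - ℓ / L) / 2) ≤ Real.exp (-1) := Real.exp_le_exp.mpr h1
      _ ≤ 1 / 2 := by
        have := Real.exp_neg_one_lt_d9
        linarith
  obtain ⟨A, hA⟩ := exists_good (n := n) k ha0 (by
    rw [ha, Real.sq_sqrt (by positivity)]
    apply le_of_eq
    field_simp)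
  obtain ⟨B, hB⟩ := exists_good (n := n) m hb0 (by
    rw [hb, Real.sq_sqrt (by positivity)]
    apply le_of_eq
    field_simp)
  have hFA : ∀ j, j ≠ 0 → ‖F (nu A) j‖ ≤ a := fun j hj => norm_F_nu hk0 (hA j hj)
  have hFB : ∀ j, j ≠ 0 → ‖F (nu B) j‖ ≤ b := fun j hj => norm_F_nu hm0 (hB j hj)
  set q : ℝ := 1 / L with hq
  have hq0 : 0 ≤ q := by positivity
  have hq1 : q ≤ 1 := by
    rw [hq, div_le_one hLpos]; linarith
  have hq1' : 0 ≤ 1 - q := by linarith
  set μ : ZMod n → ℝ := (1 - q) • nu A + q • nu B with hμ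
  refine ⟨μ, fun y => ?_, sum_mix (nu_sum hk0 A) (nu_sum hm0 B), fun y => ?_,
    ⟨supp A ∪ supp B, ?_, fun y hy => ?_⟩, fun j hj => ?_, ?_, ?_⟩
  · rw [hμ]
    simp only [Pi.add_apply, Pi.smul_apply, smul_eq_mul]
    exact add_nonneg (mul_nonneg hq1' (nu_nonneg A y)) (mul_nonneg hq0 (nu_nonneg B y))
  · rw [hμ]
    simp only [Pi.add_apply, Pi.smul_apply, smul_eq_mul, nu_neg]
  · -- support
    have h1 : ((supp A ∪ supp B).card : ℝ) ≤ 2 * k + 2 * m := by
      have h2 := Finset.card_union_le (supp A) (supp B)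
      have h3 := card_supp A
      have h4 := card_supp B
      have : (supp A ∪ supp B).card ≤ 2 * k + 2 * m := by omega
      exact_mod_cast this
    have h2 : Real.exp (ℓ / L) ≤ Real.exp (γ * ℓ) := Real.exp_le_exp.mpr hLinv
    have h3 : (8 : ℝ) ≤ Real.exp (γ * ℓ) := by
      have h4 : (8 : ℝ) ≤ γ * ℓ := by
        rw [← hsq]
        have h5 := mul_le_mul hxγ' hx4 (by norm_num) (by linarith)
        linarith
      have := Real.add_one_le_exp (γ * ℓ)
      linarith
    calc ((supp A ∪ supp B).card : ℝ) ≤ 2 * k + 2 * m := h1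
      _ ≤ 8 * Real.exp (γ * ℓ) := by linarith
      _ ≤ Real.exp (γ * ℓ) * Real.exp (γ * ℓ) :=
          mul_le_mul_of_nonneg_right h3 (Real.exp_pos _).le
      _ = (n : ℝ) ^ (2 * γ) := by
          rw [Real.rpow_def_of_pos hnp, ← Real.exp_add]
          congr 1
          ring
  · rw [Finset.mem_union, not_or] at hy
    rw [hμ]
    simp only [Pi.add_apply, Pi.smul_apply, smul_eq_mul, nu_eq_zero A hy.1, nu_eq_zero B hy.2]
    ring
  · rw [hμ, F_add, F_smul, F_smul]
    calc ‖((1 - q : ℝ) : ℂ) * F (nu A) j + (q : ℂ) * F (nu B) j‖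
        ≤ ‖((1 - q : ℝ) : ℂ) * F (nu A) j‖ + ‖(q : ℂ) * F (nu B) j‖ := norm_add_le _ _
      _ ≤ (1 - q) * (1 / 2) + q * (1 / 2) := by
        rw [norm_mul, norm_mul, Complex.norm_real, Complex.norm_real, Real.norm_eq_abs,
          Real.norm_eq_abs, abs_of_nonneg hq1', abs_of_nonneg hq0]
        exact add_le_add (mul_le_mul_of_nonneg_left ((hFA j hj).trans ha_half) hq1')
          (mul_le_mul_of_nonneg_left ((hFB j hj).trans (hba.trans ha_half)) hq0)
      _ = 1 / 2 := by ring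
  · -- upper bound at time t1
    set s := ⌈(1 - γ / 2) * L⌉₊ with hs
    have hs1 : (1 - γ / 2) * L ≤ s := Nat.le_ceil _
    have hs2 : (s : ℝ) ≤ x + 1 := by
      have h1 := (Nat.ceil_lt_add_one (show 0 ≤ (1 - γ / 2) * L by
        apply mul_nonneg _ hLpos.le; linarith)).le
      have h2 : 0 ≤ γ / 2 * L := by positivity
      rw [hs]; linarith
    change tv (cpow μ (s + 1)) ≤ 0.65
    have h1 := tv_jump_le (nu_nonneg A) (nu_sum hk0 A) (nu_sum hm0 B) hq0 hq1 hb0.le hba ha0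
      hFA hFB s
    refine h1.trans ?_
    have h2 : (1 - q) ^ (s + 1) ≤ 0.61 := by
      have h3 : 1 - q ≤ Real.exp (-q) := by
        have := Real.add_one_le_exp (-q); linarith
      calc (1 - q) ^ (s + 1) ≤ Real.exp (-q) ^ (s + 1) := pow_le_pow_left₀ hq1' h3 _
        _ = Real.exp (-(q * (s + 1))) := by
            rw [← Real.exp_nat_mul]; congr 1; push_cast; ring
        _ ≤ Real.exp (-(1 / 2)) := by
            apply Real.exp_le_exp.mpr
            have h4 : 1 / 2 ≤ q * (s + 1) := by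
              rw [hq, one_div_mul_eq_div, div_le_div_iff₀ (by norm_num) hLpos]
              have h5 : 0 ≤ (1 - γ) * L := mul_nonneg (by linarith) hLpos.le
              linarith
            linarith
        _ ≤ 0.61 := by
            have h5 : Real.exp (-(1 / 2)) ^ 2 = Real.exp (-1) := by
              rw [← Real.exp_nat_mul]; congr 1; norm_num
            have h6 := Real.exp_neg_one_lt_d9
            by_contra hcon
            push Not at hcon
            have h7 : (0.61 : ℝ) ^ 2 < Real.exp (-(1 / 2)) ^ 2 :=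
              pow_lt_pow_left₀ hcon (by norm_num) two_ne_zero
            rw [h5] at h7
            norm_num at h7 h6
            linarith
    have h3 : √(n : ℝ) * (a ^ s * b) ≤ Real.exp (-(γ / 8 * x ^ 2)) := by
      have h4 : √(n : ℝ) = Real.exp (ℓ / 2) := by
        rw [hn_exp, Real.sqrt_eq_rpow, ← Real.exp_mul]; congr 1; ring
      rw [h4]
      calc Real.exp (ℓ / 2) * (a ^ s * b)
          ≤ Real.exp (ℓ / 2) * (Real.exp ((w - ℓ / L) / 2) ^ s * Real.exp ((w - γ * ℓ) / 2)) := by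
            gcongr
        _ = Real.exp (ℓ / 2 + s * ((w - ℓ / L) / 2) + (w - γ * ℓ) / 2) := by
            rw [← Real.exp_nat_mul, Real.exp_add, Real.exp_add]; ring
        _ ≤ Real.exp (-(γ / 8 * x ^ 2)) := by
            apply Real.exp_le_exp.mpr
            exact num_up hγ0 hsq hx4 hLpos hw hw0 hs1 hs2
    linarith
  · -- lower bound at time t2
    set s := ⌊(1 - γ / 4) * L⌋₊ with hs
    change 0.35 < tv (cpow μ s)
    have hs1 : (s : ℝ) ≤ (1 - γ / 4) * L := Nat.floor_le (mul_nonneg (by linarith) hLpos.le)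
    have h1 := tv_jump_ge (nu_nonneg A) (nu_nonneg B) (nu_sum hk0 A) (nu_sum hm0 B) hq0 hq1
      (supp A) (fun y hy => nu_eq_zero A hy) s
    refine lt_of_lt_of_le ?_ h1
    have h2 : Real.exp (-1) ≤ (1 - q) ^ s := by
      -- (1-1/L)^s ≥ (1-1/L)^(L-1) ≥ e^{-1}
      have hLm : 1 < (L : ℝ) := by linarith
      have h3 : Real.exp (-(1 / (L - 1))) ≤ 1 - q := by
        have h4 : 1 + 1 / ((L : ℝ) - 1) ≤ Real.exp (1 / (L - 1)) := by
          have := Real.add_one_le_exp (1 / ((L : ℝ) - 1)); linarith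
        rw [Real.exp_neg]
        have h5 : 1 - q = (1 + 1 / ((L : ℝ) - 1))⁻¹ := num_inv hLm
        rw [h5]
        exact inv_anti₀ (by have : 0 < (L : ℝ) - 1 := by linarith
                            positivity) h4
      calc Real.exp (-1) ≤ Real.exp (-(1 / (L - 1))) ^ s := by
            rw [← Real.exp_nat_mul]
            apply Real.exp_le_exp.mpr
            have h4 : (s : ℝ) * (1 / (L - 1)) ≤ 1 := by
              rw [mul_one_div, div_le_one (by linarith)]
              linarith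
            linarith
        _ ≤ (1 - q) ^ s := pow_le_pow_left₀ (Real.exp_pos _).le h3 s
    have h3 : ((supp A).card : ℝ) ^ s / n ≤ Real.exp (-(γ / 8 * x ^ 2)) := by
      have h4 : ((supp A).card : ℝ) ≤ Real.exp (2 + ℓ / L) := by
        have h5 : ((supp A).card : ℝ) ≤ 2 * k := by exact_mod_cast card_supp A
        have h6 : (4 : ℝ) ≤ Real.exp 2 := by
          have h7 := Real.exp_one_gt_d9
          have h8 : Real.exp 2 = Real.exp 1 * Real.exp 1 := by rw [← Real.exp_add]; norm_num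
          nlinarith
        rw [Real.exp_add]
        have h7 := mul_le_mul_of_nonneg_right h6 (Real.exp_pos (ℓ / L)).le
        linarith
      rw [div_le_iff₀ hnp]
      calc ((supp A).card : ℝ) ^ s ≤ Real.exp (2 + ℓ / L) ^ s :=
            pow_le_pow_left₀ (Nat.cast_nonneg _) h4 s
        _ = Real.exp (s * (2 + ℓ / L)) := by rw [← Real.exp_nat_mul]
        _ ≤ Real.exp (-(γ / 8 * x ^ 2) + ℓ) := by
            apply Real.exp_le_exp.mpr
            exact num_low hsq hx0 hLpos hxγ' hs1 (by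
              have h8 : 0 ≤ γ / 4 * L := by positivity
              linarith)
        _ = Real.exp (-(γ / 8 * x ^ 2)) * n := by
            rw [Real.exp_add]; congr 1; exact hn_exp.symm
    have h4 := Real.exp_neg_one_gt_d9
    norm_num at h4 he1 ⊢
    linarith

end

end Pool.Agent.TH977.Cyc
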