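import Pool.Agent.TH977.Cyc.Three
import Pool.Agent.TH977.Cyc.Small

open Finset Filter Topology

set_option linter.unusedSectionVars false

namespace Pool.Agent.TH977.Cyc

noncomputable section

/-! ### parameters -/

/-- `n ^ (1/16)` -/
def zz (n : ℕ) : ℝ := (n : ℝ) ^ (1 / 16 : ℝ)

/-- `log (2 n)` -/
def el (n : ℕ) : ℝ := Real.log (2 * n)

/-- number of `A`-directions -/
def kk (n : ℕ) : ℕ := ⌈16 * el n⌉₊

/-- half length of the intervals -/
def HH (n : ℕ) : ℕ := ⌊zz n ^ 12⌋₊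

/-- number of `B`-directions -/
def mm (n : ℕ) : ℕ := ⌈(kk n * (2 * HH n + 1 : ℕ) : ℝ) / LL n⌉₊

/-- bound for the Fourier coefficients of the `B`-steps -/
def bl (n : ℕ) : ℝ := (zz n ^ 3)⁻¹

/-- the probability of a `B`-step -/
def pp (n : ℕ) : ℝ := (2 * mm n : ℕ) / ((2 * kk n * (2 * HH n + 1) : ℕ) + (2 * mm n : ℕ) : ℝ)

theorem zz_pow {n : ℕ} : zz n ^ 16 = n := by
  unfold zz
  rw [← Real.rpow_natCast, ← Real.rpow_mul (Nat.cast_nonneg n)]
  norm_num

theorem zz_tendsto : Tendsto zz atTop atTop :=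
  (tendsto_rpow_atTop (by norm_num)).comp tendsto_natCast_atTop_atTop

theorem log_zz {n : ℕ} (hn : 1 ≤ n) : Real.log (zz n) = Real.log n / 16 := by
  unfold zz
  rw [Real.log_rpow (by exact_mod_cast hn)]
  ring

theorem el_le (δ : ℝ) (hδ : 0 < δ) : ∀ᶠ n : ℕ in atTop, el n ≤ δ * zz n := by
  have h2 := Real.isLittleO_log_id_atTop.bound (c := δ / 32) (by positivity)
  filter_upwards [zz_tendsto.eventually h2, zz_tendsto.eventually_ge_atTop (2 / δ),
    zz_tendsto.eventually_ge_atTop 1, eventually_ge_atTop 1] with n h3 h4 h5 h6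
  have hlog2 : Real.log 2 ≤ 1 := by
    have := Real.log_two_lt_d9; linarith
  have hn : (1 : ℝ) ≤ n := by exact_mod_cast h6
  have h7 : el n = Real.log 2 + Real.log n := by
    unfold el
    rw [Real.log_mul (by norm_num) (by positivity)]
  rw [log_zz h6, Real.norm_eq_abs, Real.norm_eq_abs, id, abs_of_nonneg (show 0 ≤ zz n by linarith)] at h3
  have h8 := (le_abs_self _).trans h3
  rw [div_le_iff₀ hδ] at h4
  rw [h7]
  nlinarith

theorem el_ge : ∀ᶠ n : ℕ in atTop, 1 ≤ el n := by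
  have h1 : Tendsto (fun n : ℕ => Real.log (2 * n)) atTop atTop :=
    Real.tendsto_log_atTop.comp (tendsto_natCast_atTop_atTop.const_mul_atTop (by norm_num))
  exact h1.eventually_ge_atTop 1

/-- basic numerical facts, valid for large `n` -/
structure Num (n : ℕ) : Prop where
  z1 : 1 ≤ zz n
  l1 : 1 ≤ el n
  lz : 10000 * el n ≤ zz n
  L1 : 1 ≤ LL n
  Ll : (LL n : ℝ) ≤ el n
  n1 : 1 ≤ n

theorem num_ev : ∀ᶠ n : ℕ in atTop, Num n := by
  filter_upwards [zz_tendsto.eventually_ge_atTop 1, el_ge, el_le (1 / 10000) (by norm_num),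
    LL_tendsto.eventually_ge_atTop 1, xx_tendsto.eventually_ge_atTop 1, eventually_ge_atTop 1]
    with n h1 h2 h3 h4 h5 h6
  refine ⟨h1, h2, by linarith, h4, ?_, h6⟩
  have h7 : (LL n : ℝ) ≤ xx n := Nat.floor_le (by linarith)
  have h8 : xx n ≤ xx n ^ 2 := by nlinarith
  rw [xx_sq h6] at h8
  have hn : (1 : ℝ) ≤ n := by exact_mod_cast h6
  have h9 : Real.log n ≤ el n := by
    unfold el
    exact Real.log_le_log (by linarith) (by linarith)
  linarith

section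

variable {n : ℕ} (h : Num n)

include h

theorem kk_ge : 16 * el n ≤ kk n := Nat.le_ceil _

theorem kk_le : (kk n : ℝ) ≤ 17 * el n := by
  have := (Nat.ceil_lt_add_one (show 0 ≤ 16 * el n by linarith [h.l1])).le
  unfold kk
  linarith [h.l1]

theorem kk_pos : 0 < kk n := by
  have h1 := kk_ge h
  have h2 := h.l1
  have : (0 : ℝ) < kk n := by linarith
  exact_mod_cast this

theorem HH_le : (HH n : ℝ) ≤ zz n ^ 12 := Nat.floor_le (by have := h.z1; positivity)

theorem HH_ge : zz n ^ 12 ≤ (HH n : ℝ) + 1 := (Nat.lt_floor_add_one _).le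

theorem z12 : 1 ≤ zz n ^ 12 := one_le_pow₀ h.z1

theorem H2_ge : zz n ^ 12 ≤ 2 * (HH n : ℝ) + 1 := by
  have h1 := HH_ge h
  have h2 := z12 h
  linarith

theorem H2_le : 2 * (HH n : ℝ) + 1 ≤ 3 * zz n ^ 12 := by
  have h1 := HH_le h
  have h2 := z12 h
  linarith

theorem H2_lt : 2 * HH n + 1 ≤ n := by
  have h1 := H2_le h
  have h2 := z12 h
  have h3 : zz n ^ 16 = zz n ^ 12 * zz n ^ 4 := by ring
  have h4 : 3 ≤ zz n ^ 4 := by
    have h5 : 3 ≤ zz n := by linarith [h.lz, h.l1]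
    calc (3 : ℝ) ≤ zz n := h5
      _ ≤ zz n ^ 4 := le_self_pow₀ h.z1 (by norm_num)
  have h5 : (2 * (HH n : ℝ) + 1) ≤ n := by
    rw [← zz_pow (n := n), h3]
    nlinarith
  exact_mod_cast h5

theorem KK_pos : 0 < (kk n * (2 * HH n + 1 : ℕ) : ℝ) := by
  have := kk_pos h
  positivity

theorem LL_pos' : (0 : ℝ) < LL n := by exact_mod_cast h.L1

theorem mm_ge : (kk n * (2 * HH n + 1 : ℕ) : ℝ) / LL n ≤ mm n := Nat.le_ceil _

theorem mm_le : (mm n : ℝ) ≤ (kk n * (2 * HH n + 1 : ℕ) : ℝ) / LL n + 1 := by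
  refine (Nat.ceil_lt_add_one ?_).le
  exact div_nonneg (KK_pos h).le (LL_pos' h).le

theorem mm_le' : (mm n : ℝ) ≤ (kk n * (2 * HH n + 1 : ℕ) : ℝ) + 1 := by
  have h1 : (kk n * (2 * HH n + 1 : ℕ) : ℝ) / LL n ≤ kk n * (2 * HH n + 1 : ℕ) := by
    refine div_le_self (KK_pos h).le ?_
    exact_mod_cast h.L1
  linarith [mm_le h]

theorem mm_pos : 0 < mm n := by
  have h1 := mm_ge h
  have h2 : 0 < (kk n * (2 * HH n + 1 : ℕ) : ℝ) / LL n := div_pos (KK_pos h) (LL_pos' h)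
  have : (0 : ℝ) < mm n := by linarith
  exact_mod_cast this

theorem KK_le : (kk n * (2 * HH n + 1 : ℕ) : ℝ) ≤ 51 * (el n * zz n ^ 12) := by
  have h1 := kk_le h
  have h2 := H2_le h
  have h3 := h.l1
  push_cast
  calc (kk n : ℝ) * (2 * HH n + 1) ≤ (17 * el n) * (3 * zz n ^ 12) :=
        mul_le_mul h1 h2 (by positivity) (by linarith)
    _ = _ := by ring

theorem KK_ge : 16 * (el n * zz n ^ 12) ≤ (kk n * (2 * HH n + 1 : ℕ) : ℝ) := by
  have h1 := kk_ge h
  have h2 := H2_ge h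
  have h3 := h.l1
  have h4 := z12 h
  push_cast
  calc 16 * (el n * zz n ^ 12) = (16 * el n) * zz n ^ 12 := by ring
    _ ≤ (kk n : ℝ) * (2 * HH n + 1) := mul_le_mul h1 h2 (by linarith) (by positivity)

/-- size condition for the `A`-directions -/
theorem E1 : ((4 * HH n + 1 : ℕ) : ℝ) + 2 * (4 * HH n + 1 : ℕ) + 2 * kk n * (4 * HH n + 1 : ℕ) ≤
    (1 / 2 : ℝ) / 16 * n := by
  have h1 := kk_le h
  have h2 := HH_le h
  have h3 := h.l1
  have h4 := z12 h
  have h5 := h.lz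
  have h6 : ((4 * HH n + 1 : ℕ) : ℝ) ≤ 5 * zz n ^ 12 := by push_cast; linarith
  have h7 : (0 : ℝ) ≤ ((4 * HH n + 1 : ℕ) : ℝ) := Nat.cast_nonneg _
  have e : (n : ℝ) = zz n ^ 12 * zz n ^ 4 := by rw [← zz_pow (n := n)]; ring
  have h8 : zz n ≤ zz n ^ 4 := le_self_pow₀ h.z1 (by norm_num)
  calc ((4 * HH n + 1 : ℕ) : ℝ) + 2 * (4 * HH n + 1 : ℕ) + 2 * kk n * (4 * HH n + 1 : ℕ)
      = (3 + 2 * kk n) * (4 * HH n + 1 : ℕ) := by ring
    _ ≤ (37 * el n) * (5 * zz n ^ 12) := by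
        refine mul_le_mul (by linarith) h6 h7 (by linarith)
    _ = zz n ^ 12 * (185 * el n) := by ring
    _ ≤ zz n ^ 12 * (zz n ^ 4 / 32) := by
        refine mul_le_mul_of_nonneg_left ?_ (by linarith)
        linarith
    _ = _ := by rw [e]; ring

theorem E2 : Real.log (2 * n) ≤ kk n * ((1 / 2 : ℝ) ^ 2 / 4) := by
  have := kk_ge h
  unfold el at this
  linarith

/-- size condition for the `B`-directions -/
theorem E3 : ((2 * kk n * (2 * HH n + 1) + 1 : ℕ) : ℝ) + 2 * (1 : ℕ) + 2 * mm n * (1 : ℕ) ≤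
    bl n / 16 * n := by
  have h1 := KK_le h
  have h2 := mm_le' h
  have h3 := h.l1
  have h4 := z12 h
  have h5 := h.lz
  have h6 : 1 ≤ el n * zz n ^ 12 := by nlinarith
  have hz : 0 < zz n := by linarith [h.z1]
  have e : bl n / 16 * n = zz n ^ 12 * zz n / 16 := by
    rw [← zz_pow (n := n)]
    unfold bl
    field_simp
  rw [e]
  push_cast at h1 h2 ⊢
  calc (2 * (kk n : ℝ) * (2 * HH n + 1) + 1) + 2 * 1 + 2 * mm n * 1
      ≤ 4 * ((kk n : ℝ) * (2 * HH n + 1)) + 5 := by linarith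
    _ ≤ 4 * (51 * (el n * zz n ^ 12)) + 5 * (el n * zz n ^ 12) := by linarith
    _ = zz n ^ 12 * (209 * el n) := by ring
    _ ≤ zz n ^ 12 * (zz n / 16) := by
        refine mul_le_mul_of_nonneg_left ?_ (by linarith)
        linarith
    _ = _ := by ring

theorem E4 : Real.log (2 * n) ≤ mm n * (bl n ^ 2 / 4) := by
  have h1 := KK_ge h
  have h2 := mm_ge h
  have h3 := h.l1
  have h5 := h.lz
  have hz : 0 < zz n := by linarith [h.z1]
  have hL := LL_pos' h
  have h6 : (LL n : ℝ) ≤ 4 * zz n ^ 6 := by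
    have h7 : zz n ≤ zz n ^ 6 := le_self_pow₀ h.z1 (by norm_num)
    have := h.Ll
    nlinarith
  have h7 : 16 * (el n * zz n ^ 12) / LL n ≤ mm n :=
    (div_le_div_of_nonneg_right h1 hL.le).trans h2
  have e : bl n ^ 2 / 4 = 1 / (4 * zz n ^ 6) := by
    unfold bl
    field_simp
    try ring
  change el n ≤ _
  rw [e]
  calc el n = (16 * (el n * zz n ^ 12) / (4 * zz n ^ 6)) * (1 / (4 * zz n ^ 6)) := by
        field_simp
        try ring
    _ ≤ (16 * (el n * zz n ^ 12) / LL n) * (1 / (4 * zz n ^ 6)) := by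
        refine mul_le_mul_of_nonneg_right ?_ (by positivity)
        exact div_le_div_of_nonneg_left (by positivity) hL h6
    _ ≤ _ := mul_le_mul_of_nonneg_right h7 (by positivity)

theorem pp_eq : pp n = (mm n : ℝ) / ((kk n * (2 * HH n + 1 : ℕ) : ℝ) + mm n) := by
  unfold pp
  have h1 := KK_pos h
  have h2 : (0 : ℝ) ≤ mm n := Nat.cast_nonneg _
  push_cast at h1 ⊢
  have h3 : (0 : ℝ) < kk n * (2 * HH n + 1) + mm n := by linarith
  rw [div_eq_div_iff (by nlinarith) h3.ne']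
  ring

theorem pp_pos : 0 < pp n := by
  rw [pp_eq h]
  have h1 := KK_pos h
  have h2 : (0 : ℝ) < mm n := by exact_mod_cast mm_pos h
  positivity

theorem pp_le : pp n ≤ 2 / LL n := by
  rw [pp_eq h]
  have h1 := KK_pos h
  have h2 : (0 : ℝ) < mm n := by exact_mod_cast mm_pos h
  have h3 := mm_le h
  have hL := LL_pos' h
  have h4 : (1 : ℝ) ≤ (kk n * (2 * HH n + 1 : ℕ) : ℝ) / LL n := by
    rw [le_div_iff₀ hL, one_mul]
    have h5 := KK_ge h
    have h6 := h.Ll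
    have h7 := z12 h
    have h8 := h.l1
    nlinarith
  rw [div_le_div_iff₀ (by positivity) hL]
  have h5 : (mm n : ℝ) ≤ 2 * ((kk n * (2 * HH n + 1 : ℕ) : ℝ) / LL n) := by linarith
  have h6 : (mm n : ℝ) * LL n ≤ 2 * (kk n * (2 * HH n + 1 : ℕ) : ℝ) := by
    calc (mm n : ℝ) * LL n ≤ 2 * ((kk n * (2 * HH n + 1 : ℕ) : ℝ) / LL n) * LL n :=
          mul_le_mul_of_nonneg_right h5 hL.le
      _ = _ := by field_simp
  linarith

theorem pp_ge : 1 / (2 * LL n : ℝ) ≤ pp n := by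
  rw [pp_eq h]
  have h1 := KK_pos h
  have h2 : (0 : ℝ) < mm n := by exact_mod_cast mm_pos h
  have h3 := mm_ge h
  have hL := LL_pos' h
  have hL1 : (1 : ℝ) ≤ LL n := by exact_mod_cast h.L1
  rw [div_le_iff₀ hL] at h3
  rw [div_le_div_iff₀ (by positivity) (by positivity)]
  nlinarith

theorem pp_le_half (h4 : 4 ≤ LL n) : pp n ≤ 1 / 2 := by
  refine (pp_le h).trans ?_
  have : (4 : ℝ) ≤ LL n := by exact_mod_cast h4
  rw [div_le_iff₀ (by linarith)]
  linarith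

end

end

end Pool.Agent.TH977.Cyc
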