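import Pool.Agent.TH977.Cyc.CircSets

open Finset Filter Topology

set_option linter.unusedSectionVars false

namespace Pool.Agent.TH977.Cyc

noncomputable section

theorem pp_tendsto : Tendsto (fun n => pp n / 2) atTop (𝓝 0) := by
  have h1 : Tendsto (fun n => 1 / (LL n : ℝ)) atTop (𝓝 0) :=
    tendsto_one_div_atTop_nhds_zero_nat.comp LL_tendsto
  refine squeeze_zero' ?_ ?_ h1
  · filter_upwards [num_ev] with n h
    have := pp_pos h
    positivity
  · filter_upwards [num_ev] with n h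
    have := pp_le h
    have e : 2 / (LL n : ℝ) / 2 = 1 / LL n := by ring
    rw [← e]
    exact div_le_div_of_nonneg_right this (by norm_num)

theorem pp_ev_pos : ∀ᶠ n in atTop, 0 < pp n / 2 := by
  filter_upwards [num_ev] with n h
  have := pp_pos h
  positivity

/-- time scale -/
def tt (c : ℝ) (n : ℕ) : ℕ := ⌊c / (pp n / 2)⌋₊

theorem tt_tendsto {c : ℝ} (hc : 0 < c) : Tendsto (tt c) atTop atTop := by
  refine tendsto_nat_floor_atTop.comp ?_
  have h1 : Tendsto (fun n => (pp n / 2)⁻¹) atTop atTop := by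
    refine tendsto_inv_nhdsGT_zero.comp ?_
    rw [tendsto_nhdsWithin_iff]
    exact ⟨pp_tendsto, pp_ev_pos⟩
  exact h1.const_mul_atTop hc

theorem tt_le {c : ℝ} (hc : 0 < c) {n : ℕ} (h : Num n) : (tt c n : ℝ) ≤ 4 * c * LL n := by
  have h1 := pp_pos h
  have h2 := pp_ge h
  have hL := LL_pos' h
  refine (Nat.floor_le (by positivity)).trans ?_
  rw [div_le_iff₀ (by positivity)]
  have h3 : 1 ≤ pp n * (2 * LL n) := by
    rw [div_le_iff₀ (by positivity)] at h2
    exact h2
  calc c = 2 * c * (1 / 2) * 1 := by ring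
    _ ≤ 2 * c * (1 / 2) * (pp n * (2 * LL n)) := mul_le_mul_of_nonneg_left h3 (by positivity)
    _ = 2 * c * LL n * pp n / 1 := by ring
    _ ≤ _ := by
        have : 0 ≤ 2 * c * LL n * pp n := by positivity
        linarith

theorem low_err {c : ℝ} (hc : 0 < c) : ∀ᶠ n in atTop,
    (35 * el n) ^ tt c n * ((2 * tt c n + 1) * zz n ^ 12) / n ≤ 1 / zz n := by
  filter_upwards [num_ev, ww_le (1 / (256 * c)) (by positivity),
    xx_tendsto.eventually_ge_atTop (3 * (256 * c)), el_le (1 / (16 * c)) (by positivity),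
    zz_tendsto.eventually_ge_atTop 2, xx_tendsto.eventually_ge_atTop 0] with n h h1 h2 h3 h4 h5
  have hz : 0 < zz n := by linarith
  have hl := h.l1
  have ht := tt_le hc h
  set t := tt c n with htd
  have ht0 : (0 : ℝ) ≤ t := Nat.cast_nonneg _
  have hLx : (LL n : ℝ) ≤ xx n := Nat.floor_le h5
  have htx : (t : ℝ) ≤ 4 * c * xx n := ht.trans (mul_le_mul_of_nonneg_left hLx (by positivity))
  have hte : (t : ℝ) ≤ 4 * c * el n := ht.trans (mul_le_mul_of_nonneg_left h.Ll (by positivity))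
  -- the power
  have e1 : Real.log (35 * el n) ≤ ww n + 3 := by
    have e2 : 35 * el n = 17.5 * (2 * el n) := by ring
    rw [e2, Real.log_mul (by norm_num) (by positivity)]
    have e3 : Real.log 17.5 ≤ 3 := by
      rw [Real.log_le_iff_le_exp (by norm_num)]
      have h6 := Real.exp_one_gt_d9
      have e4 : Real.exp 3 = Real.exp 1 ^ 3 := by rw [← Real.exp_nat_mul]; norm_num
      rw [e4]
      calc (17.5 : ℝ) ≤ 2.7 ^ 3 := by norm_num
        _ ≤ Real.exp 1 ^ 3 := pow_le_pow_left₀ (by norm_num) (by linarith) 3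
    have e5 : ww n = Real.log (2 * el n) := rfl
    rw [e5]
    linarith
  have e6 : 3 ≤ 1 / (256 * c) * xx n := by
    rw [one_div, inv_mul_eq_div, le_div_iff₀ (by positivity)]
    exact h2
  have e7 : Real.log (35 * el n) ≤ 1 / (128 * c) * xx n := by
    calc Real.log (35 * el n) ≤ 1 / (256 * c) * xx n + 1 / (256 * c) * xx n := by linarith
      _ = _ := by field_simp; ring
  have hlog0 : 0 ≤ Real.log (35 * el n) := Real.log_nonneg (by linarith)
  have e8 : (35 * el n) ^ t ≤ zz n := by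
    have e9 : (35 * el n) ^ t = Real.exp (t * Real.log (35 * el n)) := by
      rw [Real.exp_nat_mul, Real.exp_log (by positivity)]
    have e10 : zz n = Real.exp (Real.log n / 16) := by
      rw [← log_zz h.n1, Real.exp_log hz]
    rw [e9, e10]
    apply Real.exp_le_exp.mpr
    calc (t : ℝ) * Real.log (35 * el n) ≤ (4 * c * xx n) * (1 / (128 * c) * xx n) :=
          mul_le_mul htx e7 hlog0 (by positivity)
      _ = xx n ^ 2 / 32 := by field_simp; ring
      _ ≤ Real.log n / 16 := by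
          rw [xx_sq h.n1]
          have : 0 ≤ Real.log n := Real.log_nonneg (by exact_mod_cast h.n1)
          linarith
  have e11 : (2 * t + 1 : ℝ) ≤ zz n := by
    have e12 : 8 * c * el n ≤ zz n / 2 := by
      calc 8 * c * el n ≤ 8 * c * (1 / (16 * c) * zz n) :=
            mul_le_mul_of_nonneg_left h3 (by positivity)
        _ = zz n / 2 := by field_simp; ring
    linarith
  have e13 : (n : ℝ) = zz n ^ 16 := zz_pow.symm
  rw [e13]
  calc (35 * el n) ^ t * ((2 * t + 1) * zz n ^ 12) / zz n ^ 16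
      ≤ zz n * (zz n * zz n ^ 12) / zz n ^ 16 := by gcongr
    _ = 1 / zz n ^ 2 := by field_simp
    _ ≤ 1 / zz n := by
        apply one_div_le_one_div_of_le hz
        nlinarith

theorem profile (n : ℕ → ℕ) [∀ k, NeZero (n k)] (hn : Tendsto n atTop atTop)
    (A B U : ∀ k, Finset (ZMod (n k)))
    (hg : ∀ᶠ k in atTop, GoodSets (n k) (A k) (B k) (U k)) {c : ℝ} (hc : 0 < c) :
    Tendsto (fun k => tv (cpow (lz (A k ∪ B k)) ⌊c / (pp (n k) / 2)⌋₊)) atTop
      (𝓝 (Real.exp (-c))) := by
  have hq : Tendsto (fun k => pp (n k) / 2) atTop (𝓝 0) := pp_tendsto.comp hn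
  have hq0 : ∀ᶠ k in atTop, 0 < pp (n k) / 2 := hn.eventually pp_ev_pos
  have hp := pow_floor_tendsto _ hq0 hq hc.le
  have hnum : ∀ᶠ k in atTop, Num (n k) := hn.eventually num_ev
  have hz : Tendsto (fun k => 1 / zz (n k)) atTop (𝓝 0) := by
    have : Tendsto (fun k => (zz (n k))⁻¹) atTop (𝓝 0) :=
      tendsto_inv_atTop_zero.comp (zz_tendsto.comp hn)
    simpa [one_div] using this
  have ht : Tendsto (fun k => tt c (n k)) atTop atTop := (tt_tendsto hc).comp hn
  have hg1 : Tendsto (fun k => ((3 : ℝ) / 4) ^ tt c (n k)) atTop (𝓝 0) :=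
    (tendsto_pow_atTop_nhds_zero_of_lt_one (by norm_num) (by norm_num)).comp ht
  have hg2 : Tendsto (fun k => ((1 : ℝ) / 2) ^ tt c (n k)) atTop (𝓝 0) :=
    (tendsto_pow_atTop_nhds_zero_of_lt_one (by norm_num) (by norm_num)).comp ht
  have hup : Tendsto (fun k => (1 - pp (n k) / 2) ^ ⌊c / (pp (n k) / 2)⌋₊ +
      ((3 : ℝ) / 4) ^ tt c (n k) + ((1 : ℝ) / 2) ^ tt c (n k) + 1 / zz (n k)) atTop
      (𝓝 (Real.exp (-c))) := by
    have := ((hp.add hg1).add hg2).add hz
    simpa using this
  have hlow : Tendsto (fun k => (1 - pp (n k) / 2) ^ ⌊c / (pp (n k) / 2)⌋₊ - 1 / zz (n k)) atTop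
      (𝓝 (Real.exp (-c))) := by
    have := hp.sub hz
    simpa using this
  refine tendsto_of_tendsto_of_tendsto_of_le_of_le' hlow hup ?_ ?_
  · filter_upwards [hnum, hg, hn.eventually (low_err hc)] with k h1 h2 h3
    have h4 := lower h1 h2 (tt c (n k))
    unfold tt at h4 h3
    linarith
  · filter_upwards [hnum, hg, (LL_tendsto.comp hn).eventually_ge_atTop 4] with k h1 h2 h3
    have h4 := upper h1 h2 (tt c (n k))
    have h5 := pp_le_half h1 h3
    have h6 : (1 / 2 + pp (n k) / 2) ^ tt c (n k) ≤ ((3 : ℝ) / 4) ^ tt c (n k) := by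
      refine pow_le_pow_left₀ ?_ (by linarith) _
      have := pp_pos h1
      positivity
    unfold tt at h4 h6 ⊢
    linarith

end

end Pool.Agent.TH977.Cyc
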