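import Pool.Agent.TH977.Cyc.Circ

open Finset Filter Topology

set_option linter.unusedSectionVars false

namespace Pool.Agent.TH977.Cyc

noncomputable section

/-- the structure of the step set -/
structure GoodSets (n : ℕ) [NeZero n] (A B U : Finset (ZMod n)) : Prop where
  zeroA : 0 ∉ A
  zeroB : 0 ∉ B
  negA : ∀ x ∈ A, -x ∈ A
  negB : ∀ x ∈ B, -x ∈ B
  disj : Disjoint A B
  cardA : A.card = 2 * kk n * (2 * HH n + 1)
  cardB : B.card = 2 * mm n
  FA : ∀ j, j ≠ 0 → ‖F (uo A) j‖ ≤ 1 / 2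
  FB : ∀ j, j ≠ 0 → ‖F (uo B) j‖ ≤ bl n
  cardU : U.card ≤ 2 * kk n + 1
  zeroU : 0 ∈ U
  AU : ∀ x ∈ A, ∃ u ∈ U, x - u ∈ (J (HH n) : Finset (ZMod n))

theorem exists_sets {n : ℕ} [NeZero n] (h : Num n) : ∃ A B U, GoodSets n A B U := by
  classical
  have hz : 0 < zz n := by linarith [h.z1]
  set W : Finset (ZMod n) := J (2 * HH n) with hW
  have hWc : (W.card : ℝ) ≤ (4 * HH n + 1 : ℕ) := by
    have := card_J_le (n := n) (2 * HH n)
    have h2 : W.card ≤ 4 * HH n + 1 := by rw [hW]; omega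
    exact_mod_cast h2
  have hk0 := kk_pos h
  have hm0 := mm_pos h
  obtain ⟨a, ha1, ha2, ha3⟩ := exists_separated (lam := 1 / 2) (by norm_num) (by norm_num) W W
    (fun w hw => neg_mem_J hw) (kk n) (by
      refine le_trans ?_ (E1 h)
      have : (0 : ℝ) ≤ kk n := Nat.cast_nonneg _
      gcongr) (E2 h)
  have hsub : ∀ x ∈ (J (HH n) : Finset (ZMod n)), ∀ y ∈ (J (HH n) : Finset (ZMod n)),
      x - y ∈ W := by
    intro x hx y hy
    have := sub_mem_J hx hy
    rwa [← two_mul] at this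
  have hsepA : Sep a (J (HH n)) := by
    refine ⟨fun i x hx y hy e => ?_, fun i j hij x hx y hy e => ?_, fun i j hij x hx y hy e => ?_⟩
    · exact (ha1 i).2 (by rw [e]; exact hsub x hx y hy)
    · exact (ha2 i j hij).1 (by rw [e]; exact hsub x hx y hy)
    · exact (ha2 i j hij).2 (by rw [e]; exact hsub x hx y hy)
  have hJne : (J (HH n) : Finset (ZMod n)).Nonempty := ⟨0, zero_mem_J _⟩
  set A := tr a (J (HH n)) with hA
  have hAcard : A.card = 2 * kk n * (2 * HH n + 1) := by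
    rw [hA, card_tr hk0 hJne hsepA, card_J (H2_lt h)]
  have hA0 : (0 : ZMod n) ∉ A := by
    intro h0
    obtain ⟨i, hi⟩ := mem_tr.mp h0
    have h1 : a i ∈ (J (HH n) : Finset (ZMod n)) := by
      rcases hi with hi | hi
      · rw [zero_sub] at hi
        have := neg_mem_J hi
        rwa [neg_neg] at this
      · rwa [zero_add] at hi
    have h2 := hsub _ h1 0 (zero_mem_J _)
    rw [sub_zero] at h2
    exact (ha1 i).1 h2
  have hAneg : ∀ x ∈ A, -x ∈ A := fun x hx => neg_mem_tr (fun y hy => neg_mem_J hy) hx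
  have hFA : ∀ j, j ≠ 0 → ‖F (uo A) j‖ ≤ 1 / 2 := by
    intro j hj
    rw [hA, ← conv_nu_uo hk0 hJne hsepA, F_conv, norm_mul]
    have h1 := norm_F_nu hk0 (ha3 j hj)
    have h2 : ‖F (uo (J (HH n) : Finset (ZMod n))) j‖ ≤ 1 := by
      refine (norm_F_le _ j).trans (le_of_eq ?_)
      rw [← sum_uo hJne]
      exact Finset.sum_congr rfl fun x _ => abs_of_nonneg (uo_nonneg _ _)
    calc _ ≤ 1 / 2 * 1 := mul_le_mul h1 h2 (norm_nonneg _) (by norm_num)
      _ = 1 / 2 := by norm_num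
  -- the `B`-directions
  have hbl0 : 0 < bl n := by unfold bl; positivity
  have hbl2 : bl n ≤ 2 := by
    have h1 : 1 ≤ zz n ^ 3 := one_le_pow₀ h.z1
    have : bl n ≤ 1 := inv_le_one_of_one_le₀ h1
    linarith
  obtain ⟨b, hb1, hb2, hb3⟩ := exists_separated (lam := bl n) hbl0 hbl2 {0} (insert 0 A)
    (fun w hw => by rw [Finset.mem_singleton] at hw ⊢; rw [hw, neg_zero]) (mm n) (by
      refine le_trans ?_ (E3 h)
      rw [Finset.card_singleton, Finset.card_insert_of_notMem hA0, hAcard]) (E4 h)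
  have hsepB : Sep b {0} := by
    refine ⟨fun i x hx y hy e => ?_, fun i j hij x hx y hy e => ?_, fun i j hij x hx y hy e => ?_⟩
    all_goals
      rw [Finset.mem_singleton] at hx hy
      rw [hx, hy, sub_zero] at e
    · exact (hb1 i).2 (by rw [e, Finset.mem_singleton])
    · exact (hb2 i j hij).1 (by rw [e, Finset.mem_singleton])
    · exact (hb2 i j hij).2 (by rw [e, Finset.mem_singleton])
  have h0ne : ({0} : Finset (ZMod n)).Nonempty := ⟨0, Finset.mem_singleton_self 0⟩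
  set B := tr b {0} with hB
  have hBcard : B.card = 2 * mm n := by
    rw [hB, card_tr hm0 h0ne hsepB, Finset.card_singleton, mul_one]
  have hBneg : ∀ x ∈ B, -x ∈ B := fun x hx => neg_mem_tr (fun y hy => by
    rw [Finset.mem_singleton] at hy ⊢; rw [hy, neg_zero]) hx
  have hBmem : ∀ x ∈ B, ∃ i, x = b i ∨ x = -b i := by
    intro x hx
    obtain ⟨i, hi⟩ := mem_tr.mp hx
    refine ⟨i, ?_⟩
    rcases hi with hi | hi
    · rw [Finset.mem_singleton] at hi
      exact Or.inl (sub_eq_zero.mp hi)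
    · rw [Finset.mem_singleton] at hi
      exact Or.inr (eq_neg_of_add_eq_zero_left hi)
  have hB0 : (0 : ZMod n) ∉ B := by
    intro h0
    obtain ⟨i, hi⟩ := hBmem 0 h0
    have h1 : b i = 0 := by
      rcases hi with hi | hi
      · exact hi.symm
      · exact neg_eq_zero.mp hi.symm
    exact (hb1 i).1 (by rw [h1]; exact Finset.mem_insert_self _ _)
  have hdisj : Disjoint A B := by
    rw [Finset.disjoint_left]
    intro x hxA hxB
    obtain ⟨i, hi⟩ := hBmem x hxB
    have h1 : b i ∈ A := by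
      rcases hi with hi | hi
      · rwa [hi] at hxA
      · have := hAneg x hxA
        rwa [hi, neg_neg] at this
    exact (hb1 i).1 (Finset.mem_insert_of_mem h1)
  have hFB : ∀ j, j ≠ 0 → ‖F (uo B) j‖ ≤ bl n := by
    intro j hj
    rw [hB, ← conv_nu_uo hm0 h0ne hsepB, F_conv, uo_zero, F_dl, mul_one]
    exact norm_F_nu hm0 (hb3 j hj)
  refine ⟨A, B, insert 0 (supp a), hA0, hB0, hAneg, hBneg, hdisj, hAcard, hBcard, hFA, hFB, ?_,
    Finset.mem_insert_self _ _, ?_⟩
  · refine (Finset.card_insert_le _ _).trans ?_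
    have := card_supp a
    omega
  · intro x hx
    obtain ⟨i, hi⟩ := mem_tr.mp hx
    rcases hi with hi | hi
    · exact ⟨a i, Finset.mem_insert_of_mem (Finset.mem_union_left _
        (Finset.mem_image_of_mem a (Finset.mem_univ i))), hi⟩
    · refine ⟨-a i, Finset.mem_insert_of_mem (Finset.mem_union_right _
        (Finset.mem_image_of_mem (fun i => -a i) (Finset.mem_univ i))), ?_⟩
      rwa [sub_neg_eq_add]

section

variable {n : ℕ} [NeZero n] {A B U : Finset (ZMod n)}

/-- the step law of the lazy walk -/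
def lz (S : Finset (ZMod n)) : ZMod n → ℝ := (1 / 2 : ℝ) • dl + (1 / 2 : ℝ) • uo S

theorem lz_nonneg (S : Finset (ZMod n)) (x : ZMod n) : 0 ≤ lz S x :=
  add_nonneg (mul_nonneg (by norm_num) (dl_nonneg x)) (mul_nonneg (by norm_num) (uo_nonneg S x))

theorem lz_sum {S : Finset (ZMod n)} (hS : S.Nonempty) : ∑ x, lz S x = 1 := by
  unfold lz
  simp only [Pi.add_apply, Pi.smul_apply, smul_eq_mul, Finset.sum_add_distrib, ← Finset.mul_sum,
    sum_dl, sum_uo hS]
  norm_num

variable (h : Num n) (g : GoodSets n A B U)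

include h g

theorem ne_A : A.Nonempty := by
  rw [← Finset.card_pos, g.cardA]
  have := kk_pos h
  positivity

theorem ne_B : B.Nonempty := by
  rw [← Finset.card_pos, g.cardB]
  have := mm_pos h
  positivity

theorem pp_card : (B.card : ℝ) / (A.card + B.card) = pp n := by
  rw [g.cardA, g.cardB]
  rfl

theorem pp_le_one : pp n ≤ 1 := by
  rw [← pp_card h g]
  have h1 : (0 : ℝ) ≤ A.card := Nat.cast_nonneg _
  have h2 : (0 : ℝ) < B.card := by exact_mod_cast Finset.card_pos.mpr (ne_B h g)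
  rw [div_le_one (by linarith)]
  linarith

theorem uo_eq : uo (A ∪ B) = (1 - pp n) • uo A + pp n • uo B := by
  rw [uo_union g.disj (ne_A h g) (ne_B h g), pp_card h g]

theorem lz_eq : lz (A ∪ B) = (1 / 2 : ℝ) • dl + ((1 - pp n) / 2) • uo A + (pp n / 2) • uo B := by
  unfold lz
  rw [uo_eq h g]
  funext x
  simp only [Pi.add_apply, Pi.smul_apply, smul_eq_mul]
  ring

theorem bl_le_half : bl n ≤ 1 / 2 := by
  have h1 := h.z1
  have h2 : 2 ≤ zz n := by linarith [h.lz, h.l1]
  have h3 : 2 ≤ zz n ^ 3 := h2.trans (le_self_pow₀ h1 (by norm_num))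
  unfold bl
  rw [one_div]
  exact inv_anti₀ (by norm_num) h3

theorem F_uo_le (j : ZMod n) (hj : j ≠ 0) : ‖F (uo (A ∪ B)) j‖ ≤ 1 / 2 := by
  rw [uo_eq h g, F_add, F_smul, F_smul]
  refine (norm_add_le _ _).trans ?_
  have hp0 := (pp_pos h).le
  have hp1 := pp_le_one h g
  rw [norm_mul, norm_mul, Complex.norm_real, Complex.norm_real, Real.norm_eq_abs,
    Real.norm_eq_abs, abs_of_nonneg hp0, abs_of_nonneg (sub_nonneg.mpr hp1)]
  have h1 := mul_le_mul_of_nonneg_left (g.FA j hj) (sub_nonneg.mpr hp1)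
  have h2 := mul_le_mul_of_nonneg_left ((g.FB j hj).trans (bl_le_half h g)) hp0
  linarith

theorem upper (t : ℕ) : tv (cpow (lz (A ∪ B)) t) ≤
    (1 - pp n / 2) ^ t + (1 / 2 + pp n / 2) ^ t + (1 / 2) ^ t + 1 / zz n := by
  have hp0 := (pp_pos h).le
  have hp1 := pp_le_one h g
  rw [lz_eq h g]
  refine (tv_three_le (lamB := bl n) (uo_nonneg A) (uo_nonneg B) (sum_uo (ne_A h g))
    (sum_uo (ne_B h g)) (by linarith) (by linarith) (by norm_num) (by ring)
    (by unfold bl; have := h.z1; positivity) g.FB t).trans ?_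
  have hz : 0 < zz n := by linarith [h.z1]
  have h1 : √(n : ℝ) = zz n ^ 8 := by
    rw [← zz_pow (n := n), show zz n ^ 16 = (zz n ^ 8) ^ 2 by ring, Real.sqrt_sq (by positivity)]
  have h2 : ∑ x, uo A x ^ 2 ≤ (1 / zz n ^ 6) ^ 2 := by
    rw [sum_uo_sq (ne_A h g), g.cardA]
    have h3 := KK_ge h
    have h4 := h.l1
    have h5 := z12 h
    have h6 : zz n ^ 12 ≤ ((2 * kk n * (2 * HH n + 1) : ℕ) : ℝ) := by
      push_cast at h3 ⊢
      nlinarith
    have e : (1 / zz n ^ 6) ^ 2 = 1 / zz n ^ 12 := by field_simp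
    rw [e]
    exact one_div_le_one_div_of_le (by positivity) h6
  have h3 : √(∑ x, uo A x ^ 2) ≤ 1 / zz n ^ 6 := by
    rw [Real.sqrt_le_left (by positivity)]
    exact h2
  have h4 : 1 / 2 * (√(n : ℝ) * (bl n * √(∑ x, uo A x ^ 2))) ≤ 1 / zz n := by
    rw [h1]
    calc 1 / 2 * (zz n ^ 8 * (bl n * √(∑ x, uo A x ^ 2)))
        ≤ 1 / 2 * (zz n ^ 8 * (bl n * (1 / zz n ^ 6))) := by
          have : 0 < bl n := by unfold bl; positivity
          gcongr
      _ = 1 / 2 * (1 / zz n) := by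
          unfold bl
          field_simp
      _ ≤ 1 / zz n := by
          have : 0 < 1 / zz n := by positivity
          linarith
  have e1 : (1 / 2 : ℝ) + (1 - pp n) / 2 = 1 - pp n / 2 := by ring
  rw [e1]
  linarith

theorem lower (t : ℕ) : (1 - pp n / 2) ^ t -
    (35 * el n) ^ t * ((2 * t + 1) * zz n ^ 12) / n ≤ tv (cpow (lz (A ∪ B)) t) := by
  have hp0 := (pp_pos h).le
  have hp1 := pp_le_one h g
  rw [lz_eq h g]
  refine le_trans ?_ (tv_three_ge (uo_nonneg A) (uo_nonneg B) (sum_uo (ne_A h g))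
    (sum_uo (ne_B h g)) (by linarith) (by linarith) (by norm_num) (by ring) U (HH n) g.zeroU
    (fun x hx => g.AU x (by
      by_contra hcon
      exact hx (by unfold uo; rw [if_neg hcon]))) t)
  have hz : 0 < zz n := by linarith [h.z1]
  have e1 : (1 / 2 : ℝ) + (1 - pp n) / 2 = 1 - pp n / 2 := by ring
  rw [e1]
  have h1 : (U.card : ℝ) ≤ 35 * el n := by
    have h2 : (U.card : ℝ) ≤ 2 * kk n + 1 := by exact_mod_cast g.cardU
    have h3 := kk_le h
    have h4 := h.l1
    linarith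
  have h2 : (2 * (t * HH n : ℕ) + 1 : ℝ) ≤ (2 * t + 1) * zz n ^ 12 := by
    have h3 := HH_le h
    have h4 := z12 h
    have h5 : (0 : ℝ) ≤ t := Nat.cast_nonneg _
    push_cast
    nlinarith
  have h3 : (U.card : ℝ) ^ t * (2 * (t * HH n : ℕ) + 1) / n ≤
      (35 * el n) ^ t * ((2 * t + 1) * zz n ^ 12) / n := by
    refine div_le_div_of_nonneg_right ?_ npos.le
    refine mul_le_mul (pow_le_pow_left₀ (Nat.cast_nonneg _) h1 t) h2 (by positivity) ?_
    have := h.l1
    positivity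
  linarith

end

end

end Pool.Agent.TH977.Cyc
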