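import Pool.Agent.TH977.Cyc.Sub

open Finset Filter Topology

set_option linter.unusedSectionVars false

namespace Pool.Agent.TH977.Cyc

noncomputable section

section one

variable {n : ℕ} [NeZero n]

/-- the kernel of a character -/
def kerChar (j : ZMod n) : AddSubgroup (ZMod n) where
  carrier := {x | (ZMod.stdAddChar (j * x) : ℂ) = 1}
  add_mem' := by
    intro a b ha hb
    simp only [Set.mem_setOf_eq] at ha hb ⊢
    rw [mul_add, AddChar.map_add_eq_mul, ha, hb, one_mul]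
  zero_mem' := by simp
  neg_mem' := by
    intro a ha
    simp only [Set.mem_setOf_eq] at ha ⊢
    rw [mul_neg, ← conj_char, ha]
    simp

theorem kerChar_eq_top {j : ZMod n} (h : kerChar j = ⊤) : j = 0 := by
  by_contra hj
  have h1 := sum_char j
  rw [if_neg hj] at h1
  have h2 : ∀ x : ZMod n, (ZMod.stdAddChar (j * x) : ℂ) = 1 := by
    intro x
    have : x ∈ kerChar j := by rw [h]; trivial
    exact this
  simp only [h2, Finset.sum_const, card_univ, ZMod.card, nsmul_eq_mul, mul_one] at h1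
  have := npos (n := n)
  have h3 : (n : ℂ) ≠ 0 := by exact_mod_cast this.ne'
  exact h3 h1

theorem norm_F_lt_one {ν : ZMod n → ℝ} (h0 : ∀ x, 0 ≤ ν x) (h1 : ∑ x, ν x = 1)
    (hs : ∀ (H : AddSubgroup (ZMod n)) (a : ZMod n), (∀ x, ν x ≠ 0 → x - a ∈ H) → H = ⊤)
    {j : ZMod n} (hj : j ≠ 0) : ‖F ν j‖ < 1 := by
  have hle : ‖F ν j‖ ≤ 1 := by
    have := norm_F_le ν j
    have h2 : ∑ x, |ν x| = 1 := by
      rw [← h1]; exact Finset.sum_congr rfl fun x _ => abs_of_nonneg (h0 x)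
    rwa [h2] at this
  refine lt_of_le_of_ne hle fun heq => hj ?_
  obtain ⟨z, hz⟩ : ∃ z, z = F ν j := ⟨_, rfl⟩
  rw [← hz] at heq
  -- all characters in the support are equal to `z`
  have h3 : ∑ x, ν x * (1 - ((starRingEnd ℂ) z * ZMod.stdAddChar (j * x)).re) = 0 := by
    have h4 : ((starRingEnd ℂ) z * z).re = 1 := by
      rw [mul_comm, Complex.mul_conj, Complex.normSq_eq_norm_sq, heq]; simp
    have h5 : ((starRingEnd ℂ) z * z).re = ∑ x, ν x * ((starRingEnd ℂ) z *
        ZMod.stdAddChar (j * x)).re := by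
      have hz' : (starRingEnd ℂ) z * z = ∑ x, (starRingEnd ℂ) z *
          ((ν x : ℂ) * ZMod.stdAddChar (j * x)) := by
        rw [← Finset.mul_sum]
        congr 1
      rw [hz', Complex.re_sum]
      refine Finset.sum_congr rfl fun x _ => ?_
      have : (starRingEnd ℂ) z * ((ν x : ℂ) * ZMod.stdAddChar (j * x)) =
          (ν x : ℂ) * ((starRingEnd ℂ) z * ZMod.stdAddChar (j * x)) := by ring
      rw [this, Complex.re_ofReal_mul]
    simp only [mul_sub, mul_one, Finset.sum_sub_distrib]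
    rw [h1, ← h5, h4, sub_self]
  have h4 : ∀ x, 0 ≤ ν x * (1 - ((starRingEnd ℂ) z * ZMod.stdAddChar (j * x)).re) := by
    intro x
    refine mul_nonneg (h0 x) ?_
    have h5 := Complex.re_le_norm ((starRingEnd ℂ) z * ZMod.stdAddChar (j * x))
    rw [norm_mul, norm_char, mul_one, RCLike.norm_conj, heq] at h5
    linarith
  have h5 := (Finset.sum_eq_zero_iff_of_nonneg fun x _ => h4 x).mp h3
  have h6 : ∀ x, ν x ≠ 0 → (ZMod.stdAddChar (j * x) : ℂ) = z := by
    intro x hx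
    have h7 := h5 x (Finset.mem_univ x)
    rcases mul_eq_zero.mp h7 with h8 | h8
    · exact absurd h8 hx
    · have h9 : ((starRingEnd ℂ) z * ZMod.stdAddChar (j * x)).re = 1 := by linarith
      have h10 : ‖(starRingEnd ℂ) z * (ZMod.stdAddChar (j * x) : ℂ)‖ = 1 := by
        rw [norm_mul, norm_char, mul_one, RCLike.norm_conj, heq]
      have h11 : (starRingEnd ℂ) z * (ZMod.stdAddChar (j * x) : ℂ) = 1 := by
        apply Complex.ext
        · simpa using h9
        · have h12 := Complex.sq_norm_sub_sq_re ((starRingEnd ℂ) z * (ZMod.stdAddChar (j * x) : ℂ))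
          rw [h10, h9] at h12
          have : ((starRingEnd ℂ) z * (ZMod.stdAddChar (j * x) : ℂ)).im ^ 2 = 0 := by linarith
          simpa using pow_eq_zero_iff (two_ne_zero) |>.mp this
      have h12 : z * (starRingEnd ℂ) z = 1 := by
        rw [Complex.mul_conj, Complex.normSq_eq_norm_sq, heq]; simp
      calc (ZMod.stdAddChar (j * x) : ℂ) = (z * (starRingEnd ℂ) z) * ZMod.stdAddChar (j * x) := by
            rw [h12, one_mul]
        _ = z * ((starRingEnd ℂ) z * ZMod.stdAddChar (j * x)) := by ring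
        _ = z := by rw [h11, mul_one]
  have hex : ∃ a, ν a ≠ 0 := by
    by_contra hcon
    push Not at hcon
    rw [Finset.sum_eq_zero fun x _ => hcon x] at h1
    norm_num at h1
  obtain ⟨a, ha⟩ := hex
  apply kerChar_eq_top
  apply hs _ a
  intro x hx
  change (ZMod.stdAddChar (j * (x - a)) : ℂ) = 1
  have hz0 : z ≠ 0 := by
    intro h; rw [h] at heq; simp at heq
  have h7 : (ZMod.stdAddChar (j * (x - a)) : ℂ) * ZMod.stdAddChar (j * a) =
      ZMod.stdAddChar (j * x) := by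
    rw [← AddChar.map_add_eq_mul]; congr 1; ring
  rw [h6 a ha, h6 x hx] at h7
  exact mul_right_cancel₀ hz0 (h7.trans (one_mul z).symm)

/-- convergence to the uniform law -/
theorem tv_le_spectral {ν : ZMod n → ℝ} {lam : ℝ} (h0 : 0 ≤ lam) (h1 : ∑ x, ν x = 1)
    (hF : ∀ j, j ≠ 0 → ‖F ν j‖ ≤ lam) (t : ℕ) : tv (cpow ν t) ≤ n * lam ^ t := by
  have hn := npos (n := n)
  have hs : ∑ x, (cpow ν t - unif n) x = 0 := by
    simp only [Pi.sub_apply, Finset.sum_sub_distrib, sum_cpow h1, sum_unif, sub_self]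
  have h2 : ∀ j, j ≠ 0 → ‖F (cpow ν t - unif n) j‖ ≤ lam ^ t := by
    intro j hj
    rw [F_sub, F_unif j hj, sub_zero]
    exact norm_F_cpow_le hF t j hj
  have h3 := sum_sq_of_F hs h2 (pow_nonneg h0 t)
  have h4 := l1_le_l2 (cpow ν t - unif n)
  have hn1 : (1 : ℝ) ≤ n := by
    have : 1 ≤ n := Nat.pos_of_ne_zero (NeZero.ne n)
    exact_mod_cast this
  have h5 : (∑ x, |(cpow ν t - unif n) x|) ^ 2 ≤ (n * lam ^ t) ^ 2 := by
    refine h4.trans ?_
    calc (n : ℝ) * ∑ x, (cpow ν t - unif n) x ^ 2 ≤ n * (lam ^ t) ^ 2 :=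
          mul_le_mul_of_nonneg_left h3 hn.le
      _ ≤ (n * lam ^ t) ^ 2 := by
          rw [mul_pow]
          exact mul_le_mul_of_nonneg_right (by nlinarith) (sq_nonneg _)
  have h6 := (abs_le_of_sq_le_sq' h5 (by positivity)).2
  rw [tv_eq]
  have h7 : 0 ≤ (n : ℝ) * lam ^ t := by positivity
  linarith

theorem exists_tv_le {ν : ZMod n → ℝ} {lam : ℝ} (h0 : 0 ≤ lam) (hl : lam < 1)
    (h1 : ∑ x, ν x = 1) (hF : ∀ j, j ≠ 0 → ‖F ν j‖ ≤ lam) {ε : ℝ} (hε : 0 < ε) :
    ∃ t, tv (cpow ν t) ≤ ε := by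
  have hn := npos (n := n)
  obtain ⟨t, ht⟩ := exists_pow_lt_of_lt_one (div_pos hε hn) hl
  refine ⟨t, (tv_le_spectral h0 h1 hF t).trans ?_⟩
  rw [lt_div_iff₀ hn] at ht
  linarith

/-- If some power of the law is positive then the support is not contained in a coset of a
proper subgroup. -/
theorem supp_of_pos {ν : ZMod n → ℝ} (t : ℕ) (ht : ∀ x, cpow ν t x ≠ 0)
    (H : AddSubgroup (ZMod n)) (a : ZMod n) (h : ∀ x, ν x ≠ 0 → x - a ∈ H) : H = ⊤ := by
  have key : ∀ t : ℕ, ∀ x, cpow ν t x ≠ 0 → x - t • a ∈ H := by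
    intro t
    induction t with
    | zero =>
      intro x hx
      have : x = 0 := by
        by_contra hne
        apply hx
        simp [cpow, hne]
      subst this
      simp
    | succ t ih =>
      intro x hx
      rw [cpow, conv] at hx
      obtain ⟨y, _, hy⟩ := Finset.exists_ne_zero_of_sum_ne_zero hx
      have h1 := ih y (left_ne_zero_of_mul hy)
      have h2 := h (x - y) (right_ne_zero_of_mul hy)
      have h3 := H.add_mem h1 h2
      have e : x - (t + 1) • a = y - t • a + (x - y - a) := by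
        rw [add_smul, one_smul]; abel
      rw [e]
      exact h3
  have h0 := key t 0 (ht 0)
  rw [eq_top_iff]
  intro x _
  have h1 := key t x (ht x)
  have e : x = (x - t • a) - (0 - t • a) := by abel
  rw [e]
  exact H.sub_mem h1 h0

theorem cpow_ne_zero_of_tv {ν : ZMod n → ℝ} {t : ℕ} (h : tv (cpow ν t) < 1 / (2 * n)) (x : ZMod n) :
    cpow ν t x ≠ 0 := by
  have hn := npos (n := n)
  intro h0
  have h1 : |cpow ν t x - 1 / (n : ℝ)| ≤ ∑ y, |cpow ν t y - 1 / (n : ℝ)| :=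
    Finset.single_le_sum (f := fun y => |cpow ν t y - 1 / (n : ℝ)|)
      (fun _ _ => abs_nonneg _) (Finset.mem_univ x)
  rw [h0, zero_sub, abs_neg, abs_of_pos (by positivity)] at h1
  unfold tv at h
  have h2 : (1 : ℝ) / (2 * n) = 1 / 2 * (1 / n) := by ring
  rw [h2] at h
  linarith

end one

section seq

variable (n : ℕ → ℕ) [∀ k, NeZero (n k)] (ν : ∀ k, ZMod (n k) → ℝ) (lam : ℕ → ℝ) (T : ℕ → ℕ)

/-- `a k = √(Trel T)` -/
def ak (lam : ℕ → ℝ) (T : ℕ → ℕ) (k : ℕ) : ℝ := √((1 / (1 - lam k)) * T k)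

variable (h0 : ∀ k x, 0 ≤ ν k x) (h1 : ∀ k, ∑ x, ν k x = 1) (hl0 : ∀ k, 0 ≤ lam k)
  (hl1 : ∀ k, lam k < 1) (hF : ∀ k j, j ≠ 0 → ‖F (ν k) j‖ ≤ lam k)
  (hT : ∀ k t, t < T k → 1 / 2 < tv (cpow (ν k) t))
  (hT1 : ∀ᶠ k in atTop, 1 ≤ T k)
  (hprod : Tendsto (fun k => (1 / (1 - lam k)) / T k) atTop (𝓝 0))

include hl0 hl1 in
theorem R_ge (k : ℕ) : 1 ≤ 1 / (1 - lam k) := by
  rw [le_div_iff₀ (by linarith [hl1 k])]
  linarith [hl0 k]

include hl0 hl1 in
theorem lam_pow_le (k s : ℕ) : lam k ^ s ≤ Real.exp (-(s / (1 / (1 - lam k)))) := by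
  have hR := R_ge lam hl0 hl1 k
  have h2 : lam k ≤ Real.exp (-(1 - lam k)) := by
    have := Real.add_one_le_exp (-(1 - lam k)); linarith
  calc lam k ^ s ≤ Real.exp (-(1 - lam k)) ^ s := pow_le_pow_left₀ (hl0 k) h2 s
    _ = Real.exp (-(s / (1 / (1 - lam k)))) := by
      rw [← Real.exp_nat_mul]
      congr 1
      rw [div_div_eq_mul_div, div_one]
      ring

include hT1 hprod hl0 hl1 in
theorem T_tendsto : Tendsto (fun k => (T k : ℝ)) atTop atTop := by
  have h2 : ∀ᶠ k in atTop, (1 / (1 - lam k)) / T k ∈ Set.Ioi (0 : ℝ) := by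
    filter_upwards [hT1] with k hk
    have hR := R_ge lam hl0 hl1 k
    have hk' : (0 : ℝ) < T k := by exact_mod_cast hk
    exact div_pos (by linarith) hk'
  have h3 := (tendsto_nhdsWithin_iff.mpr ⟨hprod, h2⟩).inv_tendsto_nhdsGT_zero
  refine tendsto_atTop_mono' _ ?_ h3
  filter_upwards [hT1] with k hk
  have hR := R_ge lam hl0 hl1 k
  have hk' : (0 : ℝ) < T k := by exact_mod_cast hk
  simp only [Pi.inv_apply]
  rw [inv_div]
  exact div_le_self hk'.le hR

include hT1 hprod hl0 hl1 in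
theorem ak_tendsto : Tendsto (ak lam T) atTop atTop := by
  have h2 := Real.tendsto_sqrt_atTop.comp (T_tendsto lam T hl0 hl1 hT1 hprod)
  refine tendsto_atTop_mono (fun k => ?_) h2
  unfold ak
  simp only [Function.comp]
  apply Real.sqrt_le_sqrt
  exact le_mul_of_one_le_left (Nat.cast_nonneg _) (R_ge lam hl0 hl1 k)

include hT1 hprod hl0 hl1 in
theorem ak_div_T : Tendsto (fun k => ak lam T k / T k) atTop (𝓝 0) := by
  have h2 := (Real.continuous_sqrt.tendsto 0).comp hprod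
  rw [Real.sqrt_zero] at h2
  refine h2.congr' ?_
  filter_upwards [hT1] with k hk
  have hR := R_ge lam hl0 hl1 k
  have hk' : (0 : ℝ) < T k := by exact_mod_cast hk
  simp only [Function.comp]
  unfold ak
  rw [Real.sqrt_div' _ hk'.le, Real.sqrt_mul' _ hk'.le]
  rw [div_eq_div_iff (Real.sqrt_pos.mpr hk').ne' hk'.ne']
  conv_lhs => rw [← Real.mul_self_sqrt hk'.le]
  ring

include hT1 hprod hl0 hl1 in
theorem R_div_ak : Tendsto (fun k => (1 / (1 - lam k)) / ak lam T k) atTop (𝓝 0) := by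
  have h2 := (Real.continuous_sqrt.tendsto 0).comp hprod
  rw [Real.sqrt_zero] at h2
  refine h2.congr' ?_
  filter_upwards [hT1] with k hk
  have hR := R_ge lam hl0 hl1 k
  have hR0 : 0 < 1 / (1 - lam k) := by linarith
  have hk' : (0 : ℝ) < T k := by exact_mod_cast hk
  simp only [Function.comp]
  unfold ak
  rw [Real.sqrt_div' _ hk'.le, Real.sqrt_mul' _ hk'.le]
  rw [div_eq_div_iff (Real.sqrt_pos.mpr hk').ne' (mul_pos (Real.sqrt_pos.mpr hR0)
    (Real.sqrt_pos.mpr hk')).ne']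
  conv_rhs => rw [← Real.mul_self_sqrt hR0.le]
  ring

include h0 h1 hl0 hl1 hF hT hT1 hprod in
/-- the walk is unmixed at times much smaller than the mixing time -/
theorem unmixed {C : ℝ} (hC : 0 < C) :
    Tendsto (fun k => tv (cpow (ν k) ⌊C * ak lam T k⌋₊)) atTop (𝓝 1) := by
  rw [tendsto_order]
  constructor
  swap
  · intro b hb
    exact Eventually.of_forall fun k =>
      (tv_le_one (cpow_nonneg (h0 k) _) (sum_cpow (h1 k) _)).trans_lt hb
  intro b hb
  set η := 1 - b with hη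
  have hη0 : 0 < η := by linarith
  -- choose m
  obtain ⟨m, hm⟩ : ∃ m : ℕ, (max b 0) ^ (m + 1) ≤ 1 / 4 := by
    obtain ⟨m, hm⟩ := exists_pow_lt_of_lt_one (show (0 : ℝ) < 1 / 4 by norm_num)
      (max_lt hb one_pos)
    refine ⟨m, le_trans ?_ hm.le⟩
    rw [pow_succ]
    exact mul_le_of_le_one_right (by positivity) (max_le hb.le zero_le_one)
  have hak := ak_tendsto lam T hl0 hl1 hT1 hprod
  have hRa := R_div_ak lam T hl0 hl1 hT1 hprod
  have haT := ak_div_T lam T hl0 hl1 hT1 hprod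
  -- (m+1) λ^s ≤ 1/8
  have h2 : ∀ᶠ k in atTop, ((m : ℝ) + 1) * lam k ^ ⌊C * ak lam T k⌋₊ ≤ 1 / 8 := by
    set D : ℝ := Real.log (8 * (m + 1)) with hD
    have hD0 : 0 < D := Real.log_pos (by
      have : (0 : ℝ) ≤ m := Nat.cast_nonneg m
      linarith)
    filter_upwards [hRa.eventually (gt_mem_nhds (show (0 : ℝ) < C / (2 * D) by positivity)),
      hak.eventually_ge_atTop (2 / C)] with k h3 h4
    have hR := R_ge lam hl0 hl1 k
    have hR0 : 0 < 1 / (1 - lam k) := by linarith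
    have ha0 : 0 < ak lam T k := lt_of_lt_of_le (by positivity) h4
    have h5 : C * ak lam T k / 2 ≤ (⌊C * ak lam T k⌋₊ : ℝ) := by
      have h6 := (Nat.lt_floor_add_one (C * ak lam T k)).le
      have h7 : 2 ≤ C * ak lam T k := by
        rw [div_le_iff₀ hC] at h4; linarith
      linarith
    have h6 : D ≤ (⌊C * ak lam T k⌋₊ : ℝ) / (1 / (1 - lam k)) := by
      rw [le_div_iff₀ hR0]
      rw [div_lt_div_iff₀ ha0 (by positivity)] at h3
      nlinarith
    have h7 := lam_pow_le lam hl0 hl1 k ⌊C * ak lam T k⌋₊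
    have h8 : lam k ^ ⌊C * ak lam T k⌋₊ ≤ 1 / (8 * (m + 1)) := by
      refine h7.trans ?_
      have h9 : Real.exp (-((⌊C * ak lam T k⌋₊ : ℝ) / (1 / (1 - lam k)))) ≤ Real.exp (-D) :=
        Real.exp_le_exp.mpr (by linarith)
      refine h9.trans (le_of_eq ?_)
      rw [Real.exp_neg, hD, Real.exp_log (by positivity), one_div]
    calc ((m : ℝ) + 1) * lam k ^ ⌊C * ak lam T k⌋₊ ≤ (m + 1) * (1 / (8 * (m + 1))) :=
          mul_le_mul_of_nonneg_left h8 (by positivity)
      _ = 1 / 8 := by field_simp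
  have h3 : ∀ᶠ k in atTop, (m + 1) * (⌊C * ak lam T k⌋₊ + ⌊C * ak lam T k⌋₊) < T k := by
    filter_upwards [haT.eventually (gt_mem_nhds (show (0 : ℝ) < 1 / (2 * (m + 1) * C) by
      positivity)), hT1, hak.eventually_gt_atTop 0] with k h4 h5 h6
    have hk' : (0 : ℝ) < T k := by exact_mod_cast h5
    rw [div_lt_div_iff₀ hk' (by positivity)] at h4
    have h7 := Nat.floor_le (show 0 ≤ C * ak lam T k by positivity)
    have h8 : (((m + 1) * (⌊C * ak lam T k⌋₊ + ⌊C * ak lam T k⌋₊) : ℕ) : ℝ) < T k := by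
      push_cast
      have : (0 : ℝ) ≤ m := Nat.cast_nonneg m
      nlinarith
    exact_mod_cast h8
  filter_upwards [h2, h3] with k h4 h5
  by_contra hcon
  push Not at hcon
  have h6 := tv_iter (hl0 k) (h0 k) (h1 k) (hF k) ⌊C * ak lam T k⌋₊ ⌊C * ak lam T k⌋₊ m
  have h7 := hT k _ h5
  have h8 : tv (cpow (ν k) ⌊C * ak lam T k⌋₊) ^ (m + 1) ≤ (max b 0) ^ (m + 1) :=
    pow_le_pow_left₀ (tv_nonneg _) (hcon.trans (le_max_left _ _)) _
  linarith

include h0 h1 hl0 hl1 hF hT hT1 hprod in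
/-- The perturbed walk has the exponential profile. -/
theorem pert_profile {c : ℝ} (hc : 0 < c) :
    Tendsto (fun k => tv (cpow ((1 - 1 / ak lam T k) • ν k + (1 / ak lam T k) • unif (n k))
      ⌊c / (1 / ak lam T k)⌋₊)) atTop (𝓝 (Real.exp (-c))) := by
  have hak := ak_tendsto lam T hl0 hl1 hT1 hprod
  have hq0 : ∀ᶠ k in atTop, 0 < 1 / ak lam T k := by
    filter_upwards [hak.eventually_gt_atTop 0] with k hk
    positivity
  have hq : Tendsto (fun k => 1 / ak lam T k) atTop (𝓝 0) := by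
    simp only [one_div]
    exact tendsto_inv_atTop_zero.comp hak
  have h2 := pow_floor_tendsto (fun k => 1 / ak lam T k) hq0 hq hc.le
  have h3 := unmixed n ν lam T h0 h1 hl0 hl1 hF hT hT1 hprod hc
  have h4 := h2.mul h3
  rw [mul_one] at h4
  refine h4.congr' ?_
  filter_upwards [hq.eventually (gt_mem_nhds one_pos)] with k hk
  rw [tv_cpow_mix (h1 k) hk.le]
  congr 3
  rw [div_div_eq_mul_div, div_one]

end seq

end

end Pool.Agent.TH977.Cyc
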