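import Pool.Agent.TH977.Cyc.Erg

open Finset Filter Topology

set_option linter.unusedSectionVars false

namespace Pool.Agent.TH977.Cyc

noncomputable section

variable {n : ℕ} [NeZero n]

/-- potential -/
def Phi {k : ℕ} (θ : ℝ) (a : Fin k → ZMod n) : ℝ :=
  ∑ j ∈ univ.erase (0 : ZMod n), (Real.exp (θ * ∑ i, cc (j * a i)) +
    Real.exp (-θ * ∑ i, cc (j * a i)))

theorem Phi_nonneg {k : ℕ} (θ : ℝ) (a : Fin k → ZMod n) : 0 ≤ Phi θ a :=
  Finset.sum_nonneg fun _ _ => (add_pos (Real.exp_pos _) (Real.exp_pos _)).le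

theorem Phi_zero (θ : ℝ) (a : Fin 0 → ZMod n) : Phi θ a ≤ 2 * n := by
  unfold Phi
  simp only [Finset.univ_eq_empty, Finset.sum_empty, mul_zero, Real.exp_zero, Finset.sum_const,
    nsmul_eq_mul]
  have h1 : ((univ.erase (0 : ZMod n)).card : ℝ) ≤ n := by
    have h2 : (univ.erase (0 : ZMod n)).card ≤ (univ : Finset (ZMod n)).card :=
      Finset.card_le_card (Finset.erase_subset _ _)
    rw [card_univ, ZMod.card] at h2
    exact_mod_cast h2
  linarith

theorem sum_Phi_cons {k : ℕ} (θ : ℝ) (a : Fin k → ZMod n) :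
    ∑ b : ZMod n, Phi θ (Fin.cons b a : Fin (k + 1) → ZMod n) ≤
      n * Real.exp (θ ^ 2 / 2) * Phi θ a := by
  unfold Phi
  rw [Finset.sum_comm, Finset.mul_sum]
  refine Finset.sum_le_sum fun j hj => ?_
  have hj0 := (Finset.mem_erase.mp hj).1
  have h1 : ∀ b : ZMod n, ∑ i, cc (j * (Fin.cons b a : Fin (k + 1) → ZMod n) i) =
      cc (j * b) + ∑ i, cc (j * a i) := by
    intro b
    rw [Fin.sum_univ_succ]
    simp
  simp only [h1, mul_add, Real.exp_add]
  rw [Finset.sum_add_distrib, ← Finset.sum_mul, ← Finset.sum_mul]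
  have h2 := mgf_le j hj0 θ
  have h3 := mgf_le j hj0 (-θ)
  rw [neg_sq] at h3
  exact add_le_add (mul_le_mul_of_nonneg_right h2 (Real.exp_pos _).le)
    (mul_le_mul_of_nonneg_right h3 (Real.exp_pos _).le)

theorem Phi_cons_ge {k : ℕ} {θ : ℝ} (hθ : 0 ≤ θ) (a : Fin k → ZMod n) (b : ZMod n) :
    Real.exp (-θ) * Phi θ a ≤ Phi θ (Fin.cons b a : Fin (k + 1) → ZMod n) := by
  unfold Phi
  rw [Finset.mul_sum]
  refine Finset.sum_le_sum fun j _ => ?_
  have h1 : ∑ i, cc (j * (Fin.cons b a : Fin (k + 1) → ZMod n) i) =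
      cc (j * b) + ∑ i, cc (j * a i) := by
    rw [Fin.sum_univ_succ]
    simp
  obtain ⟨h2, h3⟩ := abs_le.mp (abs_cc_le (j * b))
  rw [h1, mul_add, mul_add, mul_add, Real.exp_add, Real.exp_add]
  refine add_le_add (mul_le_mul_of_nonneg_right (Real.exp_le_exp.mpr ?_) (Real.exp_pos _).le)
    (mul_le_mul_of_nonneg_right (Real.exp_le_exp.mpr ?_) (Real.exp_pos _).le)
  · nlinarith
  · nlinarith

theorem exists_next {k : ℕ} {θ : ℝ} (h0 : 0 < θ) (hθ1 : θ ≤ 1) (a : Fin k → ZMod n)
    (Bad : Finset (ZMod n)) (hBad : (Bad.card : ℝ) ≤ θ / 8 * n) :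
    ∃ b, b ∉ Bad ∧ Phi θ (Fin.cons b a : Fin (k + 1) → ZMod n) ≤ Real.exp (θ ^ 2) * Phi θ a := by
  have hn := npos (n := n)
  by_contra hcon
  push Not at hcon
  have h1 : ((Badᶜ).card : ℝ) = n - Bad.card := by
    rw [Finset.card_compl, ZMod.card]
    have : Bad.card ≤ n := by
      have := Finset.card_le_univ Bad
      rwa [ZMod.card] at this
    push_cast [Nat.cast_sub this]
    ring
  have hne : (Badᶜ).Nonempty := by
    rw [← Finset.card_pos]
    have : (0 : ℝ) < ((Badᶜ).card : ℝ) := by rw [h1]; nlinarith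
    exact_mod_cast this
  have h3 : ∑ b ∈ Badᶜ, (Real.exp (θ ^ 2) * Phi θ a) <
      ∑ b ∈ Badᶜ, Phi θ (Fin.cons b a : Fin (k + 1) → ZMod n) :=
    Finset.sum_lt_sum_of_nonempty hne fun b hb => hcon b (Finset.mem_compl.mp hb)
  have h4 : ∑ b ∈ Badᶜ, Phi θ (Fin.cons b a : Fin (k + 1) → ZMod n) +
      ∑ b ∈ Bad, Phi θ (Fin.cons b a : Fin (k + 1) → ZMod n) =
      ∑ b : ZMod n, Phi θ (Fin.cons b a : Fin (k + 1) → ZMod n) :=
    Finset.sum_compl_add_sum Bad _
  have h5 := sum_Phi_cons θ a
  have h6 : (Bad.card : ℝ) * (Real.exp (-θ) * Phi θ a) ≤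
      ∑ b ∈ Bad, Phi θ (Fin.cons b a : Fin (k + 1) → ZMod n) := by
    rw [← nsmul_eq_mul, ← Finset.sum_const]
    exact Finset.sum_le_sum fun b _ => Phi_cons_ge h0.le a b
  rw [Finset.sum_const, nsmul_eq_mul, h1] at h3
  -- numerical inequality
  have hP := Phi_nonneg θ a
  have hnum : (Bad.card : ℝ) * (Real.exp (θ ^ 2) - Real.exp (-θ)) ≤
      n * (Real.exp (θ ^ 2) - Real.exp (θ ^ 2 / 2)) := by
    have e1 : Real.exp (θ ^ 2) = Real.exp (θ ^ 2 / 2) * Real.exp (θ ^ 2 / 2) := by
      rw [← Real.exp_add]; congr 1; ring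
    have e2 : Real.exp (-θ) = Real.exp (θ ^ 2) * Real.exp (-θ - θ ^ 2) := by
      rw [← Real.exp_add]; congr 1; ring
    have e3 : 1 + (-θ - θ ^ 2) ≤ Real.exp (-θ - θ ^ 2) := by
      have := Real.add_one_le_exp (-θ - θ ^ 2); linarith
    have e4 : θ ^ 2 / 2 + 1 ≤ Real.exp (θ ^ 2 / 2) := Real.add_one_le_exp _
    have e5 : Real.exp (θ ^ 2 / 2) ≤ 2 := by
      have h7 : Real.exp (θ ^ 2 / 2) ≤ Real.exp (1 / 2) := Real.exp_le_exp.mpr (by nlinarith)
      have h8 : Real.exp (1 / 2) ^ 2 = Real.exp 1 := by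
        rw [← Real.exp_nat_mul]; norm_num
      have h9 := Real.exp_one_lt_d9
      nlinarith [Real.exp_pos (1 / 2)]
    have hx := Real.exp_pos (θ ^ 2 / 2)
    set X := Real.exp (θ ^ 2 / 2) with hX
    have l1 : Real.exp (θ ^ 2) - Real.exp (-θ) ≤ X * X * (2 * θ) := by
      rw [e2, e1]
      have : X * X * (1 - Real.exp (-θ - θ ^ 2)) ≤ X * X * (2 * θ) :=
        mul_le_mul_of_nonneg_left (by nlinarith) (by positivity)
      linarith
    have l2 : X * (θ ^ 2 / 2) ≤ Real.exp (θ ^ 2) - X := by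
      rw [e1]
      nlinarith
    calc (Bad.card : ℝ) * (Real.exp (θ ^ 2) - Real.exp (-θ))
        ≤ (Bad.card : ℝ) * (X * X * (2 * θ)) := mul_le_mul_of_nonneg_left l1 (Nat.cast_nonneg _)
      _ ≤ (θ / 8 * n) * (X * X * (2 * θ)) := mul_le_mul_of_nonneg_right hBad (by positivity)
      _ = n * ((X * (θ ^ 2 / 4)) * X) := by ring
      _ ≤ n * ((X * (θ ^ 2 / 4)) * 2) := by gcongr
      _ = n * (X * (θ ^ 2 / 2)) := by ring
      _ ≤ _ := mul_le_mul_of_nonneg_left l2 hn.le
  nlinarith [mul_le_mul_of_nonneg_right hnum hP]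

theorem card_double (W : Finset (ZMod n)) :
    ((univ : Finset (ZMod n)).filter fun a => a + a ∈ W).card ≤ 2 * W.card := by
  classical
  refine Finset.card_le_mul_card_image_of_maps_to (f := fun a => a + a) (t := W) ?_ 2 ?_ |>.trans ?_
  · intro a ha
    exact (Finset.mem_filter.mp ha).2
  · intro c _
    -- the fibre is contained in `{x, x + n/2}`
    by_cases hne : ∃ x : ZMod n, x + x = c
    · obtain ⟨x, hx⟩ := hne
      have hsub : (((univ : Finset (ZMod n)).filter fun a => a + a ∈ W).filter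
          fun a => a + a = c) ⊆ {x, x + ((n / 2 : ℕ) : ZMod n)} := by
        intro y hy
        have hy2 := (Finset.mem_filter.mp hy).2
        have h0 : (y - x) + (y - x) = 0 := by
          have : y + y = x + x := hy2.trans hx.symm
          calc (y - x) + (y - x) = (y + y) - (x + x) := by abel
            _ = 0 := by rw [this, sub_self]
        set d := y - x with hd
        have hdv : (n : ℕ) ∣ 2 * d.val := by
          rw [← ZMod.natCast_eq_zero_iff]
          push_cast
          rw [ZMod.natCast_zmod_val, two_mul]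
          exact h0
        have hlt := ZMod.val_lt d
        obtain ⟨e, he⟩ := hdv
        have he2 : e < 2 := by
          by_contra hcon
          push Not at hcon
          have : n * 2 ≤ n * e := Nat.mul_le_mul_left n hcon
          omega
        rw [Finset.mem_insert, Finset.mem_singleton]
        interval_cases e
        · left
          have h1 : d.val = 0 := by omega
          have h2 : d = 0 := (ZMod.val_eq_zero d).mp h1
          have : y = x + d := by rw [hd]; abel
          rw [this, h2, add_zero]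
        · right
          have h1 : d.val = n / 2 := by omega
          have h2 : d = ((n / 2 : ℕ) : ZMod n) := by
            rw [← h1, ZMod.natCast_zmod_val]
          have : y = x + d := by rw [hd]; abel
          rw [this, ← h2]
      exact (Finset.card_le_card hsub).trans Finset.card_le_two
    · push Not at hne
      rw [Finset.filter_eq_empty_iff.mpr fun y _ => hne y]
      simp
  · rfl

/-- separated random generators -/
theorem greedy {θ : ℝ} (h0 : 0 < θ) (hθ1 : θ ≤ 1) (W Z : Finset (ZMod n))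
    (hW : ∀ w ∈ W, -w ∈ W) (k : ℕ)
    (hk : (Z.card : ℝ) + 2 * W.card + 2 * k * W.card ≤ θ / 8 * n) :
    ∃ a : Fin k → ZMod n, (∀ i, a i ∉ Z ∧ a i + a i ∉ W) ∧
      (∀ i j, i ≠ j → a i - a j ∉ W ∧ a i + a j ∉ W) ∧
      Phi θ a ≤ 2 * n * Real.exp (θ ^ 2) ^ k := by
  classical
  induction k with
  | zero =>
    refine ⟨fun i => i.elim0, fun i => i.elim0, fun i => i.elim0, ?_⟩
    rw [pow_zero, mul_one]
    exact Phi_zero θ _
  | succ k ih =>
    have hWn : (0 : ℝ) ≤ W.card := Nat.cast_nonneg _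
    push_cast at hk
    obtain ⟨a, ha1, ha2, ha3⟩ := ih (by nlinarith)
    set Bad : Finset (ZMod n) := Z ∪ ((univ.filter fun a => a + a ∈ W) ∪
      (univ.biUnion fun i => (W.image fun w => w + a i) ∪ (W.image fun w => w - a i))) with hBad
    have hcard : (Bad.card : ℝ) ≤ θ / 8 * n := by
      have h1 : Bad.card ≤ Z.card + (2 * W.card + k * (W.card + W.card)) := by
        rw [hBad]
        refine (Finset.card_union_le _ _).trans (Nat.add_le_add_left ?_ _)
        refine (Finset.card_union_le _ _).trans (Nat.add_le_add (card_double W) ?_)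
        refine Finset.card_biUnion_le.trans ?_
        calc ∑ i : Fin k, ((W.image fun w => w + a i) ∪ (W.image fun w => w - a i)).card
            ≤ ∑ _i : Fin k, (W.card + W.card) := by
              refine Finset.sum_le_sum fun i _ => ?_
              exact (Finset.card_union_le _ _).trans
                (Nat.add_le_add Finset.card_image_le Finset.card_image_le)
          _ = k * (W.card + W.card) := by simp
      have h2 : (Bad.card : ℝ) ≤ Z.card + (2 * W.card + k * (W.card + W.card)) := by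
        exact_mod_cast h1
      nlinarith
    obtain ⟨b, hb, hb2⟩ := exists_next h0 hθ1 a Bad hcard
    have hbZ : b ∉ Z := fun h => hb (Finset.mem_union_left _ h)
    have hbW : b + b ∉ W := fun h => hb (Finset.mem_union_right _ (Finset.mem_union_left _
      (Finset.mem_filter.mpr ⟨Finset.mem_univ _, h⟩)))
    have hba : ∀ i, b - a i ∉ W ∧ b + a i ∉ W := by
      intro i
      constructor
      · intro h
        refine hb (Finset.mem_union_right _ (Finset.mem_union_right _ ?_))
        rw [Finset.mem_biUnion]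
        refine ⟨i, Finset.mem_univ i, Finset.mem_union_left _ ?_⟩
        exact Finset.mem_image.mpr ⟨b - a i, h, by abel⟩
      · intro h
        refine hb (Finset.mem_union_right _ (Finset.mem_union_right _ ?_))
        rw [Finset.mem_biUnion]
        refine ⟨i, Finset.mem_univ i, Finset.mem_union_right _ ?_⟩
        exact Finset.mem_image.mpr ⟨b + a i, h, by abel⟩
    have hab : ∀ i, a i - b ∉ W ∧ a i + b ∉ W := by
      intro i
      obtain ⟨h1, h2⟩ := hba i
      constructor
      · intro h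
        apply h1
        have := hW _ h
        rwa [neg_sub] at this
      · rwa [add_comm]
    refine ⟨Fin.cons b a, ?_, ?_, ?_⟩
    · intro i
      refine Fin.cases ?_ (fun i => ?_) i
      · simpa using ⟨hbZ, hbW⟩
      · simpa using ha1 i
    · intro i j
      refine Fin.cases ?_ (fun i => ?_) i
      · refine Fin.cases ?_ (fun j => ?_) j
        · intro h; exact absurd rfl h
        · intro _; simpa using hba j
      · refine Fin.cases ?_ (fun j => ?_) j
        · intro _; simpa using hab i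
        · intro h
          simpa using ha2 i j (fun e => h (by rw [e]))
    · refine hb2.trans ?_
      calc Real.exp (θ ^ 2) * Phi θ a ≤ Real.exp (θ ^ 2) * (2 * n * Real.exp (θ ^ 2) ^ k) :=
            mul_le_mul_of_nonneg_left ha3 (Real.exp_pos _).le
        _ = _ := by rw [pow_succ]; ring

/-- separated generators with small Fourier coefficients -/
theorem exists_separated {lam : ℝ} (hlam : 0 < lam) (hlam2 : lam ≤ 2) (W Z : Finset (ZMod n))
    (hW : ∀ w ∈ W, -w ∈ W) (k : ℕ)
    (hk : (Z.card : ℝ) + 2 * W.card + 2 * k * W.card ≤ lam / 16 * n)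
    (hk2 : Real.log (2 * n) ≤ k * (lam ^ 2 / 4)) :
    ∃ a : Fin k → ZMod n, (∀ i, a i ∉ Z ∧ a i + a i ∉ W) ∧
      (∀ i j, i ≠ j → a i - a j ∉ W ∧ a i + a j ∉ W) ∧
      ∀ j, j ≠ 0 → |∑ i, cc (j * a i)| ≤ k * lam := by
  have hn := npos (n := n)
  have e : lam / 2 / 8 = lam / 16 := by ring
  obtain ⟨a, h1, h2, h3⟩ := greedy (θ := lam / 2) (by positivity) (by linarith) W Z hW k
    (by rw [e]; exact hk)
  refine ⟨a, h1, h2, fun j hj => ?_⟩
  have h4 : Real.exp (lam / 2 * |∑ i, cc (j * a i)|) ≤ Phi (lam / 2) a := by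
    have h5 : Real.exp (lam / 2 * |∑ i, cc (j * a i)|) ≤ Real.exp (lam / 2 * ∑ i, cc (j * a i)) +
        Real.exp (-(lam / 2) * ∑ i, cc (j * a i)) := by
      rcases abs_cases (∑ i, cc (j * a i)) with ⟨h, _⟩ | ⟨h, _⟩
      · rw [h]
        linarith [Real.exp_pos (-(lam / 2) * ∑ i, cc (j * a i))]
      · rw [h]
        have : lam / 2 * -∑ i, cc (j * a i) = -(lam / 2) * ∑ i, cc (j * a i) := by ring
        rw [this]
        linarith [Real.exp_pos (lam / 2 * ∑ i, cc (j * a i))]
    refine h5.trans ?_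
    exact Finset.single_le_sum (f := fun j => Real.exp (lam / 2 * ∑ i, cc (j * a i)) +
        Real.exp (-(lam / 2) * ∑ i, cc (j * a i)))
      (fun j _ => (add_pos (Real.exp_pos _) (Real.exp_pos _)).le)
      (Finset.mem_erase.mpr ⟨hj, Finset.mem_univ j⟩)
  have h5 : Real.exp (lam / 2 * |∑ i, cc (j * a i)|) ≤
      Real.exp (Real.log (2 * n) + k * (lam / 2) ^ 2) := by
    rw [Real.exp_add, Real.exp_log (by positivity), Real.exp_nat_mul]
    exact h4.trans h3
  have h6 := Real.exp_le_exp.mp h5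
  have h7 : lam / 2 * |∑ i, cc (j * a i)| ≤ lam / 2 * (k * lam) := by nlinarith
  exact le_of_mul_le_mul_left h7 (by positivity)

end

end Pool.Agent.TH977.Cyc
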