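import Pool.Agent.TH977.Cyc.Erg

open Finset Filter Topology

set_option linter.unusedSectionVars false

namespace Pool.Agent.TH977.Cyc

noncomputable section

variable {n : ℕ} [NeZero n]

/-- the part of the law with at least one jump -/
def rest (α β : ZMod n → ℝ) (q : ℝ) (t : ℕ) : ZMod n → ℝ :=
  cpow ((1 - q) • α + q • β) t - (1 - q) ^ t • cpow α t

variable {α β : ZMod n → ℝ} {q : ℝ}

theorem rest_succ (t : ℕ) : rest α β q (t + 1) =
    conv (rest α β q t) ((1 - q) • α + q • β) + ((1 - q) ^ t * q) • conv (cpow α t) β := by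
  unfold rest
  rw [sub_conv, cpow, smul_conv, cpow]
  simp only [conv_add, conv_smul]
  funext x
  simp only [Pi.sub_apply, Pi.add_apply, Pi.smul_apply, smul_eq_mul]
  ring

theorem rest_nonneg (hα : ∀ x, 0 ≤ α x) (hβ : ∀ x, 0 ≤ β x) (h0 : 0 ≤ q) (h1 : q ≤ 1) (t : ℕ)
    (x : ZMod n) : 0 ≤ rest α β q t x := by
  induction t generalizing x with
  | zero => simp [rest, cpow]
  | succ t ih =>
    rw [rest_succ, Pi.add_apply, Pi.smul_apply, smul_eq_mul]
    have h2 : 0 ≤ 1 - q := by linarith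
    refine add_nonneg (conv_nonneg ih (fun y => ?_) x)
      (mul_nonneg (by positivity) (conv_nonneg (cpow_nonneg hα t) hβ x))
    simp only [Pi.add_apply, Pi.smul_apply, smul_eq_mul]
    exact add_nonneg (mul_nonneg h2 (hα y)) (mul_nonneg h0 (hβ y))

theorem sum_mix (hα : ∑ x, α x = 1) (hβ : ∑ x, β x = 1) :
    ∑ x, ((1 - q) • α + q • β) x = 1 := by
  simp only [Pi.add_apply, Pi.smul_apply, smul_eq_mul, Finset.sum_add_distrib, ← Finset.mul_sum,
    hα, hβ]
  ring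

theorem sum_rest (hα : ∑ x, α x = 1) (hβ : ∑ x, β x = 1) (t : ℕ) :
    ∑ x, rest α β q t x = 1 - (1 - q) ^ t := by
  unfold rest
  simp only [Pi.sub_apply, Pi.smul_apply, smul_eq_mul, Finset.sum_sub_distrib, ← Finset.mul_sum,
    sum_cpow (sum_mix hα hβ), sum_cpow hα]
  ring

theorem norm_F_rest {a b : ℝ} (h0 : 0 ≤ q) (h1 : q ≤ 1) (hb0 : 0 ≤ b) (hba : b ≤ a)
    (hFα : ∀ j, j ≠ 0 → ‖F α j‖ ≤ a) (hFβ : ∀ j, j ≠ 0 → ‖F β j‖ ≤ b) (t : ℕ) (j : ZMod n)
    (hj : j ≠ 0) : a * ‖F (rest α β q t) j‖ ≤ (1 - (1 - q) ^ t) * (a ^ t * b) := by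
  have ha0 : 0 ≤ a := hb0.trans hba
  have h2 : 0 ≤ 1 - q := by linarith
  induction t with
  | zero =>
    have : rest α β q 0 = 0 := by
      funext x; simp [rest, cpow]
    rw [this]
    simp [F]
  | succ t ih =>
    rw [rest_succ, F_add, F_smul, F_conv, F_conv, F_cpow]
    have h3 : ‖F ((1 - q) • α + q • β) j‖ ≤ a := by
      rw [F_add, F_smul, F_smul]
      calc ‖((1 - q : ℝ) : ℂ) * F α j + (q : ℂ) * F β j‖
          ≤ ‖((1 - q : ℝ) : ℂ) * F α j‖ + ‖(q : ℂ) * F β j‖ := norm_add_le _ _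
        _ ≤ (1 - q) * a + q * a := by
          rw [norm_mul, norm_mul, Complex.norm_real, Complex.norm_real, Real.norm_eq_abs,
            Real.norm_eq_abs, abs_of_nonneg h2, abs_of_nonneg h0]
          exact add_le_add (mul_le_mul_of_nonneg_left (hFα j hj) h2)
            (mul_le_mul_of_nonneg_left ((hFβ j hj).trans hba) h0)
        _ = a := by ring
    have h4 : ‖F α j ^ t * F β j‖ ≤ a ^ t * b := by
      rw [norm_mul, norm_pow]
      exact mul_le_mul (pow_le_pow_left₀ (norm_nonneg _) (hFα j hj) t) (hFβ j hj)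
        (norm_nonneg _) (pow_nonneg ha0 t)
    have h5 : 0 ≤ (1 - q) ^ t * q := mul_nonneg (pow_nonneg h2 t) h0
    calc a * ‖F (rest α β q t) j * F ((1 - q) • α + q • β) j +
          (((1 - q) ^ t * q : ℝ) : ℂ) * (F α j ^ t * F β j)‖
        ≤ a * (‖F (rest α β q t) j‖ * a + ((1 - q) ^ t * q) * (a ^ t * b)) := by
          refine mul_le_mul_of_nonneg_left ((norm_add_le _ _).trans (add_le_add ?_ ?_)) ha0
          · rw [norm_mul]
            exact mul_le_mul_of_nonneg_left h3 (norm_nonneg _)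
          · rw [norm_mul, Complex.norm_real, Real.norm_eq_abs, abs_of_nonneg h5]
            exact mul_le_mul_of_nonneg_left h4 h5
      _ = a * (a * ‖F (rest α β q t) j‖) + a * (((1 - q) ^ t * q) * (a ^ t * b)) := by ring
      _ ≤ a * ((1 - (1 - q) ^ t) * (a ^ t * b)) + a * (((1 - q) ^ t * q) * (a ^ t * b)) := by
          have := mul_le_mul_of_nonneg_left ih ha0
          linarith
      _ = _ := by ring

/-- upper bound after at least one jump -/
theorem tv_jump_le {a b : ℝ} (hα : ∀ x, 0 ≤ α x) (hα1 : ∑ x, α x = 1) (hβ1 : ∑ x, β x = 1)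
    (h0 : 0 ≤ q) (h1 : q ≤ 1) (hb0 : 0 ≤ b) (hba : b ≤ a) (ha : 0 < a)
    (hFα : ∀ j, j ≠ 0 → ‖F α j‖ ≤ a) (hFβ : ∀ j, j ≠ 0 → ‖F β j‖ ≤ b) (t : ℕ) :
    tv (cpow ((1 - q) • α + q • β) (t + 1)) ≤ (1 - q) ^ (t + 1) + √n * (a ^ t * b) := by
  have hn := npos (n := n)
  have h2 : 0 ≤ 1 - q := by linarith
  set D := rest α β q (t + 1) - (1 - (1 - q) ^ (t + 1)) • unif n with hD
  have hs : ∑ x, D x = 0 := by
    rw [hD]
    simp only [Pi.sub_apply, Pi.smul_apply, smul_eq_mul, Finset.sum_sub_distrib, ← Finset.mul_sum,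
      sum_rest hα1 hβ1, sum_unif]
    ring
  have hFD : ∀ j, j ≠ 0 → ‖F D j‖ ≤ a ^ t * b := by
    intro j hj
    rw [hD, F_sub, F_smul, F_unif j hj, mul_zero, sub_zero]
    have h3 := norm_F_rest h0 h1 hb0 hba hFα hFβ (t + 1) j hj
    have h4 : (1 - (1 - q) ^ (t + 1)) * (a ^ (t + 1) * b) ≤ a * (a ^ t * b) := by
      have h5 : 0 ≤ (1 - q) ^ (t + 1) := pow_nonneg h2 _
      have h6 : 0 ≤ a ^ (t + 1) * b := by positivity
      calc (1 - (1 - q) ^ (t + 1)) * (a ^ (t + 1) * b) ≤ 1 * (a ^ (t + 1) * b) :=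
            mul_le_mul_of_nonneg_right (by linarith) h6
        _ = a * (a ^ t * b) := by ring
    exact le_of_mul_le_mul_left (h3.trans h4) ha
  have h3 := sum_sq_of_F hs hFD (by positivity)
  have h4 := l1_le_l2 D
  have h5 : ∑ x, |D x| ≤ √n * (a ^ t * b) := by
    refine abs_le_of_sq_le_sq' ?_ (by positivity) |>.2
    refine h4.trans ?_
    rw [mul_pow, Real.sq_sqrt hn.le]
    exact mul_le_mul_of_nonneg_left h3 hn.le
  have e : cpow ((1 - q) • α + q • β) (t + 1) - unif n =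
      (1 - q) ^ (t + 1) • (cpow α (t + 1) - unif n) + D := by
    rw [hD]
    unfold rest
    funext x
    simp only [Pi.sub_apply, Pi.add_apply, Pi.smul_apply, smul_eq_mul]
    ring
  rw [tv_eq, e]
  have h6 : ∑ x, |((1 - q) ^ (t + 1) • (cpow α (t + 1) - unif n) + D) x| ≤
      (1 - q) ^ (t + 1) * ∑ x, |(cpow α (t + 1) - unif n) x| + ∑ x, |D x| := by
    rw [Finset.mul_sum, ← Finset.sum_add_distrib]
    refine Finset.sum_le_sum fun x _ => ?_
    rw [Pi.add_apply, Pi.smul_apply, smul_eq_mul]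
    refine (abs_add_le _ _).trans ?_
    rw [abs_mul, abs_of_nonneg (pow_nonneg h2 (t + 1))]
  have h7 : tv (cpow α (t + 1)) ≤ 1 := tv_le_one (cpow_nonneg hα _) (sum_cpow hα1 _)
  rw [tv_eq] at h7
  have h8 : 0 ≤ (1 - q) ^ (t + 1) := pow_nonneg h2 _
  have h9 := mul_le_mul_of_nonneg_left h7 h8
  have h10 : 0 ≤ √(n : ℝ) * (a ^ t * b) := by positivity
  nlinarith

/-- lower bound: no jump, small support -/
theorem tv_jump_ge (hα : ∀ x, 0 ≤ α x) (hβ : ∀ x, 0 ≤ β x) (hα1 : ∑ x, α x = 1)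
    (hβ1 : ∑ x, β x = 1) (h0 : 0 ≤ q) (h1 : q ≤ 1) (S : Finset (ZMod n))
    (hS : ∀ x, x ∉ S → α x = 0) (t : ℕ) :
    (1 - q) ^ t - (S.card : ℝ) ^ t / n ≤ tv (cpow ((1 - q) • α + q • β) t) := by
  obtain ⟨R, hR, hR2⟩ := exists_supp S hS t
  have h2 := tv_ge (sum_cpow (sum_mix (q := q) hα1 hβ1) t) R
  have h3 : (1 - q) ^ t ≤ ∑ x ∈ R, cpow ((1 - q) • α + q • β) t x := by
    have h4 : ∑ x ∈ R, cpow α t x = 1 := by
      rw [← sum_cpow hα1 t]
      exact Finset.sum_subset (Finset.subset_univ R) fun x _ hx => hR2 x hx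
    calc (1 - q) ^ t = ∑ x ∈ R, (1 - q) ^ t * cpow α t x := by rw [← Finset.mul_sum, h4, mul_one]
      _ ≤ ∑ x ∈ R, cpow ((1 - q) • α + q • β) t x := by
          refine Finset.sum_le_sum fun x _ => ?_
          have h5 := rest_nonneg hα hβ h0 h1 t x
          unfold rest at h5
          simp only [Pi.sub_apply, Pi.smul_apply, smul_eq_mul] at h5
          linarith
  have h4 : (R.card : ℝ) / n ≤ (S.card : ℝ) ^ t / n := by
    have : (R.card : ℝ) ≤ (S.card : ℝ) ^ t := by exact_mod_cast hR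
    exact div_le_div_of_nonneg_right this npos.le
  linarith

end

end Pool.Agent.TH977.Cyc
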