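import Pool.Agent.TH977.Cyc.AR

open Finset Filter Topology

set_option linter.unusedSectionVars false

namespace Pool.Agent.TH977.Cyc

noncomputable section

/-- From an exponential profile to the mixing times. -/
theorem tmix_of_profile (d : ℕ → ℕ → ℝ) (q : ℕ → ℝ) (hq0 : ∀ᶠ k in atTop, 0 < q k)
    (hanti : ∀ k, Antitone (d k))
    (hd : ∀ c : ℝ, 0 < c → Tendsto (fun k => d k ⌊c / q k⌋₊) atTop (𝓝 (Real.exp (-c))))
    {ε : ℝ} (h0 : 0 < ε) (h1 : ε < 1) :
    Tendsto (fun k => ((sInf {t : ℕ | d k t ≤ ε} : ℕ) : ℝ) * q k) atTop (𝓝 (Real.log (1 / ε))) := by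
  set L := Real.log (1 / ε) with hL
  have hL0 : 0 < L := Real.log_pos (by rw [lt_div_iff₀ h0]; linarith)
  have hexpL : Real.exp (-L) = ε := by
    rw [hL, ← Real.log_inv, one_div, inv_inv, Real.exp_log h0]
  rw [tendsto_order]
  constructor
  · intro a ha
    -- choose c2 in (max a 0, L)
    obtain ⟨c, hc1, hc2⟩ := exists_between (max_lt ha hL0)
    have hc0 : 0 < c := lt_of_le_of_lt (le_max_right _ _) hc1
    have hca : a < c := lt_of_le_of_lt (le_max_left _ _) hc1
    have h2 := hd c hc0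
    have h3 : ε < Real.exp (-c) := by
      rw [← hexpL]; exact Real.exp_lt_exp.mpr (by linarith)
    have hc3 : 0 < L + 1 := by linarith
    have h4 : Real.exp (-(L + 1)) < ε := by
      rw [← hexpL]; exact Real.exp_lt_exp.mpr (by linarith)
    filter_upwards [h2.eventually (lt_mem_nhds h3), (hd (L + 1) hc3).eventually (gt_mem_nhds h4),
      hq0] with k h5 h6 h7
    have hne : {t : ℕ | d k t ≤ ε}.Nonempty := ⟨_, h6.le⟩
    have h8 : ⌊c / q k⌋₊ < sInf {t : ℕ | d k t ≤ ε} := by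
      by_contra hcon
      push Not at hcon
      have h9 : d k (sInf {t : ℕ | d k t ≤ ε}) ≤ ε := Nat.sInf_mem hne
      have h10 := hanti k hcon
      linarith
    have h9 : c / q k < ((sInf {t : ℕ | d k t ≤ ε} : ℕ) : ℝ) := by
      have := Nat.lt_of_floor_lt h8
      exact this
    rw [div_lt_iff₀ h7] at h9
    linarith
  · intro b hb
    obtain ⟨c, hc1, hc2⟩ := exists_between hb
    have hc0 : 0 < c := by linarith
    have h4 : Real.exp (-c) < ε := by
      rw [← hexpL]; exact Real.exp_lt_exp.mpr (by linarith)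
    filter_upwards [(hd c hc0).eventually (gt_mem_nhds h4), hq0] with k h6 h7
    have h8 : sInf {t : ℕ | d k t ≤ ε} ≤ ⌊c / q k⌋₊ := Nat.sInf_le h6.le
    have h9 : ((sInf {t : ℕ | d k t ≤ ε} : ℕ) : ℝ) ≤ c / q k := by
      refine le_trans (by exact_mod_cast h8) (Nat.floor_le (by positivity))
    rw [le_div_iff₀ h7] at h9
    linarith

theorem pow_floor_tendsto (q : ℕ → ℝ) (hq0 : ∀ᶠ k in atTop, 0 < q k)
    (hq : Tendsto q atTop (𝓝 0)) {c : ℝ} (hc : 0 ≤ c) :
    Tendsto (fun k => (1 - q k) ^ ⌊c / q k⌋₊) atTop (𝓝 (Real.exp (-c))) := by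
  have h1 : Tendsto (fun k => (⌊c / q k⌋₊ : ℝ) * q k) atTop (𝓝 c) := by
    have h2 : Tendsto (fun k => c - q k) atTop (𝓝 (c - 0)) := tendsto_const_nhds.sub hq
    rw [sub_zero] at h2
    refine tendsto_of_tendsto_of_tendsto_of_le_of_le' h2 tendsto_const_nhds ?_ ?_
    · filter_upwards [hq0] with k hk
      have h3 := (Nat.lt_floor_add_one (c / q k)).le
      have h4 : c / q k - 1 ≤ (⌊c / q k⌋₊ : ℝ) := by linarith
      calc c - q k = (c / q k - 1) * q k := by field_simp
        _ ≤ _ := mul_le_mul_of_nonneg_right h4 hk.le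
    · filter_upwards [hq0] with k hk
      have h3 := Nat.floor_le (show 0 ≤ c / q k by positivity)
      calc (⌊c / q k⌋₊ : ℝ) * q k ≤ (c / q k) * q k := mul_le_mul_of_nonneg_right h3 hk.le
        _ = c := by field_simp
  -- log (1 - q) / q → -1
  have h2 : Tendsto (fun k => Real.log (1 - q k) / q k) atTop (𝓝 (-1)) := by
    have h3 : Tendsto (fun k => -(1 / (1 - q k))) atTop (𝓝 (-(1 / (1 - 0)))) :=
      (tendsto_const_nhds.div (tendsto_const_nhds.sub hq) (by norm_num)).neg
    have h3' : Tendsto (fun k => -(1 / (1 - q k))) atTop (𝓝 (-1)) := by simpa using h3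
    refine tendsto_of_tendsto_of_tendsto_of_le_of_le' h3' tendsto_const_nhds ?_ ?_
    · filter_upwards [hq0, hq.eventually (gt_mem_nhds (show (0 : ℝ) < 1 / 2 by norm_num))]
        with k hk hk2
      have h4 : 0 < 1 - q k := by linarith
      have h5 := Real.one_sub_inv_le_log_of_pos h4
      rw [le_div_iff₀ hk]
      have : 1 - (1 - q k)⁻¹ = -(1 / (1 - q k)) * q k := by
        field_simp
        ring
      linarith
    · filter_upwards [hq0, hq.eventually (gt_mem_nhds (show (0 : ℝ) < 1 / 2 by norm_num))]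
        with k hk hk2
      have h4 : 0 < 1 - q k := by linarith
      have h5 := Real.log_le_sub_one_of_pos h4
      rw [div_le_iff₀ hk]
      linarith
  have h3 : Tendsto (fun k => ((⌊c / q k⌋₊ : ℝ) * q k) * (Real.log (1 - q k) / q k)) atTop
      (𝓝 (c * -1)) := h1.mul h2
  have h4 := (Real.continuous_exp.tendsto (c * -1)).comp h3
  have h5 : Real.exp (c * -1) = Real.exp (-c) := by congr 1; ring
  rw [h5] at h4
  refine h4.congr' ?_
  filter_upwards [hq0, hq.eventually (gt_mem_nhds (show (0 : ℝ) < 1 / 2 by norm_num))]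
    with k hk hk2
  simp only [Function.comp]
  have h6 : ((⌊c / q k⌋₊ : ℝ) * q k) * (Real.log (1 - q k) / q k) =
      (⌊c / q k⌋₊ : ℝ) * Real.log (1 - q k) := by
    field_simp
  rw [h6, Real.exp_nat_mul, Real.exp_log (by linarith)]

/-- ratio of the mixing times for an exponential profile -/
theorem ratio_of_profile (d : ℕ → ℕ → ℝ) (q : ℕ → ℝ) (hq0 : ∀ᶠ k in atTop, 0 < q k)
    (hanti : ∀ k, Antitone (d k))
    (hd : ∀ c : ℝ, 0 < c → Tendsto (fun k => d k ⌊c / q k⌋₊) atTop (𝓝 (Real.exp (-c))))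
    {ε ε' : ℝ} (h0 : 0 < ε) (h1 : ε < 1) (h0' : 0 < ε') (h1' : ε' < 1) :
    Tendsto (fun k => ((sInf {t : ℕ | d k t ≤ ε} : ℕ) : ℝ) / ((sInf {t : ℕ | d k t ≤ ε'} : ℕ) : ℝ))
      atTop (𝓝 (Real.log ε / Real.log ε')) := by
  have h2 := tmix_of_profile d q hq0 hanti hd h0 h1
  have h3 := tmix_of_profile d q hq0 hanti hd h0' h1'
  have h4 : Real.log (1 / ε') ≠ 0 := (Real.log_pos (by rw [lt_div_iff₀ h0']; linarith)).ne'
  have h5 := h2.div h3 h4
  have h6 : Real.log (1 / ε) / Real.log (1 / ε') = Real.log ε / Real.log ε' := by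
    rw [one_div, one_div, Real.log_inv, Real.log_inv, neg_div_neg_eq]
  rw [h6] at h5
  refine h5.congr' ?_
  filter_upwards [hq0] with k hk
  simp only [Pi.div_apply]
  rw [mul_div_mul_right _ _ hk.ne']

end

end Pool.Agent.TH977.Cyc
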