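import Pool.Agent.TH977.Cyc.Greedy
import Pool.Agent.TH977.Cyc.Jump

open Finset Filter Topology

set_option linter.unusedSectionVars false

namespace Pool.Agent.TH977.Cyc

noncomputable section

variable {n : ℕ} [NeZero n]

/-! ### uniform measures on sets -/

/-- the uniform distribution on a finite set -/
def uo (S : Finset (ZMod n)) : ZMod n → ℝ := fun x => if x ∈ S then 1 / (S.card : ℝ) else 0

theorem uo_nonneg (S : Finset (ZMod n)) (x : ZMod n) : 0 ≤ uo S x := by
  unfold uo; split <;> positivity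

theorem sum_uo {S : Finset (ZMod n)} (hS : S.Nonempty) : ∑ x, uo S x = 1 := by
  have h : (0 : ℝ) < S.card := by exact_mod_cast Finset.card_pos.mpr hS
  unfold uo
  rw [Finset.sum_ite_mem, Finset.univ_inter, Finset.sum_const, nsmul_eq_mul]
  field_simp

theorem sum_uo_sq {S : Finset (ZMod n)} (hS : S.Nonempty) :
    ∑ x, uo S x ^ 2 = 1 / (S.card : ℝ) := by
  have h : (0 : ℝ) < S.card := by exact_mod_cast Finset.card_pos.mpr hS
  have : ∀ x, uo S x ^ 2 = if x ∈ S then (1 / (S.card : ℝ)) ^ 2 else 0 := by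
    intro x; unfold uo; split <;> simp
  simp only [this]
  rw [Finset.sum_ite_mem, Finset.univ_inter, Finset.sum_const, nsmul_eq_mul]
  field_simp

/-- the point mass at `0` -/
def dl : ZMod n → ℝ := fun x => if x = 0 then 1 else 0

/-! ### intervals -/

/-- the interval `[-H, H]` -/
def J (H : ℕ) : Finset (ZMod n) := (Finset.Icc (-(H : ℤ)) H).image (fun z : ℤ => (z : ZMod n))

theorem card_J_le (H : ℕ) : (J H : Finset (ZMod n)).card ≤ 2 * H + 1 := by
  unfold J
  refine Finset.card_image_le.trans ?_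
  rw [Int.card_Icc]
  omega

theorem card_J {H : ℕ} (h : 2 * H + 1 ≤ n) : (J H : Finset (ZMod n)).card = 2 * H + 1 := by
  unfold J
  rw [Finset.card_image_of_injOn, Int.card_Icc]
  · omega
  · intro x hx y hy hxy
    simp only [Finset.coe_Icc, Set.mem_Icc] at hx hy
    have h1 : ((x : ℤ) : ZMod n) = ((y : ℤ) : ZMod n) := hxy
    rw [ZMod.intCast_eq_intCast_iff_dvd_sub] at h1
    have h2 : y - x = 0 := by
      apply Int.eq_zero_of_abs_lt_dvd h1
      rw [abs_lt]
      constructor <;> omega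
    omega

theorem mem_J {H : ℕ} {x : ZMod n} : x ∈ (J H : Finset (ZMod n)) ↔
    ∃ z : ℤ, -(H : ℤ) ≤ z ∧ z ≤ H ∧ (z : ZMod n) = x := by
  unfold J
  simp only [Finset.mem_image, Finset.mem_Icc]
  constructor
  · rintro ⟨z, ⟨h1, h2⟩, h3⟩; exact ⟨z, h1, h2, h3⟩
  · rintro ⟨z, h1, h2, h3⟩; exact ⟨z, ⟨h1, h2⟩, h3⟩

theorem zero_mem_J (H : ℕ) : (0 : ZMod n) ∈ (J H : Finset (ZMod n)) :=
  mem_J.mpr ⟨0, by omega, by omega, by simp⟩

theorem neg_mem_J {H : ℕ} {x : ZMod n} (h : x ∈ (J H : Finset (ZMod n))) :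
    -x ∈ (J H : Finset (ZMod n)) := by
  obtain ⟨z, h1, h2, h3⟩ := mem_J.mp h
  exact mem_J.mpr ⟨-z, by omega, by omega, by push_cast; rw [h3]⟩

theorem add_mem_J {H K : ℕ} {x y : ZMod n} (hx : x ∈ (J H : Finset (ZMod n)))
    (hy : y ∈ (J K : Finset (ZMod n))) : x + y ∈ (J (H + K) : Finset (ZMod n)) := by
  obtain ⟨z, h1, h2, h3⟩ := mem_J.mp hx
  obtain ⟨w, h4, h5, h6⟩ := mem_J.mp hy
  exact mem_J.mpr ⟨z + w, by push_cast; omega, by push_cast; omega, by push_cast; rw [h3, h6]⟩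

theorem sub_mem_J {H K : ℕ} {x y : ZMod n} (hx : x ∈ (J H : Finset (ZMod n)))
    (hy : y ∈ (J K : Finset (ZMod n))) : x - y ∈ (J (H + K) : Finset (ZMod n)) := by
  rw [sub_eq_add_neg]
  exact add_mem_J hx (neg_mem_J hy)

/-! ### translates -/

/-- the union of the translates of `I` by `± a i` -/
def tr {k : ℕ} (a : Fin k → ZMod n) (I : Finset (ZMod n)) : Finset (ZMod n) :=
  univ.filter fun x => ∃ i, x - a i ∈ I ∨ x + a i ∈ I

theorem mem_tr {k : ℕ} {a : Fin k → ZMod n} {I : Finset (ZMod n)} {x : ZMod n} :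
    x ∈ tr a I ↔ ∃ i, x - a i ∈ I ∨ x + a i ∈ I := by
  unfold tr; simp

theorem neg_mem_tr {k : ℕ} {a : Fin k → ZMod n} {I : Finset (ZMod n)} (hI : ∀ x ∈ I, -x ∈ I)
    {x : ZMod n} (hx : x ∈ tr a I) : -x ∈ tr a I := by
  rw [mem_tr] at hx ⊢
  obtain ⟨i, h | h⟩ := hx
  · exact ⟨i, Or.inr (by have := hI _ h; rwa [neg_sub, sub_eq_neg_add] at this)⟩
  · exact ⟨i, Or.inl (by have := hI _ h; rwa [neg_add, ← sub_eq_add_neg] at this)⟩

theorem conv_nu {k : ℕ} (a : Fin k → ZMod n) (g : ZMod n → ℝ) (x : ZMod n) :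
    conv (nu a) g x = 1 / (2 * k) * ∑ i, (g (x - a i) + g (x + a i)) := by
  unfold conv nu
  simp only [mul_assoc, Finset.sum_mul, add_mul]
  rw [← Finset.mul_sum, Finset.sum_comm]
  congr 1
  refine Finset.sum_congr rfl fun i _ => ?_
  rw [Finset.sum_add_distrib]
  congr 1
  · simp
  · simp

/-- separation of the translates -/
structure Sep {k : ℕ} (a : Fin k → ZMod n) (I : Finset (ZMod n)) : Prop where
  self : ∀ i, ∀ x ∈ I, ∀ y ∈ I, a i + a i ≠ x - y
  sub : ∀ i j, i ≠ j → ∀ x ∈ I, ∀ y ∈ I, a i - a j ≠ x - y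
  add : ∀ i j, i ≠ j → ∀ x ∈ I, ∀ y ∈ I, a i + a j ≠ x - y

theorem count_eq {k : ℕ} {a : Fin k → ZMod n} {I : Finset (ZMod n)} (h : Sep a I) (x : ZMod n) :
    ∑ i, ((if x - a i ∈ I then (1 : ℝ) else 0) + (if x + a i ∈ I then 1 else 0)) =
      if x ∈ tr a I then 1 else 0 := by
  by_cases hx : x ∈ tr a I
  · rw [if_pos hx]
    obtain ⟨i, hi⟩ := mem_tr.mp hx
    rw [Finset.sum_eq_single i]
    · rcases hi with hi | hi
      · rw [if_pos hi, if_neg, add_zero]
        intro hcon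
        exact h.self i _ hcon _ hi (by abel)
      · rw [if_pos hi, if_neg, zero_add]
        intro hcon
        exact h.self i _ hi _ hcon (by abel)
    · intro j _ hji
      rw [if_neg, if_neg, add_zero]
      · intro hcon
        rcases hi with hi | hi
        · exact h.add j i hji _ hcon _ hi (by abel)
        · exact h.sub j i hji _ hcon _ hi (by abel)
      · intro hcon
        rcases hi with hi | hi
        · exact h.sub i j (Ne.symm hji) _ hcon _ hi (by abel)
        · exact h.add i j (Ne.symm hji) _ hi _ hcon (by abel)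
    · intro hi2; exact absurd (Finset.mem_univ i) hi2
  · rw [if_neg hx]
    refine Finset.sum_eq_zero fun i _ => ?_
    rw [if_neg, if_neg, add_zero]
    · intro hcon; exact hx (mem_tr.mpr ⟨i, Or.inr hcon⟩)
    · intro hcon; exact hx (mem_tr.mpr ⟨i, Or.inl hcon⟩)

theorem conv_nu_uo_aux {k : ℕ} {a : Fin k → ZMod n} {I : Finset (ZMod n)}
    (h : Sep a I) (x : ZMod n) :
    conv (nu a) (uo I) x = if x ∈ tr a I then 1 / (2 * k * I.card : ℝ) else 0 := by
  rw [conv_nu]
  have h1 : ∀ y, uo I y = 1 / (I.card : ℝ) * (if y ∈ I then (1 : ℝ) else 0) := by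
    intro y; unfold uo; split <;> simp
  simp only [h1, ← mul_add]
  rw [← Finset.mul_sum, count_eq h]
  split
  · rw [mul_one, one_div_mul_one_div]
  · simp

theorem card_tr {k : ℕ} (hk : 0 < k) {a : Fin k → ZMod n} {I : Finset (ZMod n)}
    (hI : I.Nonempty) (h : Sep a I) : (tr a I).card = 2 * k * I.card := by
  have h1 : ∑ x, conv (nu a) (uo I) x = 1 := by
    rw [sum_conv, nu_sum hk, sum_uo hI, one_mul]
  simp only [conv_nu_uo_aux h] at h1
  rw [Finset.sum_ite_mem, Finset.univ_inter, Finset.sum_const, nsmul_eq_mul] at h1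
  have h2 : (0 : ℝ) < I.card := by exact_mod_cast Finset.card_pos.mpr hI
  have h3 : (0 : ℝ) < k := by exact_mod_cast hk
  rw [mul_one_div, div_eq_one_iff_eq (by positivity)] at h1
  exact_mod_cast h1

theorem conv_nu_uo {k : ℕ} (hk : 0 < k) {a : Fin k → ZMod n} {I : Finset (ZMod n)}
    (hI : I.Nonempty) (h : Sep a I) : conv (nu a) (uo I) = uo (tr a I) := by
  funext x
  rw [conv_nu_uo_aux h]
  unfold uo
  rw [card_tr hk hI h]
  push_cast
  rfl

theorem uo_zero : (uo {0} : ZMod n → ℝ) = dl := by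
  funext x
  unfold uo dl
  simp

/-- a union of two disjoint sets -/
theorem uo_union {A B : Finset (ZMod n)} (hAB : Disjoint A B) (hA : A.Nonempty)
    (hB : B.Nonempty) :
    uo (A ∪ B) = (1 - (B.card : ℝ) / (A.card + B.card)) • uo A +
      ((B.card : ℝ) / (A.card + B.card)) • uo B := by
  have hA' : (0 : ℝ) < A.card := by exact_mod_cast Finset.card_pos.mpr hA
  have hB' : (0 : ℝ) < B.card := by exact_mod_cast Finset.card_pos.mpr hB
  funext x
  simp only [Pi.add_apply, Pi.smul_apply, smul_eq_mul]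
  unfold uo
  rw [Finset.card_union_of_disjoint hAB]
  by_cases h1 : x ∈ A
  · have h2 : x ∉ B := Finset.disjoint_left.mp hAB h1
    rw [if_pos (Finset.mem_union_left _ h1), if_pos h1, if_neg h2]
    push_cast
    field_simp
    ring
  · by_cases h2 : x ∈ B
    · rw [if_pos (Finset.mem_union_right _ h2), if_neg h1, if_pos h2]
      push_cast
      field_simp
      ring
    · rw [if_neg (by simp [h1, h2]), if_neg h1, if_neg h2]
      ring

end

end Pool.Agent.TH977.Cyc
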