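import Pool.Agent.TH977.Cyc.Prof

open Finset Filter Topology

set_option linter.unusedSectionVars false

namespace Pool.Agent.TH977.Cyc

noncomputable section

variable {n : ℕ} [NeZero n]

theorem norm_F_cpow_le {ν : ZMod n → ℝ} {lam : ℝ}
    (hF : ∀ j, j ≠ 0 → ‖F ν j‖ ≤ lam) (r : ℕ) (j : ZMod n) (hj : j ≠ 0) :
    ‖F (cpow ν r) j‖ ≤ lam ^ r := by
  rw [F_cpow, norm_pow]
  exact pow_le_pow_left₀ (norm_nonneg _) (hF j hj) r

/-- the bounded part of the law mixes -/
theorem l1_bounded {ν q0 : ZMod n → ℝ} {lam : ℝ} (h0 : 0 ≤ lam) (hν : ∑ x, ν x = 1)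
    (hF : ∀ j, j ≠ 0 → ‖F ν j‖ ≤ lam) (hq : ∀ x, 0 ≤ q0 x) (hq2 : ∀ x, q0 x ≤ 2 / n)
    (hq1 : ∑ x, q0 x ≤ 1) (r : ℕ) :
    ∑ x, |(conv q0 (cpow ν r) - (∑ y, q0 y) • unif n) x| ≤ 2 * lam ^ r := by
  have hn := npos (n := n)
  set m := ∑ y, q0 y with hm
  have e : conv q0 (cpow ν r) - m • unif n = conv (q0 - m • unif n) (cpow ν r) := by
    rw [sub_conv, smul_conv, unif_conv, sum_cpow hν, one_smul]
  have hs : ∑ x, (q0 - m • unif n) x = 0 := by
    simp only [Pi.sub_apply, Pi.smul_apply, smul_eq_mul, Finset.sum_sub_distrib, ← Finset.mul_sum,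
      sum_unif]
    rw [hm]; ring
  have h1 := l2_conv hs (pow_nonneg h0 r) (norm_F_cpow_le hF r)
  have h2 : ∑ x, (q0 - m • unif n) x ^ 2 ≤ 2 / n := by
    have h3 : ∑ x, (q0 - m • unif n) x ^ 2 = ∑ x, q0 x ^ 2 - m ^ 2 / n := by
      have h4 : ∀ x, (q0 - m • unif n) x ^ 2 = q0 x ^ 2 - 2 * (m / n) * q0 x + (m / n) ^ 2 := by
        intro x
        simp only [Pi.sub_apply, Pi.smul_apply, smul_eq_mul, unif]
        ring
      simp only [h4]
      rw [Finset.sum_add_distrib, Finset.sum_sub_distrib, ← Finset.mul_sum, ← hm,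
        Finset.sum_const, card_univ, ZMod.card, nsmul_eq_mul]
      field_simp
      ring
    have h5 : ∑ x, q0 x ^ 2 ≤ 2 / n := by
      calc ∑ x, q0 x ^ 2 ≤ ∑ x, (2 / n) * q0 x := by
            refine Finset.sum_le_sum fun x _ => ?_
            rw [sq]
            exact mul_le_mul_of_nonneg_right (hq2 x) (hq x)
        _ = (2 / n) * ∑ x, q0 x := by rw [Finset.mul_sum]
        _ ≤ (2 / n) * 1 := mul_le_mul_of_nonneg_left hq1 (by positivity)
        _ = 2 / n := mul_one _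
    have h6 : 0 ≤ m ^ 2 / n := by positivity
    linarith
  have h3 := l1_le_l2 (conv (q0 - m • unif n) (cpow ν r))
  rw [← e] at h3 h1
  have h4 : (∑ x, |(conv q0 (cpow ν r) - m • unif n) x|) ^ 2 ≤ (2 * lam ^ r) ^ 2 := by
    refine h3.trans ?_
    calc (n : ℝ) * ∑ x, (conv q0 (cpow ν r) - m • unif n) x ^ 2
        ≤ n * ((lam ^ r) ^ 2 * (2 / n)) := by
          refine mul_le_mul_of_nonneg_left (h1.trans ?_) hn.le
          exact mul_le_mul_of_nonneg_left h2 (by positivity)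
      _ = 2 * (lam ^ r) ^ 2 := by field_simp
      _ ≤ (2 * lam ^ r) ^ 2 := by nlinarith [sq_nonneg (lam ^ r)]
  exact abs_le_of_sq_le_sq' h4 (by positivity) |>.2

theorem sum_excess {p : ZMod n → ℝ} (h1 : ∑ x, p x = 1) :
    ∑ x, (p x - min (p x) (1 / n)) = tv p := by
  have e : ∀ x, p x - min (p x) (1 / (n : ℝ)) = (1 / 2) * (|p x - 1 / (n : ℝ)| +
      (p x - 1 / (n : ℝ))) := by
    intro x
    rcases le_total (p x) (1 / (n : ℝ)) with h | h
    · rw [min_eq_left h, abs_of_nonpos (by linarith)]; ring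
    · rw [min_eq_right h, abs_of_nonneg (by linarith)]; ring
  have h2 : ∑ _x : ZMod n, 1 / (n : ℝ) = 1 := sum_unif
  simp only [e]
  rw [← Finset.mul_sum, Finset.sum_add_distrib, Finset.sum_sub_distrib, h1, h2]
  unfold tv
  ring

/-- almost submultiplicativity of the total variation distance -/
theorem tv_submul {p p' ν : ZMod n → ℝ} {lam : ℝ} (h0 : 0 ≤ lam) (hp : ∀ x, 0 ≤ p x)
    (hp1 : ∑ x, p x = 1) (hp' : ∀ x, 0 ≤ p' x) (hp1' : ∑ x, p' x = 1) (hν : ∀ x, 0 ≤ ν x)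
    (hν1 : ∑ x, ν x = 1) (hF : ∀ j, j ≠ 0 → ‖F ν j‖ ≤ lam) (r : ℕ) :
    tv (conv (conv p p') (cpow ν r)) ≤ tv p * tv p' + lam ^ r := by
  have hn := npos (n := n)
  set g : ZMod n → ℝ := fun x => min (p x) (1 / n) with hg
  set g' : ZMod n → ℝ := fun x => min (p' x) (1 / n) with hg'
  set h : ZMod n → ℝ := p - g with hh
  set h' : ZMod n → ℝ := p' - g' with hh'
  have g0 : ∀ x, 0 ≤ g x := fun x => le_min (hp x) (by positivity)
  have g0' : ∀ x, 0 ≤ g' x := fun x => le_min (hp' x) (by positivity)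
  have hh0 : ∀ x, 0 ≤ h x := fun x => sub_nonneg.mpr (min_le_left _ _)
  have hh0' : ∀ x, 0 ≤ h' x := fun x => sub_nonneg.mpr (min_le_left _ _)
  have gl : ∀ x, g x ≤ 1 / n := fun x => min_le_right _ _
  have gl' : ∀ x, g' x ≤ 1 / n := fun x => min_le_right _ _
  have hsum : ∑ x, h x = tv p := sum_excess hp1
  have hsum' : ∑ x, h' x = tv p' := sum_excess hp1'
  have hle : tv p ≤ 1 := tv_le_one hp hp1
  set q0 : ZMod n → ℝ := conv g p' + conv h g' with hq0
  have hpe : conv p p' = conv h h' + q0 := by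
    have e1 : p = g + h := by rw [hh]; abel
    have e2 : p' = g' + h' := by rw [hh']; abel
    rw [hq0]
    conv_lhs => rw [e1, add_conv]
    have e3 : conv h p' = conv h g' + conv h h' := by
      conv_lhs => rw [e2]
      rw [conv_add]
    rw [e3]
    abel
  have hq0n : ∀ x, 0 ≤ q0 x := fun x => add_nonneg (conv_nonneg g0 hp' x) (conv_nonneg hh0 g0' x)
  have hq0b : ∀ x, q0 x ≤ 2 / n := by
    intro x
    have h1 : conv g p' x ≤ 1 / n := by
      rw [conv_comm]
      unfold conv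
      calc ∑ y, p' y * g (x - y) ≤ ∑ y, p' y * (1 / n) :=
            Finset.sum_le_sum fun y _ => mul_le_mul_of_nonneg_left (gl _) (hp' y)
        _ = 1 / n := by rw [← Finset.sum_mul, hp1', one_mul]
    have h2 : conv h g' x ≤ 1 / n := by
      unfold conv
      calc ∑ y, h y * g' (x - y) ≤ ∑ y, h y * (1 / n) :=
            Finset.sum_le_sum fun y _ => mul_le_mul_of_nonneg_left (gl' _) (hh0 y)
        _ = tv p * (1 / n) := by rw [← Finset.sum_mul, hsum]
        _ ≤ 1 * (1 / n) := mul_le_mul_of_nonneg_right hle (by positivity)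
        _ = 1 / n := one_mul _
    have e : (2 : ℝ) / n = 1 / n + 1 / n := by ring
    rw [e]
    exact add_le_add h1 h2
  have hmass : ∑ x, q0 x = 1 - tv p * tv p' := by
    have h1 := sum_conv p p'
    rw [hpe, hp1, hp1'] at h1
    simp only [Pi.add_apply, Finset.sum_add_distrib] at h1
    rw [sum_conv, hsum, hsum'] at h1
    have : ∑ x, q0 x = ∑ x, (conv g p' x + conv h g' x) := rfl
    linarith
  have htt : 0 ≤ tv p * tv p' := mul_nonneg (tv_nonneg p) (tv_nonneg p')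
  have h2 := l1_bounded h0 hν1 hF hq0n hq0b (by rw [hmass]; linarith) r
  have e1 : conv (conv p p') (cpow ν r) - unif n =
      (conv (conv h h') (cpow ν r) - (tv p * tv p') • unif n) +
      (conv q0 (cpow ν r) - (∑ y, q0 y) • unif n) := by
    rw [hpe, add_conv, hmass]
    funext x
    simp only [Pi.add_apply, Pi.sub_apply, Pi.smul_apply, smul_eq_mul]
    ring
  have h3 : ∑ x, |(conv (conv h h') (cpow ν r) - (tv p * tv p') • unif n) x| ≤
      2 * (tv p * tv p') := by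
    have h4 : ∀ x, 0 ≤ conv (conv h h') (cpow ν r) x :=
      fun x => conv_nonneg (conv_nonneg hh0 hh0') (cpow_nonneg hν r) x
    have h5 : ∑ x, conv (conv h h') (cpow ν r) x = tv p * tv p' := by
      rw [sum_conv, sum_conv, sum_cpow hν1, hsum, hsum', mul_one]
    calc ∑ x, |(conv (conv h h') (cpow ν r) - (tv p * tv p') • unif n) x|
        ≤ ∑ x, (conv (conv h h') (cpow ν r) x + (tv p * tv p') * unif n x) := by
          refine Finset.sum_le_sum fun x _ => ?_
          rw [Pi.sub_apply, Pi.smul_apply, smul_eq_mul]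
          refine (abs_sub _ _).trans ?_
          rw [abs_of_nonneg (h4 x), abs_of_nonneg (mul_nonneg htt (by unfold unif; positivity))]
      _ = 2 * (tv p * tv p') := by
          rw [Finset.sum_add_distrib, h5, ← Finset.mul_sum, sum_unif]
          ring
  rw [tv_eq, e1]
  have h6 : ∑ x, |((conv (conv h h') (cpow ν r) - (tv p * tv p') • unif n) +
      (conv q0 (cpow ν r) - (∑ y, q0 y) • unif n)) x| ≤
      ∑ x, |(conv (conv h h') (cpow ν r) - (tv p * tv p') • unif n) x| +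
      ∑ x, |(conv q0 (cpow ν r) - (∑ y, q0 y) • unif n) x| := by
    rw [← Finset.sum_add_distrib]
    exact Finset.sum_le_sum fun x _ => abs_add_le _ _
  linarith

theorem tv_iter {ν : ZMod n → ℝ} {lam : ℝ} (h0 : 0 ≤ lam) (hν : ∀ x, 0 ≤ ν x)
    (hν1 : ∑ x, ν x = 1) (hF : ∀ j, j ≠ 0 → ‖F ν j‖ ≤ lam) (t r m : ℕ) :
    tv (cpow ν ((m + 1) * (t + r))) ≤ tv (cpow ν t) ^ (m + 1) + (m + 1) * lam ^ r := by
  induction m with
  | zero =>
    rw [zero_add, one_mul, pow_one]
    have h1 : tv (cpow ν (t + r)) ≤ tv (cpow ν t) := tv_cpow_anti hν hν1 (Nat.le_add_right t r)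
    have h2 : 0 ≤ lam ^ r := pow_nonneg h0 r
    push_cast
    linarith
  | succ m ih =>
    have e : (m + 1 + 1) * (t + r) = (m + 1) * (t + r) + t + r := by ring
    rw [e, cpow_add, cpow_add]
    have h1 := tv_submul h0 (cpow_nonneg hν ((m + 1) * (t + r))) (sum_cpow hν1 _)
      (cpow_nonneg hν t) (sum_cpow hν1 t) hν hν1 hF r
    refine h1.trans ?_
    have h2 : tv (cpow ν t) ≤ 1 := tv_le_one (cpow_nonneg hν t) (sum_cpow hν1 t)
    have h3 : 0 ≤ tv (cpow ν t) := tv_nonneg _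
    have h4 : 0 ≤ lam ^ r := pow_nonneg h0 r
    calc tv (cpow ν ((m + 1) * (t + r))) * tv (cpow ν t) + lam ^ r
        ≤ (tv (cpow ν t) ^ (m + 1) + (m + 1) * lam ^ r) * tv (cpow ν t) + lam ^ r := by
          gcongr
      _ = tv (cpow ν t) ^ (m + 1 + 1) + (m + 1) * lam ^ r * tv (cpow ν t) + lam ^ r := by ring
      _ ≤ tv (cpow ν t) ^ (m + 1 + 1) + (m + 1) * lam ^ r * 1 + lam ^ r := by
          gcongr
      _ = tv (cpow ν t) ^ (m + 1 + 1) + ((m + 1 : ℕ) + 1) * lam ^ r := by push_cast; ring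

end

end Pool.Agent.TH977.Cyc
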