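import Pool.Agent.TH977.Cyc.Sets

open Finset Filter Topology

set_option linter.unusedSectionVars false

namespace Pool.Agent.TH977.Cyc

noncomputable section

variable {n : ℕ} [NeZero n]

/-! ### numerical lemmas -/

theorem pow_diff_le {a c : ℝ} (ha : 0 ≤ a) (hc : 0 ≤ c) {u : ℂ} (hu : ‖u‖ ≤ 1) (t : ℕ) :
    ‖((c : ℂ) + a * u) ^ t - (c : ℂ) ^ t‖ ≤ ‖u‖ * ((c + a) ^ t - c ^ t) := by
  induction t with
  | zero => simp
  | succ t ih =>
    have h1 : ‖(c : ℂ) + a * u‖ ≤ c + a := by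
      refine (norm_add_le _ _).trans ?_
      rw [norm_mul, Complex.norm_real, Complex.norm_real, Real.norm_eq_abs, Real.norm_eq_abs,
        abs_of_nonneg hc, abs_of_nonneg ha]
      nlinarith [norm_nonneg u]
    have e : ((c : ℂ) + a * u) ^ (t + 1) - (c : ℂ) ^ (t + 1) =
        (((c : ℂ) + a * u) ^ t - (c : ℂ) ^ t) * ((c : ℂ) + a * u) + (c : ℂ) ^ t * (a * u) := by
      ring
    rw [e]
    have hcp : 0 ≤ c ^ t := pow_nonneg hc t
    calc ‖(((c : ℂ) + a * u) ^ t - (c : ℂ) ^ t) * ((c : ℂ) + a * u) + (c : ℂ) ^ t * (a * u)‖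
        ≤ ‖((c : ℂ) + a * u) ^ t - (c : ℂ) ^ t‖ * ‖(c : ℂ) + a * u‖ + c ^ t * (a * ‖u‖) := by
          refine (norm_add_le _ _).trans (le_of_eq ?_)
          rw [norm_mul, norm_mul, norm_mul, norm_pow, Complex.norm_real, Complex.norm_real,
            Real.norm_eq_abs, Real.norm_eq_abs, abs_of_nonneg hc, abs_of_nonneg ha]
      _ ≤ (‖u‖ * ((c + a) ^ t - c ^ t)) * (c + a) + c ^ t * (a * ‖u‖) := by
          have h2 : 0 ≤ ‖u‖ * ((c + a) ^ t - c ^ t) :=
            mul_nonneg (norm_nonneg _) (sub_nonneg.mpr (pow_le_pow_left₀ hc (by linarith) t))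
          have h3 := mul_le_mul ih h1 (norm_nonneg _) h2
          linarith
      _ = _ := by ring

theorem pow_diff2_le {a b c : ℝ} (ha : 0 ≤ a) (hb : 0 ≤ b) (hc : 0 ≤ c) {u v : ℂ}
    (hu : ‖u‖ ≤ 1) (hv : ‖v‖ ≤ 1) (t : ℕ) :
    ‖((c : ℂ) + a * u + b * v) ^ t - ((c : ℂ) + a * u) ^ t - ((c : ℂ) + b * v) ^ t + (c : ℂ) ^ t‖ ≤
      ‖u‖ * ‖v‖ * ((c + a + b) ^ t - (c + a) ^ t - (c + b) ^ t + c ^ t) := by
  have hu0 := norm_nonneg u
  have hv0 := norm_nonneg v
  have hmass : ∀ t : ℕ, 0 ≤ (c + a + b) ^ t - (c + a) ^ t - (c + b) ^ t + c ^ t := by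
    intro t
    induction t with
    | zero => simp
    | succ t ih =>
      have h1 : c ^ t ≤ (c + a) ^ t := pow_le_pow_left₀ hc (by linarith) t
      have h2 : c ^ t ≤ (c + b) ^ t := pow_le_pow_left₀ hc (by linarith) t
      have e : (c + a + b) ^ (t + 1) - (c + a) ^ (t + 1) - (c + b) ^ (t + 1) + c ^ (t + 1) =
          (c + a + b) * ((c + a + b) ^ t - (c + a) ^ t - (c + b) ^ t + c ^ t) +
          b * ((c + a) ^ t - c ^ t) + a * ((c + b) ^ t - c ^ t) := by ring
      rw [e]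
      have h3 := mul_nonneg (show 0 ≤ c + a + b by linarith) ih
      have h4 := mul_nonneg hb (sub_nonneg.mpr h1)
      have h5 := mul_nonneg ha (sub_nonneg.mpr h2)
      linarith
  induction t with
  | zero => simp
  | succ t ih =>
    have h1 : ‖(c : ℂ) + a * u + b * v‖ ≤ c + a + b := by
      refine (norm_add_le _ _).trans ?_
      have h2 : ‖(c : ℂ) + a * u‖ ≤ c + a := by
        refine (norm_add_le _ _).trans ?_
        rw [norm_mul, Complex.norm_real, Complex.norm_real, Real.norm_eq_abs, Real.norm_eq_abs,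
          abs_of_nonneg hc, abs_of_nonneg ha]
        nlinarith
      have h3 : ‖(b : ℂ) * v‖ ≤ b := by
        rw [norm_mul, Complex.norm_real, Real.norm_eq_abs, abs_of_nonneg hb]
        nlinarith
      linarith
    have h2 := pow_diff_le ha hc hu t
    have h3 := pow_diff_le hb hc hv t
    set E := ((c : ℂ) + a * u + b * v) ^ t - ((c : ℂ) + a * u) ^ t - ((c : ℂ) + b * v) ^ t +
      (c : ℂ) ^ t with hE
    have e : ((c : ℂ) + a * u + b * v) ^ (t + 1) - ((c : ℂ) + a * u) ^ (t + 1) -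
        ((c : ℂ) + b * v) ^ (t + 1) + (c : ℂ) ^ (t + 1) =
        E * ((c : ℂ) + a * u + b * v) + (((c : ℂ) + a * u) ^ t - (c : ℂ) ^ t) * (b * v) +
        (((c : ℂ) + b * v) ^ t - (c : ℂ) ^ t) * (a * u) := by
      rw [hE]; ring
    rw [e]
    have h4 : ‖E * ((c : ℂ) + a * u + b * v)‖ ≤
        (‖u‖ * ‖v‖ * ((c + a + b) ^ t - (c + a) ^ t - (c + b) ^ t + c ^ t)) * (c + a + b) := by
      rw [norm_mul]
      exact mul_le_mul ih h1 (norm_nonneg _)
        (mul_nonneg (mul_nonneg hu0 hv0) (hmass t))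
    have h5 : ‖(((c : ℂ) + a * u) ^ t - (c : ℂ) ^ t) * (b * v)‖ ≤
        (‖u‖ * ((c + a) ^ t - c ^ t)) * (b * ‖v‖) := by
      rw [norm_mul, norm_mul, Complex.norm_real, Real.norm_eq_abs, abs_of_nonneg hb]
      exact mul_le_mul_of_nonneg_right h2 (mul_nonneg hb hv0)
    have h6 : ‖(((c : ℂ) + b * v) ^ t - (c : ℂ) ^ t) * (a * u)‖ ≤
        (‖v‖ * ((c + b) ^ t - c ^ t)) * (a * ‖u‖) := by
      rw [norm_mul, norm_mul, Complex.norm_real, Real.norm_eq_abs, abs_of_nonneg ha]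
      exact mul_le_mul_of_nonneg_right h3 (mul_nonneg ha hu0)
    calc _ ≤ ‖E * ((c : ℂ) + a * u + b * v)‖ +
          ‖(((c : ℂ) + a * u) ^ t - (c : ℂ) ^ t) * (b * v)‖ +
          ‖(((c : ℂ) + b * v) ^ t - (c : ℂ) ^ t) * (a * u)‖ := norm_add₃_le
      _ ≤ (‖u‖ * ‖v‖ * ((c + a + b) ^ t - (c + a) ^ t - (c + b) ^ t + c ^ t)) * (c + a + b) +
          (‖u‖ * ((c + a) ^ t - c ^ t)) * (b * ‖v‖) +
          (‖v‖ * ((c + b) ^ t - c ^ t)) * (a * ‖u‖) := add_le_add (add_le_add h4 h5) h6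
      _ = _ := by ring

theorem F_dl (j : ZMod n) : F (dl : ZMod n → ℝ) j = 1 := F_delta j

theorem sum_dl : ∑ x : ZMod n, dl x = 1 := by unfold dl; simp

theorem dl_nonneg (x : ZMod n) : 0 ≤ dl x := by unfold dl; split <;> norm_num

theorem cpow_zero' (μ : ZMod n → ℝ) : cpow μ 0 = dl := rfl

theorem sum_cpow' (μ : ZMod n → ℝ) (t : ℕ) : ∑ x, cpow μ t x = (∑ x, μ x) ^ t := by
  induction t with
  | zero => rw [cpow_zero', sum_dl, pow_zero]
  | succ t ih => rw [cpow, sum_conv, ih, pow_succ]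

/-- upper bound for a walk with three kinds of steps: holding, `A`-steps and `B`-steps -/
theorem tv_three_le {A B : ZMod n → ℝ} {a b c lamB : ℝ} (hA0 : ∀ x, 0 ≤ A x)
    (hB0 : ∀ x, 0 ≤ B x) (hA1 : ∑ x, A x = 1) (hB1 : ∑ x, B x = 1) (ha : 0 ≤ a) (hb : 0 ≤ b)
    (hc : 0 ≤ c) (hsum : c + a + b = 1) (hl : 0 ≤ lamB)
    (hFB : ∀ j, j ≠ 0 → ‖F B j‖ ≤ lamB) (t : ℕ) :
    tv (cpow (c • dl + a • A + b • B) t) ≤
      (c + a) ^ t + (c + b) ^ t + c ^ t + (1 / 2) * (√n * (lamB * √(∑ x, A x ^ 2))) := by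
  have hn := npos (n := n)
  set μ := c • dl + a • A + b • B with hμ
  set μA := c • (dl : ZMod n → ℝ) + a • A with hμA
  set μB := c • (dl : ZMod n → ℝ) + b • B with hμB
  set μC := c • (dl : ZMod n → ℝ) with hμC
  have smul_sum : ∀ (r : ℝ) (f : ZMod n → ℝ), ∑ x, (r • f) x = r * ∑ x, f x := by
    intro r f
    simp only [Pi.smul_apply, smul_eq_mul, ← Finset.mul_sum]
  have add_sum : ∀ (f g : ZMod n → ℝ), ∑ x, (f + g) x = ∑ x, f x + ∑ x, g x := by
    intro f g
    simp only [Pi.add_apply, Finset.sum_add_distrib]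
  have sC : ∑ x, μC x = c := by rw [hμC, smul_sum, sum_dl, mul_one]
  have sA : ∑ x, μA x = c + a := by rw [hμA, add_sum, smul_sum, smul_sum, sum_dl, hA1]; ring
  have sB : ∑ x, μB x = c + b := by rw [hμB, add_sum, smul_sum, smul_sum, sum_dl, hB1]; ring
  have s : ∑ x, μ x = 1 := by
    rw [hμ, add_sum, add_sum, smul_sum, smul_sum, smul_sum, sum_dl, hB1, hA1]; linarith
  have nC : ∀ x, 0 ≤ μC x := fun x => mul_nonneg hc (dl_nonneg x)
  have nA : ∀ x, 0 ≤ μA x := fun x => add_nonneg (mul_nonneg hc (dl_nonneg x))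
    (mul_nonneg ha (hA0 x))
  have nB : ∀ x, 0 ≤ μB x := fun x => add_nonneg (mul_nonneg hc (dl_nonneg x))
    (mul_nonneg hb (hB0 x))
  set m := 1 - (c + a) ^ t - (c + b) ^ t + c ^ t with hm
  set D : ZMod n → ℝ := cpow μ t - cpow μA t - cpow μB t + cpow μC t - m • unif n with hD
  have hDs : ∑ x, D x = 0 := by
    rw [hD]
    simp only [Pi.sub_apply, Pi.add_apply, Finset.sum_sub_distrib, Finset.sum_add_distrib,
      smul_sum, sum_unif, sum_cpow', s, sA, sB, sC, one_pow]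
    rw [hm]
    ring
  have hFA1 : ∀ j, ‖F A j‖ ≤ 1 := by
    intro j
    refine (norm_F_le A j).trans ?_
    rw [← hA1]
    exact Finset.sum_le_sum fun x _ => by rw [abs_of_nonneg (hA0 x)]
  have hFB1 : ∀ j, ‖F B j‖ ≤ 1 := by
    intro j
    refine (norm_F_le B j).trans ?_
    rw [← hB1]
    exact Finset.sum_le_sum fun x _ => by rw [abs_of_nonneg (hB0 x)]
  have hFD : ∀ j, ‖F D j‖ ≤ lamB * ‖F A j‖ := by
    intro j
    by_cases hj : j = 0
    · rw [hj, F_zero, hDs]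
      simp only [Complex.ofReal_zero, norm_zero]
      positivity
    · have e : F D j = ((c : ℂ) + a * F A j + b * F B j) ^ t - ((c : ℂ) + a * F A j) ^ t -
          ((c : ℂ) + b * F B j) ^ t + (c : ℂ) ^ t := by
        rw [hD, F_sub, F_add, F_sub, F_sub, F_smul, F_unif j hj, mul_zero, sub_zero, F_cpow,
          F_cpow, F_cpow, F_cpow, hμ, hμA, hμB, hμC, F_add, F_add, F_add, F_smul, F_smul, F_smul,
          F_dl, mul_one]
      rw [e]
      refine (pow_diff2_le ha hb hc (hFA1 j) (hFB1 j) t).trans ?_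
      rw [hsum, one_pow]
      have h1 : m ≤ 1 := by
        have h2 : c ^ t ≤ (c + a) ^ t := pow_le_pow_left₀ hc (by linarith) t
        have h3 : 0 ≤ (c + b) ^ t := pow_nonneg (by linarith) t
        rw [hm]; linarith
      have h0 : 0 ≤ ‖F A j‖ * ‖F B j‖ := by positivity
      calc ‖F A j‖ * ‖F B j‖ * m ≤ ‖F A j‖ * ‖F B j‖ * 1 := mul_le_mul_of_nonneg_left h1 h0
        _ = ‖F B j‖ * ‖F A j‖ := by ring
        _ ≤ _ := mul_le_mul_of_nonneg_right (hFB j hj) (norm_nonneg _)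
  have hD2 : ∑ x, D x ^ 2 ≤ lamB ^ 2 * ∑ x, A x ^ 2 := by
    have h1 := parseval D
    have h2 := parseval A
    have h3 : ∑ j, ‖F D j‖ ^ 2 ≤ ∑ j, lamB ^ 2 * ‖F A j‖ ^ 2 := by
      refine Finset.sum_le_sum fun j _ => ?_
      rw [← mul_pow]
      exact pow_le_pow_left₀ (norm_nonneg _) (hFD j) 2
    rw [← Finset.mul_sum, h1, h2] at h3
    have h4 : n * ∑ x, D x ^ 2 ≤ n * (lamB ^ 2 * ∑ x, A x ^ 2) := by linarith
    exact le_of_mul_le_mul_left h4 hn
  have hD1 : ∑ x, |D x| ≤ √n * (lamB * √(∑ x, A x ^ 2)) := by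
    refine abs_le_of_sq_le_sq' ?_ (by positivity) |>.2
    refine (l1_le_l2 D).trans ?_
    rw [mul_pow, mul_pow, Real.sq_sqrt hn.le,
      Real.sq_sqrt (Finset.sum_nonneg fun x _ => sq_nonneg (A x))]
    exact mul_le_mul_of_nonneg_left hD2 hn.le
  -- pieces
  have piece : ∀ (f : ZMod n → ℝ) (r : ℝ), (∀ x, 0 ≤ f x) → ∑ x, f x = r →
      ∑ x, |(cpow f t - r ^ t • unif n) x| ≤ 2 * r ^ t := by
    intro f r hf hr
    have hr0 : 0 ≤ r := by rw [← hr]; exact Finset.sum_nonneg fun x _ => hf x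
    calc ∑ x, |(cpow f t - r ^ t • unif n) x| ≤ ∑ x, (cpow f t x + r ^ t * unif n x) := by
          refine Finset.sum_le_sum fun x _ => ?_
          rw [Pi.sub_apply, Pi.smul_apply, smul_eq_mul]
          refine (abs_sub _ _).trans (le_of_eq ?_)
          rw [abs_of_nonneg (cpow_nonneg hf t x), abs_of_nonneg]
          exact mul_nonneg (pow_nonneg hr0 t) (by unfold unif; positivity)
      _ = _ := by
          rw [Finset.sum_add_distrib, ← Finset.mul_sum, sum_unif, sum_cpow', hr]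
          ring
  have pA := piece μA (c + a) nA sA
  have pB := piece μB (c + b) nB sB
  have pC := piece μC c nC sC
  have e : ∀ x, (cpow μ t - unif n) x = D x + (cpow μA t - (c + a) ^ t • unif n) x +
      (cpow μB t - (c + b) ^ t • unif n) x - (cpow μC t - c ^ t • unif n) x := by
    intro x
    rw [hD, hm]
    simp only [Pi.sub_apply, Pi.add_apply, Pi.smul_apply, smul_eq_mul]
    ring
  have h1 : ∑ x, |(cpow μ t - unif n) x| ≤ ∑ x, |D x| +
      ∑ x, |(cpow μA t - (c + a) ^ t • unif n) x| +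
      ∑ x, |(cpow μB t - (c + b) ^ t • unif n) x| + ∑ x, |(cpow μC t - c ^ t • unif n) x| := by
    rw [← Finset.sum_add_distrib, ← Finset.sum_add_distrib, ← Finset.sum_add_distrib]
    refine Finset.sum_le_sum fun x _ => ?_
    rw [e x]
    refine (abs_sub _ _).trans (add_le_add ?_ le_rfl)
    refine (abs_add_le _ _).trans (add_le_add ?_ le_rfl)
    exact abs_add_le _ _
  rw [tv_eq]
  linarith

/-- the support after `t` steps, when every step is in `U + [-H, H]` -/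
theorem exists_supp_int (U : Finset (ZMod n)) (H : ℕ) {μ : ZMod n → ℝ}
    (hμ : ∀ x, μ x ≠ 0 → ∃ u ∈ U, x - u ∈ (J H : Finset (ZMod n))) (t : ℕ) :
    ∃ R : Finset (ZMod n), R.card ≤ U.card ^ t ∧
      ∀ x, cpow μ t x ≠ 0 → ∃ r ∈ R, x - r ∈ (J (t * H) : Finset (ZMod n)) := by
  classical
  induction t with
  | zero =>
    refine ⟨{0}, by simp, fun x hx => ⟨0, by simp, ?_⟩⟩
    have h1 : x = 0 := by
      by_contra hcon
      apply hx
      simp [cpow, hcon]
    rw [h1, sub_zero]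
    exact zero_mem_J _
  | succ t ih =>
    obtain ⟨R, hR, hR2⟩ := ih
    refine ⟨Finset.image₂ (· + ·) R U, ?_, fun x hx => ?_⟩
    · calc (Finset.image₂ (· + ·) R U).card ≤ R.card * U.card := Finset.card_image₂_le _ _ _
        _ ≤ U.card ^ t * U.card := Nat.mul_le_mul_right _ hR
        _ = U.card ^ (t + 1) := by rw [pow_succ]
    · rw [cpow, conv] at hx
      obtain ⟨y, _, hy⟩ := Finset.exists_ne_zero_of_sum_ne_zero hx
      obtain ⟨r, hr, hr2⟩ := hR2 y (left_ne_zero_of_mul hy)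
      obtain ⟨u, hu, hu2⟩ := hμ (x - y) (right_ne_zero_of_mul hy)
      refine ⟨r + u, Finset.mem_image₂_of_mem hr hu, ?_⟩
      have h1 := add_mem_J hr2 hu2
      have e1 : y - r + (x - y - u) = x - (r + u) := by abel
      have e2 : t * H + H = (t + 1) * H := by ring
      rwa [e1, e2] at h1

theorem card_cover (R : Finset (ZMod n)) (K : ℕ) :
    ((univ : Finset (ZMod n)).filter fun x => ∃ r ∈ R, x - r ∈ (J K : Finset (ZMod n))).card ≤
      R.card * (2 * K + 1) := by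
  classical
  calc _ ≤ (Finset.image₂ (· + ·) R (J K : Finset (ZMod n))).card := by
        refine Finset.card_le_card fun x hx => ?_
        obtain ⟨r, hr, hr2⟩ := (Finset.mem_filter.mp hx).2
        have : x = r + (x - r) := by abel
        rw [this]
        exact Finset.mem_image₂_of_mem hr hr2
    _ ≤ R.card * (J K : Finset (ZMod n)).card := Finset.card_image₂_le _ _ _
    _ ≤ _ := Nat.mul_le_mul_left _ (card_J_le K)

/-- lower bound: no `B`-step -/
theorem tv_three_ge {A B : ZMod n → ℝ} {a b c : ℝ} (hA0 : ∀ x, 0 ≤ A x)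
    (hB0 : ∀ x, 0 ≤ B x) (hA1 : ∑ x, A x = 1) (hB1 : ∑ x, B x = 1) (ha : 0 ≤ a) (hb : 0 ≤ b)
    (hc : 0 ≤ c) (hsum : c + a + b = 1) (U : Finset (ZMod n)) (H : ℕ)
    (h0U : (0 : ZMod n) ∈ U) (hAU : ∀ x, A x ≠ 0 → ∃ u ∈ U, x - u ∈ (J H : Finset (ZMod n)))
    (t : ℕ) :
    (c + a) ^ t - (U.card : ℝ) ^ t * (2 * (t * H : ℕ) + 1) / n ≤
      tv (cpow (c • dl + a • A + b • B) t) := by
  classical
  set μ := c • dl + a • A + b • B with hμ
  set μA := c • (dl : ZMod n → ℝ) + a • A with hμA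
  have hs : ∑ x, μ x = 1 := by
    rw [hμ, hμA]
    simp only [Pi.add_apply, Pi.smul_apply, smul_eq_mul, Finset.sum_add_distrib, ← Finset.mul_sum,
      sum_dl, hA1, hB1]
    linarith
  have hsA : ∑ x, μA x = c + a := by
    rw [hμA]
    simp only [Pi.add_apply, Pi.smul_apply, smul_eq_mul, Finset.sum_add_distrib, ← Finset.mul_sum,
      sum_dl, hA1]
    linarith
  have nA : ∀ x, 0 ≤ μA x := fun x => add_nonneg (mul_nonneg hc (dl_nonneg x))
    (mul_nonneg ha (hA0 x))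
  have n1 : ∀ x, μA x ≤ μ x := by
    intro x
    have : μ x = μA x + b * B x := by
      rw [hμ, hμA]; simp only [Pi.add_apply, Pi.smul_apply, smul_eq_mul]
    rw [this]
    have := mul_nonneg hb (hB0 x)
    linarith
  have n0 : ∀ x, 0 ≤ μ x := fun x => (nA x).trans (n1 x)
  have hmono : ∀ t x, cpow μA t x ≤ cpow μ t x := by
    intro t
    induction t with
    | zero => intro x; exact le_rfl
    | succ t ih =>
      intro x
      unfold cpow conv
      refine Finset.sum_le_sum fun y _ => ?_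
      exact mul_le_mul (ih y) (n1 _) (nA _) (cpow_nonneg n0 t y)
  have hsupp : ∀ x, μA x ≠ 0 → ∃ u ∈ U, x - u ∈ (J H : Finset (ZMod n)) := by
    intro x hx
    by_cases h1 : x = 0
    · exact ⟨0, h0U, by rw [h1, sub_zero]; exact zero_mem_J H⟩
    · apply hAU
      intro h2
      apply hx
      rw [hμA]
      simp only [Pi.add_apply, Pi.smul_apply, smul_eq_mul, h2, mul_zero, add_zero]
      simp [dl, h1]
  obtain ⟨R, hR, hR2⟩ := exists_supp_int U H hsupp t
  set T := (univ : Finset (ZMod n)).filter fun x => ∃ r ∈ R, x - r ∈ (J (t * H) : Finset (ZMod n))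
    with hT
  have h2 := tv_ge (sum_cpow hs t) T
  have h3 : (c + a) ^ t ≤ ∑ x ∈ T, cpow μ t x := by
    calc (c + a) ^ t = ∑ x, cpow μA t x := by rw [sum_cpow', hsA]
      _ = ∑ x ∈ T, cpow μA t x := by
          symm
          refine Finset.sum_subset (Finset.subset_univ T) fun x _ hx => ?_
          by_contra hcon
          exact hx (Finset.mem_filter.mpr ⟨Finset.mem_univ _, hR2 x hcon⟩)
      _ ≤ _ := Finset.sum_le_sum fun x _ => hmono t x
  have h4 : (T.card : ℝ) ≤ (U.card : ℝ) ^ t * (2 * (t * H : ℕ) + 1) := by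
    have h5 : T.card ≤ U.card ^ t * (2 * (t * H) + 1) :=
      (card_cover R (t * H)).trans (Nat.mul_le_mul_right _ hR)
    have h6 : ((T.card : ℕ) : ℝ) ≤ ((U.card ^ t * (2 * (t * H) + 1) : ℕ) : ℝ) := by exact_mod_cast h5
    refine h6.trans (le_of_eq ?_)
    push_cast
    ring
  have h5 : (T.card : ℝ) / n ≤ (U.card : ℝ) ^ t * (2 * (t * H : ℕ) + 1) / n :=
    div_le_div_of_nonneg_right h4 npos.le
  linarith

end

end Pool.Agent.TH977.Cyc
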